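import Mathlib
import Pool.Agent.H661R3.OP.Defs

/-!
Project RM: residues modulo `md` of completely additive functions at rough tuples, with bystander
forms of arbitrary size (each statement is a `Prop`; the proofs are in the other files).
-/

set_option autoImplicit false

open Finset

namespace Pool.Agent.H661R4.RM

open Pool.Agent.H661R3.OP (Rough)

/-- completely additive with values modulo `md` -/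
def AddM {md : ℕ} (F : ℤ → ZMod md) : Prop := ∀ x y : ℤ, x ≠ 0 → y ≠ 0 → F (x * y) = F x + F y

/-- the elimination property modulo `md` -/
def Elim (md : ℕ) {ι : Type} (a b : ι → ℤ) (S : Finset ι) (o : ι) (M B : ℕ) : Prop :=
  ∀ (φ : ι → ℤ → ZMod md) (ρ : ℤ → ZMod md),
    (∀ α β : ℤ, |α| ≤ B → |β| ≤ B → 0 ≤ a o * α + b o * β → a o * α + b o * β ≤ B →
      ∑ i ∈ S, φ i (a i * α + b i * β) = ρ β) → φ o 0 = φ o M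

/-- a system of linear forms `a i * n + b i` with all the constants of the proof; `md` is the
modulus, `rb` the number of bystander forms -/
structure Sys (ι : Type) [Fintype ι] (md rb : ℕ) where
  a : ι → ℤ
  b : ι → ℤ
  S : Finset ι
  o : ι
  M : ℕ
  B : ℕ
  K : ℕ
  W : ℕ
  n₀ : ℤ
  q : ℤ
  ha : ∀ i, 0 < a i
  hab : ∀ i, IsCoprime (a i) (b i)
  hdet : ∀ i j, i ≠ j → a i * b j - a j * b i ≠ 0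
  hS : Nat.Coprime S.card md
  ho : o ∈ S
  hmin : ∀ i ∈ S, i ≠ o → 0 < a o * b i - a i * b o
  hM : 0 < M
  hMB : M ≤ B
  helim : Elim md a b S o M B
  hKa : ∀ i, a i ≤ K
  hKb : ∀ i, |b i| ≤ K
  hKdet : ∀ i j, |a i * b j - a j * b i| ≤ K
  hq : ∀ i, 0 < a i * q + b i ∧ a i * q + b i ≤ K
  hK : 16 * (Fintype.card ι + 1) ^ 2 * (B + 1) ^ 2 ≤ K
  hKr : 2 * (Fintype.card ι + rb) ^ 2 ≤ K
  hW : 0 < W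
  hpW : ∀ p : ℕ, p.Prime → (p ∣ W ↔ p ≤ K)
  hn₀ : ∀ i, ∀ p : ℕ, p.Prime → p ∣ W → ¬ (p : ℤ) ∣ a i * n₀ + b i

/-- the forbidden value `c` and the bystander forms `e k * n + f k` -/
structure Ctx (md rb : ℕ) where
  c : ZMod md
  e : Fin rb → ℤ
  f : Fin rb → ℤ

namespace Sys

variable {ι : Type} [Fintype ι] {md rb : ℕ} (D : Sys ι md rb)

/-- the `i`-th form, homogenised -/
def L (i : ι) (x y : ℤ) : ℤ := D.a i * x + D.b i * y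

/-- the sum of `F` over the values of the forms in `S` -/
def R (F : ℤ → ZMod md) (x y : ℤ) : ZMod md := ∑ i ∈ D.S, F (D.L i x y)

/-- the exceptional integers: rough values of all the forms, sum over `S` different from `c` -/
def Exc (F : ℤ → ZMod md) (c : Ctx md rb) (Y : ℕ) (Z : ℤ) : Set ℤ :=
  {n : ℤ | 0 < n ∧ n ≤ Z ∧ (∀ i, Rough Y (D.L i n 1)) ∧ (∀ k, Rough Y (c.e k * n + c.f k)) ∧
    D.R F n 1 ≠ c.c}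

/-- the bystanders are primitive and coprime to `W` at `n₀` -/
def Adm (c : Ctx md rb) : Prop := ∀ k, ∀ p : ℕ, p.Prime →
  ((p : ℤ) ∣ c.e k → ¬ (p : ℤ) ∣ c.f k) ∧ (p ∣ D.W → ¬ (p : ℤ) ∣ c.e k * D.n₀ + c.f k)

/-- the bystanders are admissible and there are few exceptional integers up to `Z` -/
def Few (F : ℤ → ZMod md) (c : Ctx md rb) (Y : ℕ) (Z : ℤ) (C : ℕ) : Prop :=
  D.Adm c ∧ (Y : ℤ) ^ C ≤ Z ∧ ((D.Exc F c Y Z).ncard : ℤ) * (Y : ℤ) ^ C ≤ Z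

/-- good pairs -/
def Good (Y : ℕ) (x y : ℤ) : Prop :=
  IsCoprime y (D.W : ℤ) ∧ (D.W : ℤ) ∣ x - D.n₀ * y ∧ IsCoprime x y ∧
    ∀ j ∈ D.S, 0 < D.L j x y ∧ Rough Y (D.L j x y)

end Sys

/-- GA: the algebra of the grid -/
def GA : Prop := ∀ (ι : Type) [Fintype ι] (md rb : ℕ) (D : Sys ι md rb) (F : ℤ → ZMod md), AddM F →
  ∀ (c : Ctx md rb) (Y : ℕ) (Z : ℤ) (X U V w : ℤ), 2 ≤ Y →
  (∀ j ∈ D.S, 0 < D.L j U w ∧ 0 < D.L j V w) →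
  (∀ i j, Rough Y (D.a i * D.a j * X + D.a i * D.b j * V + D.b i * D.a j * U
    + D.b i * D.b j * w)) →
  (∀ j ∈ D.S, ∀ k, Rough Y (c.e k * D.L j X V + c.f k * D.L j U w) ∧
    Rough Y (c.e k * D.L j X U + c.f k * D.L j V w)) →
  (∀ j ∈ D.S, D.L j U w ∣ D.L j X V ∧ D.L j V w ∣ D.L j X U) →
  (∀ j ∈ D.S, 0 < D.L j X V ∧ D.L j X V ≤ Z ∧ 0 < D.L j X U ∧ D.L j X U ≤ Z) →
  (∀ j ∈ D.S, D.L j X V / D.L j U w ∉ D.Exc F c Y Z) →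
  (∀ j ∈ D.S, D.L j X U / D.L j V w ∉ D.Exc F c Y Z) →
  D.R F U w = D.R F V w

/-- GRID: two good pairs with the same second member and coprime values have the same `R` -/
def GRID : Prop := ∀ (ι : Type) [Fintype ι] (md rb : ℕ) (D : Sys ι md rb) (C₁ : ℕ), ∃ C Y₀ : ℕ,
  ∀ (F : ℤ → ZMod md), AddM F → ∀ (c : Ctx md rb) (Y : ℕ) (Z : ℤ), Y₀ ≤ Y → D.Few F c Y Z C →
  ∀ U V w : ℤ, |U| ≤ (Y : ℤ) ^ C₁ → |V| ≤ (Y : ℤ) ^ C₁ → |w| ≤ (Y : ℤ) ^ C₁ →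
  IsCoprime w (D.W : ℤ) → (D.W : ℤ) ∣ U - D.n₀ * w → (D.W : ℤ) ∣ V - D.n₀ * w →
  (∀ j ∈ D.S, 0 < D.L j U w ∧ Rough Y (D.L j U w)) →
  (∀ j ∈ D.S, 0 < D.L j V w ∧ Rough Y (D.L j V w)) →
  (∀ i ∈ D.S, ∀ j ∈ D.S, i ≠ j → IsCoprime (D.L i U w) (D.L j U w)) →
  (∀ i ∈ D.S, ∀ j ∈ D.S, i ≠ j → IsCoprime (D.L i V w) (D.L j V w)) →
  (∀ i ∈ D.S, ∀ j ∈ D.S, IsCoprime (D.L i U w) (D.L j V w)) →
  D.R F U w = D.R F V w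

/-- LA: the intermediate first member -/
def LA : Prop := ∀ (ι : Type) [Fintype ι] (md rb : ℕ) (D : Sys ι md rb) (C₁ : ℕ), ∃ C Y₀ : ℕ,
  ∀ (Y : ℕ), Y₀ ≤ Y →
  ∀ U U' w : ℤ, |U| ≤ (Y : ℤ) ^ C₁ → |U'| ≤ (Y : ℤ) ^ C₁ → |w| ≤ (Y : ℤ) ^ C₁ →
  D.Good Y U w → D.Good Y U' w →
  ∃ V : ℤ, |V| ≤ (Y : ℤ) ^ C ∧ D.Good Y V w ∧
    (∀ i ∈ D.S, ∀ j ∈ D.S, IsCoprime (D.L i U w) (D.L j V w)) ∧
    (∀ i ∈ D.S, ∀ j ∈ D.S, IsCoprime (D.L i U' w) (D.L j V w))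

/-- LINK: two good pairs with the same second member have the same `R` -/
def LINK : Prop := ∀ (ι : Type) [Fintype ι] (md rb : ℕ) (D : Sys ι md rb) (C₁ : ℕ), ∃ C Y₀ : ℕ,
  ∀ (F : ℤ → ZMod md), AddM F → ∀ (c : Ctx md rb) (Y : ℕ) (Z : ℤ), Y₀ ≤ Y → D.Few F c Y Z C →
  ∀ U U' w : ℤ, |U| ≤ (Y : ℤ) ^ C₁ → |U'| ≤ (Y : ℤ) ^ C₁ → |w| ≤ (Y : ℤ) ^ C₁ →
  D.Good Y U w → D.Good Y U' w → D.R F U w = D.R F U' w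

/-- TA: the two-dimensional family of good pairs through `(r, δ)` -/
def TA : Prop := ∀ (ι : Type) [Fintype ι] (md rb : ℕ) (D : Sys ι md rb) (C₁ : ℕ), ∃ C Y₀ : ℕ,
  ∀ (Y : ℕ), Y₀ ≤ Y →
  ∀ r δ : ℤ, 0 < r → r ≤ (Y : ℤ) ^ C₁ → 0 < δ → δ ≤ (Y : ℤ) ^ C₁ →
  (D.W : ℤ) ∣ δ → (D.W : ℤ) ∣ r - 1 → IsCoprime r δ →
  (∀ m : ℤ, 0 ≤ m → m ≤ D.B → Rough Y (r + m * δ)) →
  ∃ u w : ℤ, |u| ≤ (Y : ℤ) ^ C ∧ |w| ≤ (Y : ℤ) ^ C ∧ D.L D.o u w = r ∧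
    ∀ α β : ℤ, |α| ≤ D.B → |β| ≤ D.B → 0 ≤ D.L D.o α β → D.L D.o α β ≤ D.B →
      D.Good Y (u + α * δ) (w + β * δ)

/-- L3: invariance of `F` under `r ↦ r + M δ` -/
def L3 : Prop := ∀ (ι : Type) [Fintype ι] (md rb : ℕ) (D : Sys ι md rb) (C₁ : ℕ), ∃ C Y₀ : ℕ,
  ∀ (F : ℤ → ZMod md), AddM F → ∀ (c : Ctx md rb) (Y : ℕ) (Z : ℤ), Y₀ ≤ Y → D.Few F c Y Z C →
  ∀ r δ : ℤ, 0 < r → r ≤ (Y : ℤ) ^ C₁ → 0 < δ → δ ≤ (Y : ℤ) ^ C₁ →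
  (D.W : ℤ) ∣ δ → (D.W : ℤ) ∣ r - 1 → IsCoprime r δ →
  (∀ m : ℤ, 0 ≤ m → m ≤ D.B → Rough Y (r + m * δ)) → F r = F (r + D.M * δ)

/-- FIN: `F` vanishes at the primes that are `1` modulo `M W` -/
def FIN : Prop := ∀ (ι : Type) [Fintype ι] (md rb : ℕ) (D : Sys ι md rb), ∃ C Y₀ : ℕ,
  ∀ (F : ℤ → ZMod md), AddM F → ∀ (c : Ctx md rb) (Y : ℕ) (Z : ℤ), Y₀ ≤ Y → D.Few F c Y Z C →
  ∀ p : ℕ, p.Prime → Y < p → p ≤ Y ^ 2 → ((D.M * D.W : ℕ) : ℤ) ∣ (p : ℤ) - 1 → F p = 0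

/-- iterated differences with the steps of a list -/
def dl {md : ℕ} : List ℕ → (ℤ → ZMod md) → ℤ → ZMod md
  | [], φ => φ
  | s :: l, φ => dl l (fun x => φ (x + s) - φ x)

/-- ITD: iterated differences with positive steps, modulo `md` -/
def ITD : Prop := ∀ md : ℕ, 0 < md → ∀ l : List ℕ, (∀ s ∈ l, 0 < s) → ∃ M A : ℕ, 0 < M ∧
  ∀ φ : ℤ → ZMod md, (∀ m : ℤ, 0 ≤ m → m ≤ A → dl l φ m = 0) → φ 0 = φ M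

/-- ELIM: the elimination property holds with suitable constants -/
def ELIM : Prop := ∀ (ι : Type) [Fintype ι] (md : ℕ) (a b : ι → ℤ) (S : Finset ι) (o : ι),
  0 < md → o ∈ S →
  (∀ i, 0 < a i) → IsCoprime (a o) (b o) → (∀ i ∈ S, i ≠ o → 0 < a o * b i - a i * b o) →
  ∃ M B : ℕ, 0 < M ∧ M ≤ B ∧ Elim md a b S o M B

/-- SETUP: all the constants exist -/
def SETUP : Prop := ∀ (ι : Type) [Fintype ι] (md rb : ℕ) (a b : ι → ℤ) (S : Finset ι),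
  (∀ i, 0 < a i) → (∀ i, IsCoprime (a i) (b i)) →
  (∀ i j, i ≠ j → a i * b j - a j * b i ≠ 0) → 1 < md → Nat.Coprime S.card md →
  ∃ K W M : ℕ, 0 < W ∧ 0 < M ∧ (∀ p : ℕ, p.Prime → (p ∣ W ↔ p ≤ K)) ∧
  ∀ n₀ : ℤ, (∀ i, ∀ p : ℕ, p.Prime → p ∣ W → ¬ (p : ℤ) ∣ a i * n₀ + b i) →
  ∃ D : Sys ι md rb, D.a = a ∧ D.b = b ∧ D.S = S ∧ D.W = W ∧ D.M = M ∧ D.n₀ = n₀

/-- MAIN0: the main theorem in terms of `Y`, uniform in the bystanders -/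
def MAIN0 : Prop := ∀ (ι : Type) [Fintype ι] (md rb : ℕ) (a b : ι → ℤ) (S : Finset ι),
  (∀ i, 0 < a i) → (∀ i, IsCoprime (a i) (b i)) →
  (∀ i j, i ≠ j → a i * b j - a j * b i ≠ 0) → 1 < md → Nat.Coprime S.card md →
  ∃ q C Y₀ : ℕ, 0 < q ∧ ∀ (F : ℤ → ZMod md), AddM F → ∀ (c : Ctx md rb),
  (∀ p : ℕ, p.Prime → ∃ n : ℤ, (∀ i, ¬ (p : ℤ) ∣ a i * n + b i) ∧
    ∀ k, ¬ (p : ℤ) ∣ c.e k * n + c.f k) →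
  ∀ (Y : ℕ) (Z : ℤ), Y₀ ≤ Y → (Y : ℤ) ^ C ≤ Z →
  (∃ p : ℕ, p.Prime ∧ Y < p ∧ p ≤ Y ^ 2 ∧ (q : ℤ) ∣ (p : ℤ) - 1 ∧ F p ≠ 0) →
  Z < (Y : ℤ) ^ C * ({n : ℤ | 0 < n ∧ n ≤ Z ∧ (∀ i, Rough Y (a i * n + b i)) ∧
    (∀ k, Rough Y (c.e k * n + c.f k)) ∧ ∑ i ∈ S, F (a i * n + b i) ≠ c.c}.ncard : ℤ)

/-- the final theorem, for the number of prime factors modulo `md`, uniform in the bystanders -/
def FINAL : Prop := ∀ (ι : Type) [Fintype ι] (md rb : ℕ) (a b : ι → ℤ) (S : Finset ι),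
  (∀ i, 0 < a i) →
  (∀ i j, i ≠ j → a i * b j - a j * b i ≠ 0) → 1 < md → Nat.Coprime S.card md →
  ∀ ε : ℝ, 0 < ε → ∃ δ : ℝ, 0 < δ ∧ ∃ x₀ : ℝ, ∀ x : ℝ, x₀ ≤ x → ∀ e f : Fin rb → ℤ,
  (∀ p : ℕ, p.Prime → ∃ n : ℤ, (∀ i, ¬ (p : ℤ) ∣ a i * n + b i) ∧
    ∀ k, ¬ (p : ℤ) ∣ e k * n + f k) → ∀ s : ZMod md,
  x ^ (1 - ε) ≤ (({n : ℕ | 0 < n ∧ (n : ℝ) ≤ x ∧
    (∀ i, 0 < a i * n + b i ∧ ∀ p : ℕ, p.Prime → (p : ℤ) ∣ a i * n + b i → x ^ δ < p) ∧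
    (∀ k, ∀ p : ℕ, p.Prime → (p : ℤ) ∣ e k * n + f k → x ^ δ < p) ∧
    ((∑ i ∈ S, ArithmeticFunction.cardFactors (a i * n + b i).natAbs : ℕ) : ZMod md) ≠ s}.ncard
      : ℕ) : ℝ)

end Pool.Agent.H661R4.RM
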