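import Pool.Agent.H661R4.RM.Defs

/-!
Elimination modulo `md` (task EL): `ITD → ELIM`.  Adapted from `H661R3/OP/EL.lean`.
-/

set_option autoImplicit false

open Finset

namespace Pool.Agent.H661R4.RM

/-- the inductive claim -/
theorem el_claim {md : ℕ} {ι : Type} [DecidableEq ι] (a b : ι → ℤ) (o : ι) (ha : ∀ i, 0 < a i)
    (T : Finset ι) (hT : ∀ i ∈ T, 0 < a o * b i - a i * b o) :
    ∃ l : List ℕ, (∀ s ∈ l, 0 < s) ∧ ∀ B' : ℕ, ∃ B : ℕ,
      ∀ (ψ : ℤ → ZMod md) (φ : ι → ℤ → ZMod md) (ρ : ℤ → ZMod md),
        (∀ α β : ℤ, |α| ≤ B → |β| ≤ B → 0 ≤ a o * α + b o * β → a o * α + b o * β ≤ B →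
          ψ (a o * α + b o * β) + ∑ i ∈ T, φ i (a i * α + b i * β) = ρ β) →
        ∀ α β : ℤ, |α| ≤ B' → |β| ≤ B' → 0 ≤ a o * α + b o * β → a o * α + b o * β ≤ B' →
          dl l ψ (a o * α + b o * β) = 0 := by
  induction T using Finset.induction_on with
  | empty =>
    refine ⟨[(a o).toNat], ?_, ?_⟩
    · intro s hs
      have := ha o
      simp only [List.mem_singleton] at hs
      omega
    · intro B'
      refine ⟨B' + (a o).toNat + 1, ?_⟩
      intro ψ φ ρ h α β h1 h2 h3 h4
      have hao := ha o
      have hcast : (((a o).toNat : ℕ) : ℤ) = a o := Int.toNat_of_nonneg hao.le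
      have e1 := h α β (by push_cast; rw [hcast]; linarith) (by push_cast; rw [hcast]; linarith)
        h3 (by push_cast; rw [hcast]; linarith)
      have habs : |α + 1| ≤ |α| + 1 := by
        have := abs_add_le α 1
        simpa using this
      have e2 := h (α + 1) β (by push_cast; rw [hcast]; linarith)
        (by push_cast; rw [hcast]; linarith) (by linarith) (by push_cast; rw [hcast]; linarith)
      simp only [Finset.sum_empty, add_zero] at e1 e2
      have e3 : a o * (α + 1) + b o * β = a o * α + b o * β + ((a o).toNat : ℕ) := by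
        rw [hcast]; ring
      rw [e3] at e2
      show ψ (a o * α + b o * β + ((a o).toNat : ℕ)) - ψ (a o * α + b o * β) = 0
      rw [e1, e2, sub_self]
  | insert i T hi ih =>
    obtain ⟨l, hl, hB⟩ := ih (fun j hj => hT j (Finset.mem_insert_of_mem hj))
    have hs := hT i (Finset.mem_insert_self i T)
    obtain ⟨s, hs2⟩ : ∃ s : ℕ, (s : ℤ) = a o * b i - a i * b o := ⟨_, Int.toNat_of_nonneg hs.le⟩
    refine ⟨s :: l, ?_, ?_⟩
    · intro t ht
      rcases List.mem_cons.1 ht with rfl | ht
      · omega
      · exact hl t ht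
    · intro B'
      obtain ⟨B1, h1⟩ := hB B'
      refine ⟨B1 + (b i).natAbs + (a i).natAbs + s, ?_⟩
      intro ψ φ ρ h
      have key := h1 (fun x => ψ (x + s) - ψ x)
        (fun j x => φ j (x + (a j * b i - b j * a i)) - φ j x) (fun β => ρ (β - a i) - ρ β) ?_
      · intro α β g1 g2 g3 g4
        exact key α β g1 g2 g3 g4
      · intro α β g1 g2 g3 g4
        have hb : (((b i).natAbs : ℕ) : ℤ) = |b i| := Int.natCast_natAbs _
        have ha' : (((a i).natAbs : ℕ) : ℤ) = |a i| := Int.natCast_natAbs _
        have n1 := abs_nonneg (b i)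
        have n2 := abs_nonneg (a i)
        have e1 := h α β (by push_cast; linarith) (by push_cast; linarith)
          g3 (by push_cast; linarith)
        have k1 : |α + b i| ≤ |α| + |b i| := abs_add_le _ _
        have k2 : |β - a i| ≤ |β| + |a i| := by
          have := abs_add_le β (-a i)
          rwa [abs_neg, ← sub_eq_add_neg] at this
        have em : a o * (α + b i) + b o * (β - a i) = a o * α + b o * β + s := by
          rw [hs2]; ring
        have e2 := h (α + b i) (β - a i) (by push_cast; linarith) (by push_cast; linarith)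
          (by rw [em]; linarith) (by rw [em]; push_cast; linarith)
        rw [em] at e2
        rw [Finset.sum_insert hi] at e1 e2
        have ei : a i * (α + b i) + b i * (β - a i) = a i * α + b i * β := by ring
        rw [ei] at e2
        have ej : ∑ j ∈ T, φ j (a j * (α + b i) + b j * (β - a i)) =
            ∑ j ∈ T, φ j (a j * α + b j * β + (a j * b i - b j * a i)) := by
          refine Finset.sum_congr rfl fun j _ => ?_
          congr 1
          ring
        rw [ej] at e2
        simp only [Finset.sum_sub_distrib]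
        rw [← e1, ← e2]
        ring

theorem t_EL (h : ITD) : ELIM := by
  intro ι _ md a b S o hmd ho ha hco hmin
  classical
  obtain ⟨l, hl, hB⟩ := el_claim (md := md) a b o ha (S.erase o)
    (fun i hi => hmin i (Finset.mem_of_mem_erase hi) (Finset.ne_of_mem_erase hi))
  obtain ⟨M, A, hM, hA⟩ := h md hmd l hl
  obtain ⟨x1, y1, hxy⟩ := hco
  obtain ⟨B, hBB⟩ := hB ((x1.natAbs + y1.natAbs + 1) * A)
  refine ⟨M, max B M, hM, le_max_right _ _, ?_⟩
  intro φ ρ hφ
  apply hA
  intro m hm0 hmA
  have key := hBB (φ o) φ ρ ?_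
  · have nx := abs_nonneg x1
    have ny := abs_nonneg y1
    have hAA : (0 : ℤ) ≤ A := Int.natCast_nonneg A
    have em : a o * (x1 * m) + b o * (y1 * m) = m := by
      calc a o * (x1 * m) + b o * (y1 * m) = (x1 * a o + y1 * b o) * m := by ring
        _ = m := by rw [hxy, one_mul]
    have k1 : |x1 * m| ≤ |x1| * A := by
      rw [abs_mul, abs_of_nonneg hm0]
      exact mul_le_mul_of_nonneg_left hmA nx
    have k2 : |y1 * m| ≤ |y1| * A := by
      rw [abs_mul, abs_of_nonneg hm0]
      exact mul_le_mul_of_nonneg_left hmA ny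
    have p1 : 0 ≤ |x1| * (A : ℤ) := mul_nonneg nx hAA
    have p2 : 0 ≤ |y1| * (A : ℤ) := mul_nonneg ny hAA
    have := key (x1 * m) (y1 * m) (by push_cast; nlinarith)
      (by push_cast; nlinarith) (by rw [em]; exact hm0)
      (by rw [em]; push_cast; nlinarith)
    rwa [em] at this
  · intro α β g1 g2 g3 g4
    have hBm : (B : ℤ) ≤ ((max B M : ℕ) : ℤ) := by exact_mod_cast le_max_left B M
    have := hφ α β (g1.trans hBm) (g2.trans hBm) g3 (g4.trans hBm)
    rw [← Finset.add_sum_erase S _ ho] at this
    exact this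

end Pool.Agent.H661R4.RM
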