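import Pool.Agent.H661R4.RM.Defs

set_option autoImplicit false

open Finset

namespace Pool.Agent.H661R4.RM

open Pool.Agent.H661R3.OP (Rough SV CR PAP)

theorem t_FI (hM : MAIN0) (hP : PAP) : FINAL := by
  intro ι _ md rb a b S ha hdet hmd hS ε hε
  by_cases hab : ∀ i, IsCoprime (a i) (b i)
  swap
  · push Not at hab
    obtain ⟨i, hi⟩ := hab
    refine ⟨1, one_pos, 1, fun x _ e' f' hloc s => ?_⟩
    exfalso
    rw [Int.isCoprime_iff_gcd_eq_one] at hi
    obtain ⟨p, hp, hpd⟩ := Nat.exists_prime_and_dvd hi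
    obtain ⟨n, hn, _⟩ := hloc p hp
    have h1 : (p : ℤ) ∣ ((Int.gcd (a i) (b i) : ℕ) : ℤ) := Int.natCast_dvd_natCast.mpr hpd
    exact hn i (dvd_add ((h1.trans (Int.gcd_dvd_left ..)).mul_right n) (h1.trans (Int.gcd_dvd_right ..)))
  obtain ⟨q, C, Y₀, hq, hmain⟩ := hM ι md rb a b S ha hab hdet hmd hS
  obtain ⟨Y₁, hY₁⟩ := hP q hq
  haveI : Fact (1 < md) := ⟨hmd⟩
  -- the residue of the number of prime factors
  set F : ℤ → ZMod md := fun x => ((ArithmeticFunction.cardFactors x.natAbs : ℕ) : ZMod md) with hF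
  have hFadd : AddM F := by
    intro x y hx hy
    simp only [hF]
    rw [Int.natAbs_mul, ArithmeticFunction.cardFactors_mul (Int.natAbs_ne_zero.mpr hx)
      (Int.natAbs_ne_zero.mpr hy)]
    push_cast
    rfl
  have hFp : ∀ p : ℕ, p.Prime → F p ≠ 0 := by
    intro p hp
    simp only [hF, Int.natAbs_natCast]
    rw [ArithmeticFunction.cardFactors_apply_prime hp]
    simp
  set e : ℝ := min ε 1 with he
  have he0 : 0 < e := lt_min hε one_pos
  have he1 : e ≤ 1 := min_le_right _ _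
  have heε : e ≤ ε := min_le_left _ _
  set δ : ℝ := e / (2 * (C + 1)) with hδ
  have hC1 : (0 : ℝ) < C + 1 := by positivity
  have hδ0 : 0 < δ := by positivity
  have hδC : δ * C ≤ e / 2 := by
    rw [hδ, div_mul_eq_mul_div, div_le_div_iff₀ (by positivity) (by norm_num)]
    nlinarith
  set K : ℕ := ∑ i, (b i).natAbs with hK
  have hbK : ∀ i, |b i| ≤ (K : ℤ) := by
    intro i
    have h1 : (b i).natAbs ≤ K := Finset.single_le_sum (f := fun i => (b i).natAbs)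
      (fun _ _ => Nat.zero_le _) (Finset.mem_univ i)
    have : |b i| = ((b i).natAbs : ℤ) := Int.abs_eq_natAbs _
    rw [this]; exact_mod_cast h1
  -- largeness
  have hlim1 : ∀ᶠ x : ℝ in Filter.atTop, ((max Y₀ Y₁ : ℕ) : ℝ) ≤ x ^ δ :=
    (tendsto_rpow_atTop hδ0).eventually_ge_atTop _
  have hlim2 : ∀ᶠ x : ℝ in Filter.atTop, 2 * ((K : ℝ) + 1) ≤ x ^ (e / 2) :=
    (tendsto_rpow_atTop (by positivity)).eventually_ge_atTop _
  have hlim3 : ∀ᶠ x : ℝ in Filter.atTop, (2 : ℝ) ≤ x := Filter.eventually_ge_atTop _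
  obtain ⟨x₀, hx₀⟩ := Filter.eventually_atTop.mp (hlim1.and (hlim2.and hlim3))
  refine ⟨δ, hδ0, x₀, fun x hx e' f' hloc s => ?_⟩
  obtain ⟨h1, h2, h3⟩ := hx₀ x hx
  have hx1 : (1 : ℝ) ≤ x := by linarith
  have hx0 : (0 : ℝ) < x := by linarith
  set Y : ℕ := ⌊x ^ δ⌋₊ with hY
  have hYle : (Y : ℝ) ≤ x ^ δ := Nat.floor_le (by positivity)
  have hYmax : max Y₀ Y₁ ≤ Y := Nat.le_floor h1
  have hYC : (Y : ℝ) ^ C ≤ x ^ (e / 2) := by
    calc (Y : ℝ) ^ C ≤ (x ^ δ) ^ C := pow_le_pow_left₀ (by positivity) hYle C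
      _ = x ^ (δ * C) := by rw [← Real.rpow_natCast, ← Real.rpow_mul hx0.le]
      _ ≤ x ^ (e / 2) := Real.rpow_le_rpow_of_exponent_le hx1 hδC
  have hZ : (Y : ℤ) ^ C ≤ ⌊x⌋ := by
    rw [Int.le_floor]
    push_cast
    calc (Y : ℝ) ^ C ≤ x ^ (e / 2) := hYC
      _ ≤ x ^ (1 : ℝ) := Real.rpow_le_rpow_of_exponent_le hx1 (by linarith)
      _ = x := Real.rpow_one x
  obtain ⟨p, hp, hp1, hp2, hp3⟩ := hY₁ Y ((le_max_right _ _).trans hYmax)
  have hm := hmain F hFadd ⟨s, e', f'⟩ hloc Y ⌊x⌋ ((le_max_left _ _).trans hYmax) hZ ⟨p, hp, hp1, hp2, hp3, hFp p hp⟩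
  set A : Set ℤ := {n : ℤ | 0 < n ∧ n ≤ ⌊x⌋ ∧ (∀ i, Rough Y (a i * n + b i)) ∧
    (∀ k, Rough Y (e' k * n + f' k)) ∧ ∑ i ∈ S, F (a i * n + b i) ≠ s} with hA
  set T : Set ℕ := {n : ℕ | 0 < n ∧ (n : ℝ) ≤ x ∧
    (∀ i, 0 < a i * n + b i ∧ ∀ p : ℕ, p.Prime → (p : ℤ) ∣ a i * n + b i → x ^ δ < p) ∧
    (∀ k, ∀ p : ℕ, p.Prime → (p : ℤ) ∣ e' k * n + f' k → x ^ δ < p) ∧
    ((∑ i ∈ S, ArithmeticFunction.cardFactors (a i * n + b i).natAbs : ℕ) : ZMod md) ≠ s} with hT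
  have hTfin : T.Finite := by
    apply (Set.finite_Iic ⌊x⌋₊).subset
    intro n hn
    exact Nat.le_floor hn.2.1
  have hsub : A ⊆ ((fun n : ℕ => (n : ℤ)) '' T) ∪ ((Finset.Icc (1 : ℤ) K : Finset ℤ) : Set ℤ) := by
    intro n hn
    obtain ⟨hn1, hn2, hn3, hn5, hn4⟩ := hn
    by_cases hnK : n ≤ K
    · right
      simp only [Finset.coe_Icc, Set.mem_Icc]
      exact ⟨hn1, hnK⟩
    · left
      push Not at hnK
      have hnn : ((n.toNat : ℕ) : ℤ) = n := Int.toNat_of_nonneg hn1.le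
      refine ⟨n.toNat, ?_, hnn⟩
      refine ⟨by omega, ?_, ?_, ?_, ?_⟩
      · have : ((n.toNat : ℕ) : ℝ) = (n : ℝ) := by exact_mod_cast congrArg (Int.cast : ℤ → ℝ) hnn
        rw [this]
        exact (Int.cast_le.mpr hn2).trans (Int.floor_le x)
      · intro i
        rw [hnn]
        refine ⟨?_, ?_⟩
        · have := hbK i
          have h5 := (abs_le.mp this).1
          nlinarith [ha i]
        · intro p hp hpd
          have h6 : ¬ p ≤ Y := fun h => hn3 i p hp h hpd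
          push Not at h6
          calc x ^ δ < (⌊x ^ δ⌋₊ : ℝ) + 1 := Nat.lt_floor_add_one _
            _ ≤ p := by exact_mod_cast h6
      · intro k p hp hpd
        rw [hnn] at hpd
        have h6 : ¬ p ≤ Y := fun h => hn5 k p hp h hpd
        push Not at h6
        calc x ^ δ < (⌊x ^ δ⌋₊ : ℝ) + 1 := Nat.lt_floor_add_one _
          _ ≤ p := by exact_mod_cast h6
      · intro h7
        apply hn4
        rw [← h7, hnn]
        push_cast
        rfl
  have hcard : A.ncard ≤ T.ncard + K := by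
    calc A.ncard ≤ (((fun n : ℕ => (n : ℤ)) '' T) ∪ ((Finset.Icc (1 : ℤ) K : Finset ℤ) : Set ℤ)).ncard :=
          Set.ncard_le_ncard hsub ((hTfin.image _).union (Finset.finite_toSet _))
      _ ≤ ((fun n : ℕ => (n : ℤ)) '' T).ncard + ((Finset.Icc (1 : ℤ) K : Finset ℤ) : Set ℤ).ncard :=
          Set.ncard_union_le _ _
      _ ≤ T.ncard + K := by
          have e1 : ((fun n : ℕ => (n : ℤ)) '' T).ncard ≤ T.ncard := Set.ncard_image_le hTfin
          have e2 : ((Finset.Icc (1 : ℤ) K : Finset ℤ) : Set ℤ).ncard = K := by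
            rw [Set.ncard_coe_finset, Int.card_Icc]; simp
          omega
  -- real arithmetic
  have hm' : (⌊x⌋ : ℝ) < (Y : ℝ) ^ C * (A.ncard : ℝ) := by exact_mod_cast hm
  have hx' : x - 1 < (⌊x⌋ : ℝ) := Int.sub_one_lt_floor x
  have hcard' : (A.ncard : ℝ) ≤ (T.ncard : ℝ) + K := by exact_mod_cast hcard
  have h4 : x - 1 < x ^ (e / 2) * ((T.ncard : ℝ) + K) := by
    calc x - 1 < (Y : ℝ) ^ C * (A.ncard : ℝ) := hx'.trans hm'
      _ ≤ x ^ (e / 2) * ((T.ncard : ℝ) + K) :=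
        mul_le_mul hYC hcard' (by positivity) (by positivity)
  have hxx : x = x ^ (1 - e) * x ^ (e / 2) * x ^ (e / 2) := by
    rw [← Real.rpow_add hx0, ← Real.rpow_add hx0]
    have : 1 - e + e / 2 + e / 2 = 1 := by ring
    rw [this, Real.rpow_one]
  have hxe : (1 : ℝ) ≤ x ^ (1 - e) := Real.one_le_rpow hx1 (by linarith)
  have hfin : x ^ (1 - e) ≤ (T.ncard : ℝ) := by
    set u := x ^ (e / 2) with hu
    set v := x ^ (1 - e) with hv
    have hu0 : 0 < u := by positivity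
    have h5 : x / 2 < u * ((T.ncard : ℝ) + K) := by linarith
    have h6 : v * u / 2 < (T.ncard : ℝ) + K := by
      have : u * (v * u / 2) < u * ((T.ncard : ℝ) + K) := by
        calc u * (v * u / 2) = x / 2 := by rw [hxx]; ring
          _ < _ := h5
      exact lt_of_mul_lt_mul_left this hu0.le
    have h7 : v * (K + 1) ≤ v * u / 2 := by
      have : v * (2 * ((K : ℝ) + 1)) ≤ v * u := mul_le_mul_of_nonneg_left h2 (by linarith)
      linarith
    have h8 : (K : ℝ) ≤ v * K := by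
      have : (0 : ℝ) ≤ K := by positivity
      nlinarith
    nlinarith
  calc x ^ (1 - ε) ≤ x ^ (1 - e) := Real.rpow_le_rpow_of_exponent_le hx1 (by linarith)
    _ ≤ _ := hfin

end Pool.Agent.H661R4.RM
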