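import Pool.Agent.H661R4.RM.Defs

set_option autoImplicit false

open Finset
open Pool.Agent.H661R3.OP (Rough SV CR PAP)

namespace Pool.Agent.H661R4.RM

theorem t_FN (hSV : SV) (hCR : CR) (h3 : L3) : FIN := by
  intro ι _ md rb D
  obtain ⟨Cs, hCs⟩ := hSV (2 * (D.B + 1))
  obtain ⟨C, Y₁, hL⟩ := h3 ι md rb D (Cs + 8)
  refine ⟨C, Y₁ + 4 + D.K + D.W, ?_⟩
  intro F hF c Y Z hY hFew p hp hYp hpY hdiv
  have hY1 : Y₁ ≤ Y := by omega
  have hY4 : 4 ≤ Y := by omega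
  have hYK : D.K ≤ Y := by omega
  have hYW : D.W ≤ Y := by omega
  have hp0 : (0 : ℤ) < p := by exact_mod_cast hp.pos
  have hW0 : (0 : ℤ) < D.W := by exact_mod_cast D.hW
  have hM0 : (0 : ℤ) < D.M := by exact_mod_cast D.hM
  obtain ⟨e, he⟩ := hdiv
  push_cast at he
  have hp1 : (0 : ℤ) ≤ (p : ℤ) - 1 := by
    have := hp.one_lt
    omega
  have he0 : 0 ≤ e := by
    by_contra h
    push Not at h
    have : (D.M : ℤ) * D.W * e < 0 := mul_neg_of_pos_of_neg (by positivity) h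
    omega
  -- p and W are coprime
  have hpW : IsCoprime (p : ℤ) (D.W : ℤ) := by
    rw [Nat.isCoprime_iff_coprime, hp.coprime_iff_not_dvd, D.hpW p hp]
    omega
  obtain ⟨x, hx⟩ := hCR Bool (fun b => if b then (p : ℤ) else (D.W : ℤ))
    (fun b => if b then 1 else 0) (by
      intro i j hij
      cases i <;> cases j <;> simp at hij ⊢
      · exact (Nat.isCoprime_iff_coprime.1 hpW).symm
      · exact Nat.isCoprime_iff_coprime.1 hpW)
  have hx1 : (p : ℤ) ∣ x - 1 := by simpa using hx true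
  have hx2 : (D.W : ℤ) ∣ x := by simpa using hx false
  set s : ℤ := x % ((p : ℤ) * D.W) with hs
  have hpWpos : (0 : ℤ) < (p : ℤ) * D.W := by positivity
  have hs0 : 0 ≤ s := Int.emod_nonneg _ hpWpos.ne'
  have hs1 : s < (p : ℤ) * D.W := Int.emod_lt_of_pos _ hpWpos
  have hsx : (p : ℤ) * D.W ∣ x - s := by
    rw [hs]
    exact Int.dvd_self_sub_emod
  have hsp : (p : ℤ) ∣ s - 1 := by
    have h1 : (p : ℤ) ∣ x - s := (dvd_mul_right _ _).trans hsx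
    have h2 : s - 1 = (x - 1) - (x - s) := by ring
    rw [h2]; exact dvd_sub hx1 h1
  have hsW : (D.W : ℤ) ∣ s := by
    have h1 : (D.W : ℤ) ∣ x - s := (dvd_mul_left _ _).trans hsx
    have h2 : s = x - (x - s) := by ring
    rw [h2]; exact dvd_sub hx2 h1
  set h : ℤ := D.W * e * p with hh
  have hh0 : 0 ≤ h := by positivity
  have hMh : (D.M : ℤ) * h = ((p : ℤ) - 1) * p := by rw [he, hh]; ring
  have hhW : (D.W : ℤ) ∣ h := ⟨e * p, by rw [hh]; ring⟩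
  have hhp : (p : ℤ) ∣ h := ⟨D.W * e, by rw [hh]; ring⟩
  have hpYz : (p : ℤ) ≤ (Y : ℤ) ^ 2 := by exact_mod_cast hpY
  have hYz : (4 : ℤ) ≤ Y := by exact_mod_cast hY4
  have hhle : h ≤ (Y : ℤ) ^ 4 := by
    have h1 : h ≤ D.M * h := by nlinarith
    have h2 : ((p : ℤ) - 1) * p ≤ (Y : ℤ) ^ 2 * (Y : ℤ) ^ 2 := by
      apply mul_le_mul _ hpYz hp0.le (by positivity)
      linarith
    calc h ≤ D.M * h := h1
      _ = ((p : ℤ) - 1) * p := hMh
      _ ≤ (Y : ℤ) ^ 2 * (Y : ℤ) ^ 2 := h2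
      _ = (Y : ℤ) ^ 4 := by ring
  -- small primes do not divide p
  have hlp : ∀ l : ℕ, l.Prime → l ≤ Y → ¬ (l : ℤ) ∣ (p : ℤ) := by
    intro l hl hlY hd
    rw [Int.natCast_dvd_natCast, Nat.prime_dvd_prime_iff_eq hl hp] at hd
    omega
  -- the sieve
  have hsv := hCs (Fin (D.B + 1) × Bool) (by simp [mul_comm])
    (fun i => ((i.1 : ℕ) : ℤ) * p * D.W)
    (fun i => if i.2 then (p : ℤ) ^ 2 + ((i.1 : ℕ) : ℤ) * (s - h) else (p : ℤ) + ((i.1 : ℕ) : ℤ) * s)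
    Y (by omega)
    (by
      rintro ⟨m, b⟩ l hl hlY hd
      have hlz : Prime (l : ℤ) := Nat.prime_iff_prime_int.1 hl
      have hd2 : (l : ℤ) ∣ ((m : ℕ) : ℤ) ∨ (l : ℤ) ∣ (D.W : ℤ) := by
        rcases hlz.dvd_or_dvd hd with h1 | h1
        · rcases hlz.dvd_or_dvd h1 with h2 | h2
          · exact Or.inl h2
          · exact absurd h2 (hlp l hl hlY)
        · exact Or.inr h1
      cases b
      · intro h5
        simp only [Bool.false_eq_true, if_false] at h5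
        have h6 : (l : ℤ) ∣ ((m : ℕ) : ℤ) * s := by
          rcases hd2 with h7 | h7
          · exact Dvd.dvd.mul_right h7 _
          · exact Dvd.dvd.mul_left (h7.trans hsW) _
        exact hlp l hl hlY ((dvd_add_left h6).1 h5)
      · intro h5
        simp only [if_true] at h5
        have h6 : (l : ℤ) ∣ ((m : ℕ) : ℤ) * (s - h) := by
          rcases hd2 with h7 | h7
          · exact Dvd.dvd.mul_right h7 _
          · exact Dvd.dvd.mul_left (h7.trans (dvd_sub hsW hhW)) _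
        have h8 : (l : ℤ) ∣ (p : ℤ) ^ 2 := (dvd_add_left h6).1 h5
        exact hlp l hl hlY (hlz.dvd_of_dvd_pow h8))
    (by
      intro i l hl hlB
      have h1 : l ≤ D.K := by
        have h2 := D.hK
        have h3 : 4 * (D.B + 1) ≤ 16 * (Fintype.card ι + 1) ^ 2 * (D.B + 1) ^ 2 := by
          have h4 : 1 ≤ (Fintype.card ι + 1) ^ 2 := Nat.one_le_pow _ _ (by omega)
          have h5 : (D.B + 1) ≤ (D.B + 1) ^ 2 := Nat.le_self_pow two_ne_zero _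
          nlinarith
        omega
      have h2 : (l : ℤ) ∣ (D.W : ℤ) := Int.natCast_dvd_natCast.2 ((D.hpW l hl).2 h1)
      exact Dvd.dvd.mul_left h2 _)
    ((Y : ℤ) ^ 4 + 1) (Y ^ Cs) le_rfl
  have hYpow : 0 < Y ^ Cs := Nat.pow_pos (by omega)
  have hcard : 0 < {t : ℤ | (Y : ℤ) ^ 4 + 1 ≤ t ∧ t < (Y : ℤ) ^ 4 + 1 + (Y ^ Cs : ℕ) ∧
      ∀ i : Fin (D.B + 1) × Bool, Rough Y (((i.1 : ℕ) : ℤ) * p * D.W * t +
        (if i.2 then (p : ℤ) ^ 2 + ((i.1 : ℕ) : ℤ) * (s - h)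
          else (p : ℤ) + ((i.1 : ℕ) : ℤ) * s))}.ncard := by
    by_contra h0
    push Not at h0
    have h1 := Nat.le_zero.1 h0
    rw [h1, mul_zero] at hsv
    omega
  obtain ⟨t, ht0, ht1, htr⟩ := Set.nonempty_of_ncard_ne_zero hcard.ne'
  set δ : ℤ := s + t * p * D.W with hδ
  have ht : 0 < t := by
    have : (0 : ℤ) ≤ (Y : ℤ) ^ 4 := by positivity
    linarith
  have htpW : t ≤ t * p * D.W := by
    have h1 : (1 : ℤ) ≤ p * D.W := hpWpos
    nlinarith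
  have hδ0 : 0 < δ := by linarith
  have hδ'0 : 0 < δ - h := by linarith
  have hδle : δ ≤ (Y : ℤ) ^ (Cs + 8) := by
    have hWY : (D.W : ℤ) ≤ Y := by exact_mod_cast hYW
    have h1 : (p : ℤ) * D.W ≤ (Y : ℤ) ^ 3 := by
      calc (p : ℤ) * D.W ≤ (Y : ℤ) ^ 2 * Y := by
            apply mul_le_mul hpYz hWY hW0.le (by positivity)
        _ = (Y : ℤ) ^ 3 := by ring
    have h2 : δ ≤ (1 + t) * ((p : ℤ) * D.W) := by
      rw [hδ]
      nlinarith
    have h3 : 1 + t ≤ (Y : ℤ) ^ (Cs + 5) := by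
      push_cast at ht1
      have a1 : (1 : ℤ) ≤ (Y : ℤ) ^ Cs := one_le_pow₀ (by linarith)
      have a2 : (Y : ℤ) ^ 4 * 1 ≤ (Y : ℤ) ^ 4 * (Y : ℤ) ^ Cs :=
        mul_le_mul_of_nonneg_left a1 (by positivity)
      have a3 : (4 : ℤ) ≤ (Y : ℤ) ^ 4 := by
        calc (4 : ℤ) ≤ Y := hYz
          _ ≤ (Y : ℤ) ^ 4 := le_self_pow₀ (by linarith) (by norm_num)
      have a4 : (Y : ℤ) ^ (Cs + 5) = (Y : ℤ) * ((Y : ℤ) ^ 4 * (Y : ℤ) ^ Cs) := by ring
      have a5 : 4 * ((Y : ℤ) ^ 4 * (Y : ℤ) ^ Cs) ≤ (Y : ℤ) * ((Y : ℤ) ^ 4 * (Y : ℤ) ^ Cs) :=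
        mul_le_mul_of_nonneg_right hYz (by positivity)
      have a6 : 4 * (Y : ℤ) ^ Cs ≤ (Y : ℤ) ^ 4 * (Y : ℤ) ^ Cs :=
        mul_le_mul_of_nonneg_right a3 (by positivity)
      rw [a4]
      linarith
    calc δ ≤ (1 + t) * ((p : ℤ) * D.W) := h2
      _ ≤ (Y : ℤ) ^ (Cs + 5) * (Y : ℤ) ^ 3 := by
          apply mul_le_mul h3 h1 hpWpos.le (by positivity)
      _ = (Y : ℤ) ^ (Cs + 8) := by ring
  have hY1z : (1 : ℤ) ≤ Y := by linarith
  have hpC : (p : ℤ) ≤ (Y : ℤ) ^ (Cs + 8) :=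
    hpYz.trans (pow_le_pow_right₀ hY1z (by omega))
  have hp2C : (p : ℤ) ^ 2 ≤ (Y : ℤ) ^ (Cs + 8) := by
    calc (p : ℤ) ^ 2 ≤ ((Y : ℤ) ^ 2) ^ 2 := pow_le_pow_left₀ hp0.le hpYz 2
      _ = (Y : ℤ) ^ 4 := by ring
      _ ≤ (Y : ℤ) ^ (Cs + 8) := pow_le_pow_right₀ hY1z (by omega)
  have hWδ : (D.W : ℤ) ∣ δ := dvd_add hsW (Dvd.intro_left _ rfl)
  have hWp : (D.W : ℤ) ∣ (p : ℤ) - 1 := ⟨D.M * e, by rw [he]; ring⟩
  have hpδ : (p : ℤ) ∣ δ - 1 := by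
    have h1 : δ - 1 = (s - 1) + p * (t * D.W) := by rw [hδ]; ring
    rw [h1]
    exact dvd_add hsp (dvd_mul_right _ _)
  have hcop : IsCoprime (p : ℤ) δ := by
    obtain ⟨y, hy⟩ := hpδ
    exact ⟨-y, 1, by linear_combination hy⟩
  have hcop' : IsCoprime ((p : ℤ) ^ 2) (δ - h) := by
    apply IsCoprime.pow_left
    have h1 : (p : ℤ) ∣ δ - h - 1 := by
      have h2 : δ - h - 1 = (δ - 1) - h := by ring
      rw [h2]; exact dvd_sub hpδ hhp
    obtain ⟨y, hy⟩ := h1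
    exact ⟨-y, 1, by linear_combination hy⟩
  have hr1 : ∀ m : ℤ, 0 ≤ m → m ≤ D.B → Rough Y ((p : ℤ) + m * δ) := by
    intro m hm0 hmB
    obtain ⟨m', rfl⟩ := Int.eq_ofNat_of_zero_le hm0
    have hm' : m' < D.B + 1 := by
      have : m' ≤ D.B := by exact_mod_cast hmB
      omega
    have h1 := htr (⟨m', hm'⟩, false)
    simp only [Bool.false_eq_true, if_false] at h1
    have h2 : (p : ℤ) + (m' : ℤ) * δ = (m' : ℤ) * p * D.W * t + (p + (m' : ℤ) * s) := by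
      rw [hδ]; ring
    rw [h2]; exact h1
  have hr2 : ∀ m : ℤ, 0 ≤ m → m ≤ D.B → Rough Y ((p : ℤ) ^ 2 + m * (δ - h)) := by
    intro m hm0 hmB
    obtain ⟨m', rfl⟩ := Int.eq_ofNat_of_zero_le hm0
    have hm' : m' < D.B + 1 := by
      have : m' ≤ D.B := by exact_mod_cast hmB
      omega
    have h1 := htr (⟨m', hm'⟩, true)
    simp only [if_true] at h1
    have h2 : (p : ℤ) ^ 2 + (m' : ℤ) * (δ - h) =
        (m' : ℤ) * p * D.W * t + (p ^ 2 + (m' : ℤ) * (s - h)) := by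
      rw [hδ]; ring
    rw [h2]; exact h1
  have k1 := hL F hF c Y Z hY1 hFew p δ hp0 hpC hδ0 hδle hWδ hWp hcop hr1
  have hWp2 : (D.W : ℤ) ∣ (p : ℤ) ^ 2 - 1 := by
    have h1 : (p : ℤ) ^ 2 - 1 = (p - 1) * (p + 1) := by ring
    rw [h1]; exact Dvd.dvd.mul_right hWp _
  have k2 := hL F hF c Y Z hY1 hFew (p ^ 2) (δ - h) (by positivity) hp2C hδ'0 (by linarith)
    (dvd_sub hWδ hhW) hWp2 hcop' hr2
  have k3 : (p : ℤ) ^ 2 + D.M * (δ - h) = p + D.M * δ := by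
    linear_combination -hMh
  rw [k3, ← k1, pow_two, hF p p hp0.ne' hp0.ne'] at k2
  exact (add_eq_left.1 k2)

end Pool.Agent.H661R4.RM
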