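import Pool.Agent.H661R4.RM.Defs

set_option autoImplicit false

open Finset
open Pool.Agent.H661R3.OP (Rough SV CR PAP)

namespace Pool.Agent.H661R4.RM

theorem GA_side {ι : Type} [Fintype ι] {md rb : ℕ} (D : Sys ι md rb) (F : ℤ → ZMod md) (hF : AddM F)
    (c : Ctx md rb) (Y : ℕ) (Z : ℤ) (X P T w : ℤ) (hY : 2 ≤ Y)
    (hA : ∀ j ∈ D.S, 0 < D.L j P w)
    (hQ : ∀ i j, Rough Y (D.a i * D.a j * X + D.a i * D.b j * T + D.b i * D.a j * P
      + D.b i * D.b j * w))
    (hB : ∀ j ∈ D.S, ∀ k, Rough Y (c.e k * D.L j X T + c.f k * D.L j P w))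
    (hd : ∀ j ∈ D.S, D.L j P w ∣ D.L j X T)
    (hp : ∀ j ∈ D.S, 0 < D.L j X T ∧ D.L j X T ≤ Z)
    (hE : ∀ j ∈ D.S, D.L j X T / D.L j P w ∉ D.Exc F c Y Z) :
    ∑ j ∈ D.S, ∑ i ∈ D.S, F (D.a i * D.a j * X + D.a i * D.b j * T + D.b i * D.a j * P
      + D.b i * D.b j * w) = (D.S.card : ZMod md) * D.R F P w + (D.S.card : ZMod md) * c.c := by
  have rough_ne : ∀ m : ℤ, Rough Y m → m ≠ 0 := by
    intro m hm h0
    exact hm 2 Nat.prime_two hY (by rw [h0]; exact dvd_zero _)
  have rough_dvd : ∀ m k : ℤ, Rough Y m → k ∣ m → Rough Y k := by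
    intro m k hm hk p hp hpY hpk
    exact hm p hp hpY (hpk.trans hk)
  have key : ∀ j ∈ D.S, ∑ i ∈ D.S, F (D.a i * D.a j * X + D.a i * D.b j * T + D.b i * D.a j * P
      + D.b i * D.b j * w) = (D.S.card : ZMod md) * F (D.L j P w) + c.c := by
    intro j hj
    set A := D.L j P w with hAdef
    obtain ⟨n, hn⟩ := hd j hj
    have hA0 : 0 < A := hA j hj
    have hdiv : D.L j X T / A = n := by
      rw [hn]; exact Int.mul_ediv_cancel_left _ hA0.ne'
    have e1 : ∀ i, D.a i * D.a j * X + D.a i * D.b j * T + D.b i * D.a j * P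
      + D.b i * D.b j * w = A * D.L i n 1 := by
      intro i
      have h1 : A * D.L i n 1 = D.a i * (A * n) + D.b i * A := by
        unfold Sys.L; ring
      rw [h1, ← hn, hAdef]
      unfold Sys.L
      ring
    have hr : ∀ i, Rough Y (D.L i n 1) := by
      intro i
      have h1 := hQ i j
      rw [e1 i] at h1
      exact rough_dvd _ _ h1 (Dvd.intro_left _ rfl)
    have hn0 : 0 < n := by
      have h1 := (hp j hj).1
      rw [hn] at h1
      exact (mul_pos_iff_of_pos_left hA0).mp h1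
    have hnZ : n ≤ Z := by
      have h1 := (hp j hj).2
      rw [hn] at h1
      nlinarith
    have hb : ∀ k, Rough Y (c.e k * n + c.f k) := by
      intro k
      have h1 := hB j hj k
      have h2 : c.e k * D.L j X T + c.f k * D.L j P w = A * (c.e k * n + c.f k) := by
        rw [hn, ← hAdef]; ring
      rw [h2] at h1
      exact rough_dvd _ _ h1 (Dvd.intro_left _ rfl)
    have hR : D.R F n 1 = c.c := by
      by_contra hne
      apply hE j hj
      rw [← hAdef, hdiv]
      exact ⟨hn0, hnZ, hr, hb, hne⟩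
    have e2 : ∀ i ∈ D.S, F (D.a i * D.a j * X + D.a i * D.b j * T + D.b i * D.a j * P
      + D.b i * D.b j * w) = F A + F (D.L i n 1) := by
      intro i _
      rw [e1 i]
      exact hF _ _ hA0.ne' (rough_ne _ (hr i))
    rw [Finset.sum_congr rfl e2, Finset.sum_add_distrib, Finset.sum_const, nsmul_eq_mul]
    rw [← hR]
    rfl
  rw [Finset.sum_congr rfl key, Finset.sum_add_distrib, Finset.sum_const, nsmul_eq_mul,
    ← Finset.mul_sum]
  rfl

theorem t_GA : GA := by
  intro ι _ md rb D F hF c Y Z X U V w hY hAB hQ hB hd hp hE1 hE2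
  have s1 := GA_side D F hF c Y Z X U V w hY (fun j hj => (hAB j hj).1) hQ
    (fun j hj k => (hB j hj k).1)
    (fun j hj => (hd j hj).1) (fun j hj => ⟨(hp j hj).1, (hp j hj).2.1⟩) hE1
  have s2 := GA_side D F hF c Y Z X V U w hY (fun j hj => (hAB j hj).2) (fun i j => by
      have := hQ j i
      have e : D.a i * D.a j * X + D.a i * D.b j * U + D.b i * D.a j * V + D.b i * D.b j * w =
        D.a j * D.a i * X + D.a j * D.b i * V + D.b j * D.a i * U + D.b j * D.b i * w := by ring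
      rw [e]; exact this)
    (fun j hj k => (hB j hj k).2)
    (fun j hj => (hd j hj).2) (fun j hj => ⟨(hp j hj).2.2.1, (hp j hj).2.2.2⟩) hE2
  have hcard : IsUnit (D.S.card : ZMod md) := (ZMod.isUnit_iff_coprime _ _).2 D.hS
  have e : ∑ j ∈ D.S, ∑ i ∈ D.S, F (D.a i * D.a j * X + D.a i * D.b j * V + D.b i * D.a j * U
      + D.b i * D.b j * w) = ∑ j ∈ D.S, ∑ i ∈ D.S, F (D.a i * D.a j * X + D.a i * D.b j * U +
        D.b i * D.a j * V + D.b i * D.b j * w) := by
    rw [Finset.sum_comm]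
    apply Finset.sum_congr rfl
    intro j _
    apply Finset.sum_congr rfl
    intro i _
    congr 1
    ring
  rw [s1, s2] at e
  exact hcard.mul_left_cancel (add_right_cancel e)

end Pool.Agent.H661R4.RM
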