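import Pool.Agent.H661R4.RM.Defs

/-! Task GB (helper741, after the file OP/GB.lean by helper828): existence of the grid point `X`,
with bystander forms. -/

set_option autoImplicit false

open Finset

namespace Pool.Agent.H661R4.RM

open Pool.Agent.H661R3.OP (Rough SV CR PAP)

namespace GB

theorem coprime_of_primes {x y : ℤ} (h : ∀ p : ℕ, p.Prime → (p : ℤ) ∣ x → (p : ℤ) ∣ y → False) :
    IsCoprime x y := by
  rw [Int.isCoprime_iff_gcd_eq_one]
  by_contra hne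
  obtain ⟨p, hp, hpd⟩ := Nat.exists_prime_and_dvd hne
  have h1 : (p : ℤ) ∣ ((Int.gcd x y : ℕ) : ℤ) := Int.natCast_dvd_natCast.mpr hpd
  exact h p hp (h1.trans (Int.gcd_dvd_left ..)) (h1.trans (Int.gcd_dvd_right ..))

theorem prime_of_coprime {x y : ℤ} (h : IsCoprime x y) {p : ℕ} (hp : p.Prime) (h1 : (p : ℤ) ∣ x)
    (h2 : (p : ℤ) ∣ y) : False := by
  have h3 := h.isUnit_of_dvd' h1 h2
  rw [Int.isUnit_iff_natAbs_eq, Int.natAbs_natCast] at h3
  exact hp.one_lt.ne' h3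

theorem cast_prime {p : ℕ} (hp : p.Prime) : Prime (p : ℤ) := Nat.prime_iff_prime_int.mp hp

/-- rough numbers are coprime to numbers whose primes are small -/
theorem rough_prod {ι : Type} {Y : ℕ} (s : Finset ι) (f : ι → ℤ) (h : ∀ i ∈ s, Rough Y (f i)) :
    Rough Y (∏ i ∈ s, f i) := by
  intro p hp hpY hd
  obtain ⟨i, hi, hid⟩ := (cast_prime hp).exists_mem_finset_dvd hd
  exact h i hi p hp hpY hid

theorem crt {ι : Type} [Fintype ι] {md rb : ℕ} (D : Sys ι md rb) (hCR : CR) {Y : ℕ} (hKY : D.K ≤ Y) {U V w : ℤ}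
    (hU : ∀ j ∈ D.S, 0 < D.L j U w ∧ Rough Y (D.L j U w))
    (hV : ∀ j ∈ D.S, 0 < D.L j V w ∧ Rough Y (D.L j V w))
    (hUU : ∀ i ∈ D.S, ∀ j ∈ D.S, i ≠ j → IsCoprime (D.L i U w) (D.L j U w))
    (hVV : ∀ i ∈ D.S, ∀ j ∈ D.S, i ≠ j → IsCoprime (D.L i V w) (D.L j V w))
    (hUV : ∀ i ∈ D.S, ∀ j ∈ D.S, IsCoprime (D.L i U w) (D.L j V w)) :
    ∃ X : ℤ, (D.W : ℤ) ∣ X - D.n₀ ^ 2 * w ∧
      ∀ j ∈ D.S, D.L j U w ∣ D.L j X V ∧ D.L j V w ∣ D.L j X U := by
  classical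
  have hinv : ∀ (x : ℤ) (j : ι), Rough Y x → ∀ y : ℤ, ∃ r : ℤ, x ∣ D.a j * r + D.b j * y := by
    intro x j hx y
    have hc : IsCoprime (D.a j) x := by
      apply coprime_of_primes
      intro p hp h1 h2
      refine hx p hp ?_ h2
      have h3 : (p : ℤ) ≤ D.a j := Int.le_of_dvd (D.ha j) h1
      have h4 := D.hKa j
      have h5 : (p : ℤ) ≤ (D.K : ℤ) := h3.trans h4
      have h6 : p ≤ D.K := by exact_mod_cast h5
      exact h6.trans hKY
    obtain ⟨u, v, huv⟩ := hc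
    exact ⟨-u * D.b j * y, ⟨v * D.b j * y, by linear_combination (-(D.b j * y)) * huv⟩⟩
  have hWr : ∀ x : ℤ, Rough Y x → IsCoprime (D.W : ℤ) x := by
    intro x hx
    apply coprime_of_primes
    intro p hp h1 h2
    refine hx p hp ?_ h2
    exact ((D.hpW p hp).mp (Int.natCast_dvd_natCast.mp h1)).trans hKY
  choose r1 hr1 using fun j : D.S => hinv (D.L j U w) j (hU j j.2).2 V
  choose r2 hr2 using fun j : D.S => hinv (D.L j V w) j (hV j j.2).2 U
  obtain ⟨X, hX⟩ := hCR (Option (D.S ⊕ D.S))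
    (fun x => match x with
      | none => (D.W : ℤ)
      | some (Sum.inl j) => D.L j U w
      | some (Sum.inr j) => D.L j V w)
    (fun x => match x with
      | none => D.n₀ ^ 2 * w
      | some (Sum.inl j) => r1 j
      | some (Sum.inr j) => r2 j) (by
    intro x y hxy
    match x, y with
    | none, none => exact absurd rfl hxy
    | none, some (Sum.inl j) => exact hWr _ (hU j j.2).2
    | none, some (Sum.inr j) => exact hWr _ (hV j j.2).2
    | some (Sum.inl j), none => exact (hWr _ (hU j j.2).2).symm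
    | some (Sum.inr j), none => exact (hWr _ (hV j j.2).2).symm
    | some (Sum.inl i), some (Sum.inl j) =>
      exact hUU i i.2 j j.2 (fun h => hxy (by rw [Subtype.ext h]))
    | some (Sum.inr i), some (Sum.inr j) =>
      exact hVV i i.2 j j.2 (fun h => hxy (by rw [Subtype.ext h]))
    | some (Sum.inl i), some (Sum.inr j) => exact hUV i i.2 j j.2
    | some (Sum.inr i), some (Sum.inl j) => exact (hUV j j.2 i i.2).symm)
  refine ⟨X, hX none, fun j hj => ⟨?_, ?_⟩⟩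
  · have h1 : D.L j U w ∣ X - r1 ⟨j, hj⟩ := hX (some (Sum.inl ⟨j, hj⟩))
    have h2 : D.L j U w ∣ D.a j * r1 ⟨j, hj⟩ + D.b j * V := hr1 ⟨j, hj⟩
    have h3 : D.L j X V = D.a j * (X - r1 ⟨j, hj⟩) + (D.a j * r1 ⟨j, hj⟩ + D.b j * V) := by
      unfold Sys.L; ring
    rw [h3]
    exact dvd_add (Dvd.dvd.mul_left h1 _) h2
  · have h1 : D.L j V w ∣ X - r2 ⟨j, hj⟩ := hX (some (Sum.inr ⟨j, hj⟩))
    have h2 : D.L j V w ∣ D.a j * r2 ⟨j, hj⟩ + D.b j * U := hr2 ⟨j, hj⟩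
    have h3 : D.L j X U = D.a j * (X - r2 ⟨j, hj⟩) + (D.a j * r2 ⟨j, hj⟩ + D.b j * U) := by
      unfold Sys.L; ring
    rw [h3]
    exact dvd_add (Dvd.dvd.mul_left h1 _) h2

theorem L_le {ι : Type} [Fintype ι] {md rb : ℕ} (D : Sys ι md rb) (j : ι) {x y M : ℤ} (hx : |x| ≤ M) (hy : |y| ≤ M) :
    |D.b j * x| ≤ D.K * M ∧ D.L j x y ≤ 2 * D.K * M := by
  have hM : 0 ≤ M := (abs_nonneg _).trans hx
  have ha : |D.a j| ≤ D.K := by rw [abs_of_pos (D.ha j)]; exact D.hKa j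
  have h1 : |D.b j * x| ≤ D.K * M := by
    rw [abs_mul]
    exact mul_le_mul (D.hKb j) hx (abs_nonneg _) (by positivity)
  have h2 : |D.b j * y| ≤ D.K * M := by
    rw [abs_mul]
    exact mul_le_mul (D.hKb j) hy (abs_nonneg _) (by positivity)
  have h3 : |D.a j * x| ≤ D.K * M := by
    rw [abs_mul]
    exact mul_le_mul ha hx (abs_nonneg _) (by positivity)
  refine ⟨h1, ?_⟩
  unfold Sys.L
  have h4 := le_abs_self (D.a j * x)
  have h5 := le_abs_self (D.b j * y)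
  linarith

/-- the sieve input: a prime at most `Y` does not divide both coefficients -/
theorem unit {ι : Type} [Fintype ι] {md rb : ℕ} (D : Sys ι md rb) {Y : ℕ} {U V w X G : ℤ}
    (hw : IsCoprime w (D.W : ℤ)) (hUW : (D.W : ℤ) ∣ U - D.n₀ * w) (hVW : (D.W : ℤ) ∣ V - D.n₀ * w)
    (hX : (D.W : ℤ) ∣ X - D.n₀ ^ 2 * w) (hG : Rough Y G) (i j : ι) (p : ℕ) (hp : p.Prime)
    (hpY : p ≤ Y) (hd : (p : ℤ) ∣ D.a i * D.a j * (G * D.W)) :
    ¬ (p : ℤ) ∣ D.a i * D.a j * X + D.a i * D.b j * V + D.b i * D.a j * U + D.b i * D.b j * w := by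
  have hpr := cast_prime hp
  have hle : ∀ i, (p : ℤ) ∣ D.a i → p ∣ D.W := by
    intro i h
    rw [D.hpW p hp]
    have h3 : (p : ℤ) ≤ D.a i := Int.le_of_dvd (D.ha i) h
    have h5 : (p : ℤ) ≤ (D.K : ℤ) := h3.trans (D.hKa i)
    exact_mod_cast h5
  have hpW : p ∣ D.W := by
    rcases hpr.dvd_or_dvd hd with h | h
    · rcases hpr.dvd_or_dvd h with h | h
      · exact hle i h
      · exact hle j h
    · rcases hpr.dvd_or_dvd h with h | h
      · exact absurd h (hG p hp hpY)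
      · exact Int.natCast_dvd_natCast.mp h
  have hpW' : (p : ℤ) ∣ (D.W : ℤ) := Int.natCast_dvd_natCast.mpr hpW
  intro h
  have h1 : (p : ℤ) ∣ w * ((D.a i * D.n₀ + D.b i) * (D.a j * D.n₀ + D.b j)) := by
    have e1 := (hpW'.trans hUW).mul_left (D.b i * D.a j)
    have e2 := (hpW'.trans hVW).mul_left (D.a i * D.b j)
    have e3 := (hpW'.trans hX).mul_left (D.a i * D.a j)
    have e4 := ((h.sub e1).sub e2).sub e3
    have e5 : w * ((D.a i * D.n₀ + D.b i) * (D.a j * D.n₀ + D.b j)) =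
        D.a i * D.a j * X + D.a i * D.b j * V + D.b i * D.a j * U + D.b i * D.b j * w -
        D.b i * D.a j * (U - D.n₀ * w) - D.a i * D.b j * (V - D.n₀ * w) -
        D.a i * D.a j * (X - D.n₀ ^ 2 * w) := by ring
    rw [e5]; exact e4
  rcases hpr.dvd_or_dvd h1 with h2 | h2
  · exact prime_of_coprime hw hp h2 hpW'
  · rcases hpr.dvd_or_dvd h2 with h3 | h3
    · exact D.hn₀ i p hp hpW h3
    · exact D.hn₀ j p hp hpW h3

/-- the sieve input for the bystanders -/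
theorem unit2 {ι : Type} [Fintype ι] {md rb : ℕ} (D : Sys ι md rb) {c : Ctx md rb}
    (hA : D.Adm c) {Y : ℕ} {U V w X G : ℤ}
    (hw : IsCoprime w (D.W : ℤ)) (hUW : (D.W : ℤ) ∣ U - D.n₀ * w) (hVW : (D.W : ℤ) ∣ V - D.n₀ * w)
    (hX : (D.W : ℤ) ∣ X - D.n₀ ^ 2 * w) (hG : Rough Y G) (l : Fin rb) (j : ι)
    (hr : Rough Y (D.L j U w)) (p : ℕ) (hp : p.Prime)
    (hpY : p ≤ Y) (hd : (p : ℤ) ∣ c.e l * (D.a j * (G * D.W))) :
    ¬ (p : ℤ) ∣ c.e l * (D.a j * X + D.b j * V) + c.f l * D.L j U w := by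
  have hpr := cast_prime hp
  intro h
  rcases hpr.dvd_or_dvd hd with h0 | h0
  · have h1 : (p : ℤ) ∣ c.f l * D.L j U w := by
      have h2 := dvd_sub h (h0.mul_right (D.a j * X + D.b j * V))
      have h3 : c.e l * (D.a j * X + D.b j * V) + c.f l * D.L j U w
        - c.e l * (D.a j * X + D.b j * V) = c.f l * D.L j U w := by ring
      rwa [h3] at h2
    rcases hpr.dvd_or_dvd h1 with h2 | h2
    · exact (hA l p hp).1 h0 h2
    · exact hr p hp hpY h2
  · have hpW : p ∣ D.W := by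
      rcases hpr.dvd_or_dvd h0 with h | h
      · rw [D.hpW p hp]
        have h3 : (p : ℤ) ≤ D.a j := Int.le_of_dvd (D.ha j) h
        have h5 : (p : ℤ) ≤ (D.K : ℤ) := h3.trans (D.hKa j)
        exact_mod_cast h5
      · rcases hpr.dvd_or_dvd h with h | h
        · exact absurd h (hG p hp hpY)
        · exact Int.natCast_dvd_natCast.mp h
    have hpW' : (p : ℤ) ∣ (D.W : ℤ) := Int.natCast_dvd_natCast.mpr hpW
    have h1 : (p : ℤ) ∣ w * ((D.a j * D.n₀ + D.b j) * (c.e l * D.n₀ + c.f l)) := by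
      have e1 := (hpW'.trans hUW).mul_left (c.f l * D.a j)
      have e2 := (hpW'.trans hVW).mul_left (c.e l * D.b j)
      have e3 := (hpW'.trans hX).mul_left (c.e l * D.a j)
      have e4 := dvd_sub (dvd_sub (dvd_sub h e1) e2) e3
      have e5 : w * ((D.a j * D.n₀ + D.b j) * (c.e l * D.n₀ + c.f l)) =
          c.e l * (D.a j * X + D.b j * V) + c.f l * D.L j U w -
          c.f l * D.a j * (U - D.n₀ * w) - c.e l * D.b j * (V - D.n₀ * w) -
          c.e l * D.a j * (X - D.n₀ ^ 2 * w) := by unfold Sys.L; ring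
      rw [e5]; exact e4
    rcases hpr.dvd_or_dvd h1 with h2 | h2
    · exact prime_of_coprime hw hp h2 hpW'
    · rcases hpr.dvd_or_dvd h2 with h3 | h3
      · exact D.hn₀ j p hp hpW h3
      · exact (hA l p hp).2 hpW h3

theorem size {a K H X₀ t T Z M b x : ℤ} (ha : 0 < a) (haK : a ≤ K) (hK : 0 < K) (hH : 0 < H)
    (hX : 0 ≤ X₀) (hXH : X₀ < H) (hM : 0 ≤ M) (hb : |b * x| ≤ K * M) (ht : K * M + 1 ≤ t)
    (ht2 : t < K * M + 1 + T) (hT : T * (4 * K * H) ≤ Z) (hZ : 4 * K * H * (K * M + 1) ≤ Z) :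
    0 < a * (X₀ + t * H) + b * x ∧ a * (X₀ + t * H) + b * x ≤ Z := by
  have hKM : 0 ≤ K * M := by positivity
  have h2 := abs_le.mp hb
  have ht0 : 0 < t := by linarith
  have hH1 : 1 ≤ H := hH
  have hX1 : t ≤ X₀ + t * H := by
    have := mul_le_mul_of_nonneg_left hH1 ht0.le
    linarith
  have hX2 : X₀ + t * H ≤ H * (K * M + 1 + T) := by
    have h3 : t + 1 ≤ K * M + 1 + T := ht2
    have := mul_le_mul_of_nonneg_left h3 hH.le
    linarith
  have hXp : 0 ≤ X₀ + t * H := by linarith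
  have ha1 : 1 ≤ a := ha
  have h4 := mul_le_mul_of_nonneg_right ha1 hXp
  constructor
  · linarith
  · have h3 : a * (X₀ + t * H) ≤ K * (H * (K * M + 1 + T)) := mul_le_mul haK hX2 hXp hK.le
    have hK1 : 1 ≤ K := hK
    have h5 : 1 * 1 ≤ K * H := mul_le_mul hK1 hH1 zero_le_one hK.le
    have h6 : 1 * (K * M + 1) ≤ K * H * (K * M + 1) :=
      mul_le_mul_of_nonneg_right (by linarith) (by linarith)
    linarith

end GB

theorem t_GB (hSV : SV) (hCR : CR) (hGA : GA) : GRID := by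
  classical
  intro ι _ md rb D C₁
  set k := Fintype.card ι with hk
  obtain ⟨Cs, hCs⟩ := hSV ((k + rb) ^ 2)
  refine ⟨2 * k * (C₁ + 1) + Cs + C₁ + 2, 16 * (k + 1) * D.K * D.W + 2 * D.K + 2, ?_⟩
  intro F hF c Y Z hY hFew U V w hUb hVb hwb hwW hUW hVW hU hV hUU hVV hUV
  set C := 2 * k * (C₁ + 1) + Cs + C₁ + 2 with hC
  -- sizes
  have hK1 : 1 ≤ D.K := by
    have := D.hK
    have h1 : 1 ≤ 16 * (Fintype.card ι + 1) ^ 2 * (D.B + 1) ^ 2 := Nat.succ_le_of_lt (by positivity)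
    omega
  have hkK : 2 * (k + rb) ^ 2 ≤ D.K := D.hKr
  have hYa : 16 * (k + 1) * D.K * D.W ≤ Y := by omega
  have hYb : 2 * D.K ≤ Y := by omega
  have hY2 : 2 ≤ Y := by omega
  have hKY : D.K ≤ Y := by omega
  have hW1 : 1 ≤ D.W := D.hW
  have hYpos : (0 : ℤ) < (Y : ℤ) := by exact_mod_cast (by omega : 0 < Y)
  have hY1 : (1 : ℤ) ≤ (Y : ℤ) := by exact_mod_cast (by omega : 1 ≤ Y)
  have hpow : ∀ m n : ℕ, m ≤ n → (Y : ℤ) ^ m ≤ (Y : ℤ) ^ n := fun m n h =>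
    pow_le_pow_right₀ hY1 h
  -- the modulus
  set G1 := ∏ j ∈ D.S, D.L j U w with hG1
  set G2 := ∏ j ∈ D.S, D.L j V w with hG2
  have hG1p : 0 < G1 := Finset.prod_pos (fun j hj => (hU j hj).1)
  have hG2p : 0 < G2 := Finset.prod_pos (fun j hj => (hV j hj).1)
  have hG1r : Rough Y G1 := GB.rough_prod _ _ (fun j hj => (hU j hj).2)
  have hG2r : Rough Y G2 := GB.rough_prod _ _ (fun j hj => (hV j hj).2)
  have hGr : Rough Y (G1 * G2) := by
    intro p hp hpY hd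
    rcases (GB.cast_prime hp).dvd_or_dvd hd with h | h
    · exact hG1r p hp hpY h
    · exact hG2r p hp hpY h
  have hSk : D.S.card ≤ k := Finset.card_le_univ _
  have hGb : ∀ x : ℤ, |x| ≤ (Y : ℤ) ^ C₁ → (∀ j ∈ D.S, 0 < D.L j x w) →
      ∏ j ∈ D.S, D.L j x w ≤ (Y : ℤ) ^ (k * (C₁ + 1)) := by
    intro x hx hpos
    calc ∏ j ∈ D.S, D.L j x w ≤ ∏ j ∈ D.S, (Y : ℤ) ^ (C₁ + 1) := by
          apply Finset.prod_le_prod (fun j hj => (hpos j hj).le)
          intro j _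
          have h1 := (GB.L_le D j hx hwb).2
          calc D.L j x w ≤ 2 * D.K * (Y : ℤ) ^ C₁ := h1
            _ ≤ Y * (Y : ℤ) ^ C₁ := by
              apply mul_le_mul_of_nonneg_right _ (by positivity)
              exact_mod_cast hYb
            _ = (Y : ℤ) ^ (C₁ + 1) := by ring
      _ = (Y : ℤ) ^ ((C₁ + 1) * D.S.card) := by rw [Finset.prod_const, ← pow_mul]
      _ ≤ (Y : ℤ) ^ (k * (C₁ + 1)) := by
        apply hpow
        rw [mul_comm k]
        exact Nat.mul_le_mul_left _ hSk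
  have hG1b := hGb U hUb (fun j hj => (hU j hj).1)
  have hG2b := hGb V hVb (fun j hj => (hV j hj).1)
  set G := G1 * G2 with hG
  have hGp : 0 < G := mul_pos hG1p hG2p
  have hGbd : G ≤ (Y : ℤ) ^ (2 * k * (C₁ + 1)) := by
    calc G ≤ (Y : ℤ) ^ (k * (C₁ + 1)) * (Y : ℤ) ^ (k * (C₁ + 1)) :=
          mul_le_mul hG1b hG2b hG2p.le (by positivity)
      _ = (Y : ℤ) ^ (2 * k * (C₁ + 1)) := by rw [← pow_add]; congr 1; ring
  set H := G * D.W with hH
  have hWp : (0 : ℤ) < (D.W : ℤ) := by exact_mod_cast D.hW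
  have hHp : 0 < H := mul_pos hGp hWp
  have hKp : (0 : ℤ) < (D.K : ℤ) := by exact_mod_cast hK1
  -- the two numerical conditions
  have hα : 16 * ((k : ℤ) + 1) * D.K * H * (Y : ℤ) ^ Cs ≤ (Y : ℤ) ^ C := by
    have h1 : 16 * ((k : ℤ) + 1) * D.K * D.W ≤ (Y : ℤ) := by exact_mod_cast hYa
    calc 16 * ((k : ℤ) + 1) * D.K * H * (Y : ℤ) ^ Cs
        = (16 * ((k : ℤ) + 1) * D.K * D.W) * G * (Y : ℤ) ^ Cs := by rw [hH]; ring
      _ ≤ (Y : ℤ) * (Y : ℤ) ^ (2 * k * (C₁ + 1)) * (Y : ℤ) ^ Cs := by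
          apply mul_le_mul_of_nonneg_right _ (by positivity)
          exact mul_le_mul h1 hGbd hGp.le hYpos.le
      _ = (Y : ℤ) ^ (2 * k * (C₁ + 1) + Cs + 1) := by ring
      _ ≤ (Y : ℤ) ^ C := hpow _ _ (by omega)
  have hβ : 4 * D.K * H * (D.K * (Y : ℤ) ^ C₁ + 1) ≤ (Y : ℤ) ^ C := by
    have h1 : 4 * (D.K : ℤ) * D.W ≤ (Y : ℤ) := by
      have h2 : 4 * D.K * D.W ≤ Y := by
        refine le_trans ?_ hYa
        have h3 : 4 ≤ 16 * (k + 1) := by omega
        exact Nat.mul_le_mul_right _ (Nat.mul_le_mul_right _ h3)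
      exact_mod_cast h2
    have h2 : D.K * (Y : ℤ) ^ C₁ + 1 ≤ (Y : ℤ) ^ (C₁ + 1) := by
      have h3 : (1 : ℤ) ≤ (Y : ℤ) ^ C₁ := one_le_pow₀ hY1
      have h4 : 2 * (D.K : ℤ) ≤ (Y : ℤ) := by exact_mod_cast hYb
      have h6 : (1 : ℤ) ≤ D.K := hKp
      have h5 : (1 : ℤ) * 1 ≤ D.K * (Y : ℤ) ^ C₁ := mul_le_mul h6 h3 zero_le_one hKp.le
      calc D.K * (Y : ℤ) ^ C₁ + 1 ≤ (2 * D.K) * (Y : ℤ) ^ C₁ := by linarith
        _ ≤ (Y : ℤ) * (Y : ℤ) ^ C₁ := mul_le_mul_of_nonneg_right h4 (by positivity)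
        _ = (Y : ℤ) ^ (C₁ + 1) := by ring
    calc 4 * D.K * H * (D.K * (Y : ℤ) ^ C₁ + 1)
        = (4 * (D.K : ℤ) * D.W) * G * (D.K * (Y : ℤ) ^ C₁ + 1) := by rw [hH]; ring
      _ ≤ (Y : ℤ) * (Y : ℤ) ^ (2 * k * (C₁ + 1)) * (Y : ℤ) ^ (C₁ + 1) := by
          apply mul_le_mul _ h2 (by positivity) (by positivity)
          exact mul_le_mul h1 hGbd hGp.le hYpos.le
      _ = (Y : ℤ) ^ (2 * k * (C₁ + 1) + C₁ + 2) := by ring
      _ ≤ (Y : ℤ) ^ C := hpow _ _ (by omega)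
  obtain ⟨hAdm, hZ1, hZ2⟩ := hFew
  -- the residue class
  obtain ⟨X₁, hX₁W, hX₁⟩ := GB.crt D hCR hKY hU hV hUU hVV hUV
  set X₀ := X₁ % H with hX₀
  have hX₀0 : 0 ≤ X₀ := Int.emod_nonneg _ hHp.ne'
  have hX₀H : X₀ < H := Int.emod_lt_of_pos _ hHp
  have hX₀e : X₀ = X₁ - H * (X₁ / H) := by
    have := Int.emod_add_mul_ediv X₁ H
    linarith
  have hWH : (D.W : ℤ) ∣ H := Dvd.intro_left _ rfl
  have hX₀W : (D.W : ℤ) ∣ X₀ - D.n₀ ^ 2 * w := by
    have h1 : X₀ - D.n₀ ^ 2 * w = (X₁ - D.n₀ ^ 2 * w) - H * (X₁ / H) := by rw [hX₀e]; ring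
    rw [h1]
    exact dvd_sub hX₁W (hWH.mul_right _)
  have hUH : ∀ j ∈ D.S, D.L j U w ∣ H := by
    intro j hj
    exact ((Finset.dvd_prod_of_mem _ hj).mul_right G2).mul_right _
  have hVH : ∀ j ∈ D.S, D.L j V w ∣ H := by
    intro j hj
    exact ((Finset.dvd_prod_of_mem _ hj).mul_left G1).mul_right _
  set T := (Z / (4 * D.K * H)).toNat with hT
  set T₀ : ℤ := D.K * (Y : ℤ) ^ C₁ + 1 with hT₀
  have hKH : 0 < 4 * (D.K : ℤ) * H := by positivity
  have hTz : (T : ℤ) = Z / (4 * D.K * H) := by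
    rw [hT, Int.toNat_of_nonneg]
    apply Int.ediv_nonneg _ hKH.le
    exact le_trans (by positivity) hZ1
  have hTl : (T : ℤ) * (4 * D.K * H) ≤ Z := by rw [hTz]; exact Int.ediv_mul_le _ hKH.ne'
  have hTu : Z < ((T : ℤ) + 1) * (4 * D.K * H) := by
    rw [hTz]; exact Int.lt_ediv_add_one_mul_self _ hKH
  have hTs : Y ^ Cs ≤ T := by
    have h1 : ((Y ^ Cs : ℕ) : ℤ) ≤ (T : ℤ) := by
      rw [hTz]
      apply Int.le_ediv_of_mul_le hKH
      push_cast
      refine le_trans ?_ (hα.trans hZ1)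
      have h2 : (0 : ℤ) ≤ (k : ℤ) := by positivity
      have h3 : 0 ≤ D.K * H * (Y : ℤ) ^ Cs := by positivity
      have h4 : 0 ≤ (k : ℤ) * (D.K * H * (Y : ℤ) ^ Cs) := mul_nonneg h2 h3
      linarith
    exact_mod_cast h1
  have hT1 : 1 ≤ (T : ℤ) := by
    have h1 : 1 ≤ Y ^ Cs := Nat.one_le_pow _ _ (by omega)
    exact_mod_cast h1.trans hTs
  -- the sieve
  have hSk : D.S.card ≤ k := Finset.card_le_univ _
  have hKc : Fintype.card ((ι × ι) ⊕ ((Fin rb × {j // j ∈ D.S}) ⊕ (Fin rb × {j // j ∈ D.S}))) ≤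
      (k + rb) ^ 2 := by
    rw [Fintype.card_sum, Fintype.card_sum, Fintype.card_prod, Fintype.card_prod,
      Fintype.card_coe, Fintype.card_fin]
    have h1 : rb * D.S.card ≤ rb * k := Nat.mul_le_mul_left _ hSk
    nlinarith
  set cf : (ι × ι) ⊕ ((Fin rb × {j // j ∈ D.S}) ⊕ (Fin rb × {j // j ∈ D.S})) → ℤ := fun x =>
    match x with
    | Sum.inl p => D.a p.1 * D.a p.2 * H
    | Sum.inr (Sum.inl p) => c.e p.1 * (D.a p.2 * H)
    | Sum.inr (Sum.inr p) => c.e p.1 * (D.a p.2 * H) with hcf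
  set df : (ι × ι) ⊕ ((Fin rb × {j // j ∈ D.S}) ⊕ (Fin rb × {j // j ∈ D.S})) → ℤ := fun x =>
    match x with
    | Sum.inl p => D.a p.1 * D.a p.2 * X₀ + D.a p.1 * D.b p.2 * V + D.b p.1 * D.a p.2 * U +
      D.b p.1 * D.b p.2 * w
    | Sum.inr (Sum.inl p) => c.e p.1 * (D.a p.2 * X₀ + D.b p.2 * V) + c.f p.1 * D.L p.2 U w
    | Sum.inr (Sum.inr p) => c.e p.1 * (D.a p.2 * X₀ + D.b p.2 * U) + c.f p.1 * D.L p.2 V w
    with hdf
  have hsv := hCs ((ι × ι) ⊕ ((Fin rb × {j // j ∈ D.S}) ⊕ (Fin rb × {j // j ∈ D.S}))) hKc cf df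
    Y hY2
    (fun i p hp hpY hd => by
      match i, hd with
      | Sum.inl i, hd => exact GB.unit D hwW hUW hVW hX₀W hGr i.1 i.2 p hp hpY hd
      | Sum.inr (Sum.inl i), hd =>
        exact GB.unit2 D hAdm hwW hUW hVW hX₀W hGr i.1 i.2.1 (hU i.2.1 i.2.2).2 p hp hpY hd
      | Sum.inr (Sum.inr i), hd =>
        exact GB.unit2 D hAdm hwW hVW hUW hX₀W hGr i.1 i.2.1 (hV i.2.1 i.2.2).2 p hp hpY hd)
    (fun i p hp hpk => by
      have h1 : p ∣ D.W := (D.hpW p hp).mpr (hpk.trans hkK)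
      have h2 : (p : ℤ) ∣ H := (Int.natCast_dvd_natCast.mpr h1).trans hWH
      match i with
      | Sum.inl i => exact h2.mul_left _
      | Sum.inr (Sum.inl i) => exact (h2.mul_left _).mul_left _
      | Sum.inr (Sum.inr i) => exact (h2.mul_left _).mul_left _) T₀ T hTs
  set Gd : Set ℤ := {t : ℤ | T₀ ≤ t ∧ t < T₀ + T ∧
    ∀ x : (ι × ι) ⊕ ((Fin rb × {j // j ∈ D.S}) ⊕ (Fin rb × {j // j ∈ D.S})),
      Rough Y (cf x * t + df x)} with hGd
  have hGdf : Gd.Finite := (Set.finite_Ico T₀ (T₀ + T)).subset (fun t ht => ⟨ht.1, ht.2.1⟩)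
  have hExf : (D.Exc F c Y Z).Finite := (Set.finite_Ioc 0 Z).subset (fun t ht => ⟨ht.1, ht.2.1⟩)
  set E := D.Exc F c Y Z with hE
  by_contra hne
  set XX : ℤ → ℤ := fun t => X₀ + t * H with hXX
  have hdvd1 : ∀ j ∈ D.S, ∀ t, D.L j U w ∣ D.L j (XX t) V := by
    intro j hj t
    have h1 : D.L j (XX t) V = D.L j X₁ V + H * (D.a j * (t - X₁ / H)) := by
      simp only [Sys.L, hXX]; rw [hX₀e]; ring
    rw [h1]
    exact dvd_add (hX₁ j hj).1 ((hUH j hj).mul_right _)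
  have hdvd2 : ∀ j ∈ D.S, ∀ t, D.L j V w ∣ D.L j (XX t) U := by
    intro j hj t
    have h1 : D.L j (XX t) U = D.L j X₁ U + H * (D.a j * (t - X₁ / H)) := by
      simp only [Sys.L, hXX]; rw [hX₀e]; ring
    rw [h1]
    exact dvd_add (hX₁ j hj).2 ((hVH j hj).mul_right _)
  have hsize : ∀ t : ℤ, T₀ ≤ t → t < T₀ + T → ∀ (j : ι) (x : ℤ), |x| ≤ (Y : ℤ) ^ C₁ →
      0 < D.L j (XX t) x ∧ D.L j (XX t) x ≤ Z := by
    intro t ht1 ht2 j x hx
    have h1 := (GB.L_le D j hx hwb).1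
    exact GB.size (D.ha j) (D.hKa j) hKp hHp hX₀0 hX₀H (by positivity) h1 ht1 ht2 hTl
      (hβ.trans hZ1)
  have hbad : ∀ t ∈ Gd, ∃ j ∈ D.S, D.L j (XX t) V / D.L j U w ∈ E ∨
      D.L j (XX t) U / D.L j V w ∈ E := by
    intro t ht
    by_contra hcon
    push Not at hcon
    apply hne
    apply hGA ι md rb D F hF c Y Z (XX t) U V w hY2 (fun j hj => ⟨(hU j hj).1, (hV j hj).1⟩)
    · intro i j
      have h1 : Rough Y (D.a i * D.a j * H * t + (D.a i * D.a j * X₀ + D.a i * D.b j * V +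
          D.b i * D.a j * U + D.b i * D.b j * w)) := ht.2.2 (Sum.inl (i, j))
      have h2 : D.a i * D.a j * XX t + D.a i * D.b j * V + D.b i * D.a j * U + D.b i * D.b j * w =
        D.a i * D.a j * H * t + (D.a i * D.a j * X₀ + D.a i * D.b j * V +
          D.b i * D.a j * U + D.b i * D.b j * w) := by simp only [hXX]; ring
      rw [h2]; exact h1
    · intro j hj l
      have h1 : Rough Y (c.e l * (D.a j * H) * t +
          (c.e l * (D.a j * X₀ + D.b j * V) + c.f l * D.L j U w)) :=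
        ht.2.2 (Sum.inr (Sum.inl (l, ⟨j, hj⟩)))
      have h2 : Rough Y (c.e l * (D.a j * H) * t +
          (c.e l * (D.a j * X₀ + D.b j * U) + c.f l * D.L j V w)) :=
        ht.2.2 (Sum.inr (Sum.inr (l, ⟨j, hj⟩)))
      have e1 : c.e l * D.L j (XX t) V + c.f l * D.L j U w = c.e l * (D.a j * H) * t +
          (c.e l * (D.a j * X₀ + D.b j * V) + c.f l * D.L j U w) := by
        simp only [Sys.L, hXX]; ring
      have e2 : c.e l * D.L j (XX t) U + c.f l * D.L j V w = c.e l * (D.a j * H) * t +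
          (c.e l * (D.a j * X₀ + D.b j * U) + c.f l * D.L j V w) := by
        simp only [Sys.L, hXX]; ring
      rw [e1, e2]
      exact ⟨h1, h2⟩
    · exact fun j hj => ⟨hdvd1 j hj t, hdvd2 j hj t⟩
    · intro j _
      have h1 := hsize t ht.1 ht.2.1 j V hVb
      have h2 := hsize t ht.1 ht.2.1 j U hUb
      exact ⟨h1.1, h1.2, h2.1, h2.2⟩
    · exact fun j hj => (hcon j hj).1
    · exact fun j hj => (hcon j hj).2
  -- counting
  have hinj : ∀ j ∈ D.S, ∀ (x y : ℤ), 0 < y → (∀ t, y ∣ D.L j (XX t) x) →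
      ∀ t t', D.L j (XX t) x / y = D.L j (XX t') x / y → t = t' := by
    intro j _ x y hy hd t t' h
    have h1 := Int.ediv_mul_cancel (hd t)
    have h2 := Int.ediv_mul_cancel (hd t')
    rw [h, h2] at h1
    have h3 : D.a j * H * (t - t') = 0 := by
      have h4 : D.L j (XX t) x - D.L j (XX t') x = D.a j * H * (t - t') := by
        simp only [Sys.L, hXX]; ring
      rw [← h4, ← h1, sub_self]
    have h5 : D.a j * H ≠ 0 := mul_ne_zero (D.ha j).ne' hHp.ne'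
    exact sub_eq_zero.mp ((mul_eq_zero.mp h3).resolve_left h5)
  set Gf := hGdf.toFinset with hGf
  set Ef := hExf.toFinset with hEf
  have hcard : Gf.card ≤ D.S.card * (Ef.card + Ef.card) := by
    have hsub : Gf ⊆ D.S.biUnion (fun j =>
        (Gf.filter (fun t => D.L j (XX t) V / D.L j U w ∈ Ef)) ∪
        (Gf.filter (fun t => D.L j (XX t) U / D.L j V w ∈ Ef))) := by
      intro t ht
      obtain ⟨j, hj, h⟩ := hbad t (hGdf.mem_toFinset.mp ht)
      rw [Finset.mem_biUnion]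
      refine ⟨j, hj, ?_⟩
      rw [Finset.mem_union, Finset.mem_filter, Finset.mem_filter]
      rcases h with h | h
      · left; exact ⟨ht, hExf.mem_toFinset.mpr h⟩
      · right; exact ⟨ht, hExf.mem_toFinset.mpr h⟩
    refine (Finset.card_le_card hsub).trans ?_
    apply Finset.card_biUnion_le_card_mul
    intro j hj
    refine (Finset.card_union_le _ _).trans (Nat.add_le_add ?_ ?_)
    · apply Finset.card_le_card_of_injOn (fun t => D.L j (XX t) V / D.L j U w)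
      · intro t ht
        exact (Finset.mem_filter.mp ht).2
      · intro t _ t' _ h
        exact hinj j hj V _ (hU j hj).1 (fun t => hdvd1 j hj t) t t' h
    · apply Finset.card_le_card_of_injOn (fun t => D.L j (XX t) U / D.L j V w)
      · intro t ht
        exact (Finset.mem_filter.mp ht).2
      · intro t _ t' _ h
        exact hinj j hj U _ (hV j hj).1 (fun t => hdvd2 j hj t) t t' h
  have hGn : Gd.ncard = Gf.card := Set.ncard_eq_toFinset_card _ hGdf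
  have hEn : E.ncard = Ef.card := Set.ncard_eq_toFinset_card _ hExf
  have hfin : (T : ℤ) ≤ (Y : ℤ) ^ Cs * (k * (2 * (E.ncard : ℤ))) := by
    have h1 : T ≤ Y ^ Cs * (k * (2 * E.ncard)) := by
      refine hsv.trans (Nat.mul_le_mul_left _ ?_)
      show Gd.ncard ≤ _
      rw [hGn, hEn]
      refine hcard.trans ?_
      rw [two_mul]
      exact Nat.mul_le_mul_right _ hSk
    exact_mod_cast h1
  have hN0 : 0 ≤ (E.ncard : ℤ) := by positivity
  have hlast : Z < Z := by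
    calc Z < ((T : ℤ) + 1) * (4 * D.K * H) := hTu
      _ ≤ (2 * T) * (4 * D.K * H) := mul_le_mul_of_nonneg_right (by linarith) hKH.le
      _ ≤ (2 * ((Y : ℤ) ^ Cs * (k * (2 * (E.ncard : ℤ))))) * (4 * D.K * H) :=
          mul_le_mul_of_nonneg_right (by linarith) hKH.le
      _ = (E.ncard : ℤ) * (16 * (k : ℤ) * D.K * H * (Y : ℤ) ^ Cs) := by ring
      _ ≤ (E.ncard : ℤ) * (16 * ((k : ℤ) + 1) * D.K * H * (Y : ℤ) ^ Cs) := by
          apply mul_le_mul_of_nonneg_left _ hN0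
          have h3 : 0 ≤ D.K * H * (Y : ℤ) ^ Cs := by positivity
          linarith
      _ ≤ (E.ncard : ℤ) * (Y : ℤ) ^ C := mul_le_mul_of_nonneg_left hα hN0
      _ ≤ Z := hZ2
  exact lt_irrefl _ hlast

end Pool.Agent.H661R4.RM
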