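import Pool.Agent.H661R4.RM.Defs

set_option autoImplicit false

open Finset

/-! ITD: iterated differences modulo `md` (helper501, adapted from H661R3/OP/ITD.lean). -/

namespace Pool.Agent.H661R4.RM

open Pool.Agent.H661R3.OP (Rough SV CR PAP)

theorem ITD_dl_shift {md : ℕ} (l : List ℕ) : ∀ (φ : ℤ → ZMod md) (t m : ℤ),
    dl l (fun x => φ (x + t)) m = dl l φ (m + t) := by
  induction l with
  | nil => intro φ t m; rfl
  | cons s l ih =>
    intro φ t m
    have h := ih (fun x => φ (x + s) - φ x) t m
    show dl l (fun x => φ (x + s + t) - φ (x + t)) m = dl l (fun x => φ (x + s) - φ x) (m + t)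
    rw [← h]
    congr 1
    funext x
    congr 2
    ring

theorem ITD_tele {md : ℕ} (φ : ℤ → ZMod md) (M t : ℤ) (s : ℕ) :
    ∑ i ∈ range s, (φ (t + i * M + M) - φ (t + i * M)) = φ (t + s * M) - φ t := by
  induction s with
  | zero => simp
  | succ s ih =>
    rw [Finset.sum_range_succ, ih]
    have e : t + ((s + 1 : ℕ) : ℤ) * M = t + s * M + M := by push_cast; ring
    rw [e]
    ring

theorem t_ITD : ITD := by
  intro md hmd l
  induction l with
  | nil =>
    intro _
    refine ⟨1, 1, one_pos, fun φ h => ?_⟩
    have h0 : φ 0 = 0 := h 0 le_rfl (by norm_num)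
    have h1 : φ 1 = 0 := h 1 (by norm_num) (by norm_num)
    rw [h0]; push_cast; rw [h1]
  | cons s l ih =>
    intro hs
    obtain ⟨M, A, hM, hind⟩ := ih (fun x hx => hs x (List.mem_cons_of_mem _ hx))
    have hs0 : 0 < s := hs s List.mem_cons_self
    have hMZ : (0 : ℤ) < M := by exact_mod_cast hM
    have hsZ : (0 : ℤ) < s := by exact_mod_cast hs0
    have hmdZ : (0 : ℤ) < md := by exact_mod_cast hmd
    refine ⟨md * s * M, A + md * s * M, by positivity, fun φ h => ?_⟩
    have h1 : ∀ t : ℤ, 0 ≤ t → t ≤ md * s * M →
        φ (t + s) - φ t = φ (t + M + s) - φ (t + M) := by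
      intro t ht0 ht
      have h2 := hind (fun x => φ (x + t + s) - φ (x + t)) (by
        intro m hm0 hm
        have h3 := ITD_dl_shift l (fun x => φ (x + s) - φ x) t m
        have h4 : dl l (fun x => φ (x + t + s) - φ (x + t)) m =
          dl l (fun x => φ (x + s) - φ x) (m + t) := h3
        rw [h4]
        apply h (m + t) (by linarith)
        push_cast
        linarith)
      simp only [zero_add] at h2
      rw [h2, add_comm (M : ℤ) t]
    have h2 : ∀ t : ℤ, 0 ≤ t → t ≤ md * s * M →
        φ (t + M) - φ t = φ (t + s + M) - φ (t + s) := by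
      intro t ht0 ht
      have h3 := h1 t ht0 ht
      have e : t + (M : ℤ) + s = t + s + M := by ring
      rw [e] at h3
      linear_combination h3
    have h3 : ∀ k : ℕ, ∀ t : ℤ, 0 ≤ t → t + k * s ≤ md * s * M →
        φ (t + M) - φ t = φ (t + k * s + M) - φ (t + k * s) := by
      intro k
      induction k with
      | zero => intro t _ _; simp
      | succ k ihk =>
        intro t ht0 ht
        push_cast at ht
        rw [ihk t ht0 (by nlinarith)]
        have h4 := h2 (t + k * s) (by positivity) (by nlinarith)
        rw [h4]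
        have e : t + (k : ℤ) * s + s = t + ((k + 1 : ℕ) : ℤ) * s := by push_cast; ring
        rw [e]
    -- the blocks
    have h4 : ∀ j : ℕ, j < md → φ (((j + 1 : ℕ) : ℤ) * (s * M)) - φ ((j : ℤ) * (s * M)) =
        φ (s * M) - φ 0 := by
      intro j hj
      have hj' : (j : ℤ) + 1 ≤ md := by exact_mod_cast hj
      have t1 := ITD_tele φ M 0 s
      have t2 := ITD_tele φ M ((j : ℤ) * (s * M)) s
      have e3 : ∑ i ∈ range s, (φ (0 + i * M + M) - φ (0 + i * M)) =
          ∑ i ∈ range s, (φ ((j : ℤ) * (s * M) + i * M + M) - φ ((j : ℤ) * (s * M) + i * M)) := by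
        apply Finset.sum_congr rfl
        intro i hi
        have hi' : (i : ℤ) ≤ s := by
          have := Finset.mem_range.mp hi
          exact_mod_cast this.le
        have hk := h3 (j * M) (0 + i * M) (by positivity) (by
          push_cast
          have e5 : 0 + (i : ℤ) * M + j * M * s ≤ s * M + j * (M * s) := by
            have := mul_le_mul_of_nonneg_right hi' hMZ.le
            linarith
          have e6 : (s : ℤ) * M + j * (M * s) = (j + 1) * (s * M) := by ring
          have e7 : ((j : ℤ) + 1) * (s * M) ≤ md * (s * M) :=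
            mul_le_mul_of_nonneg_right hj' (by positivity)
          linarith [mul_assoc (md : ℤ) s M])
        rw [hk]
        have e : 0 + (i : ℤ) * M + ((j * M : ℕ) : ℤ) * s = (j : ℤ) * (s * M) + i * M := by
          push_cast
          ring
        rw [e]
      rw [t1, t2, zero_add] at e3
      have e8 : (j : ℤ) * (s * M) + s * M = ((j + 1 : ℕ) : ℤ) * (s * M) := by push_cast; ring
      rw [e8] at e3
      exact e3.symm
    have h5 : ∀ j : ℕ, j ≤ md → φ ((j : ℤ) * (s * M)) = φ 0 + j * (φ (s * M) - φ 0) := by
      intro j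
      induction j with
      | zero => intro _; simp
      | succ j ihj =>
        intro hj
        have e1 := h4 j (by omega)
        have e2 := ihj (by omega)
        push_cast at e1 e2 ⊢
        linear_combination e1 + e2
    have h6 := h5 md le_rfl
    rw [ZMod.natCast_self, zero_mul, add_zero] at h6
    have e9 : ((md * s * M : ℕ) : ℤ) = (md : ℤ) * (s * M) := by push_cast; ring
    rw [e9, h6]

end Pool.Agent.H661R4.RM
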