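import Pool.Agent.H661R4.RM.Defs

set_option autoImplicit false

open Finset
open Pool.Agent.H661R3.OP (Rough SV CR PAP)

namespace Pool.Agent.H661R4.RM

theorem LA_cop {x y : ℤ} (h : ∀ p : ℕ, p.Prime → (p : ℤ) ∣ x → (p : ℤ) ∣ y → False) :
    IsCoprime x y := by
  rw [Int.isCoprime_iff_gcd_eq_one]
  by_contra hne
  obtain ⟨p, hp, hpd⟩ := Nat.exists_prime_and_dvd hne
  have h1 : (p : ℤ) ∣ (Int.gcd x y : ℤ) := Int.natCast_dvd_natCast.2 hpd
  exact h p hp (h1.trans (Int.gcd_dvd_left _ _)) (h1.trans (Int.gcd_dvd_right _ _))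

theorem LA_ncop {x y : ℤ} (h : IsCoprime x y) {p : ℕ} (hp : p.Prime) (hx : (p : ℤ) ∣ x)
    (hy : (p : ℤ) ∣ y) : False := by
  have h1 : (p : ℤ) ∣ 1 := by
    obtain ⟨u, v, huv⟩ := h
    rw [← huv]
    exact dvd_add (Dvd.dvd.mul_left hx u) (Dvd.dvd.mul_left hy v)
  have h2 : IsUnit (p : ℤ) := isUnit_of_dvd_one h1
  exact (Nat.prime_iff_prime_int.1 hp).not_unit h2

theorem LA_crt2 {m n : ℤ} (h : IsCoprime m n) (r s : ℤ) : ∃ x : ℤ, m ∣ x - r ∧ n ∣ x - s := by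
  obtain ⟨u, v, huv⟩ := h
  refine ⟨r * v * n + s * u * m, ⟨u * (s - r), ?_⟩, ⟨v * (r - s), ?_⟩⟩
  · have : v * n = 1 - u * m := by linarith
    calc r * v * n + s * u * m - r = r * (v * n) + s * u * m - r := by ring
      _ = r * (1 - u * m) + s * u * m - r := by rw [this]
      _ = m * (u * (s - r)) := by ring
  · have : u * m = 1 - v * n := by linarith
    calc r * v * n + s * u * m - s = r * v * n + s * (u * m) - s := by ring
      _ = r * v * n + s * (1 - v * n) - s := by rw [this]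
      _ = n * (v * (r - s)) := by ring

theorem LA_ndvd {p : ℕ} {x : ℤ} (h0 : 0 < x) (h1 : x < p) : ¬ (p : ℤ) ∣ x := by
  intro h
  have := Int.le_of_dvd h0 h
  omega

section

variable {ι : Type} [Fintype ι] {md rb : ℕ} (D : Sys ι md rb)

/-- a prime at most `K` divides `W` -/
theorem LA_pW {p : ℕ} (hp : p.Prime) (h : p ≤ D.K) : (p : ℤ) ∣ (D.W : ℤ) :=
  Int.natCast_dvd_natCast.2 ((D.hpW p hp).2 h)

theorem LA_Wp {p : ℕ} (hp : p.Prime) (h : (p : ℤ) ∣ (D.W : ℤ)) : p ≤ D.K :=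
  (D.hpW p hp).1 (Int.natCast_dvd_natCast.1 h)

theorem LA_ap {p : ℕ} {i : ι} (h : (p : ℤ) ∣ D.a i) : p ≤ D.K := by
  have h1 := Int.le_of_dvd (D.ha i) h
  have h2 := D.hKa i
  omega

/-- basic facts on the product of the values -/
theorem LA_prod {Y : ℕ} (hY : D.K ≤ Y) {U w : ℤ} (hG : D.Good Y U w) :
    0 < ∏ j ∈ D.S, D.L j U w ∧ IsCoprime w (∏ j ∈ D.S, D.L j U w) ∧
    IsCoprime (∏ j ∈ D.S, D.L j U w) (D.W : ℤ) ∧
    ∀ p : ℕ, p.Prime → p ≤ Y → ¬ (p : ℤ) ∣ ∏ j ∈ D.S, D.L j U w := by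
  obtain ⟨h1, h2, h3, h4⟩ := hG
  have hr : ∀ p : ℕ, p.Prime → p ≤ Y → ¬ (p : ℤ) ∣ ∏ j ∈ D.S, D.L j U w := by
    intro p hp hpY hd
    obtain ⟨j, hj, hjd⟩ := (Prime.dvd_finset_prod_iff (Nat.prime_iff_prime_int.1 hp) _).1 hd
    exact (h4 j hj).2 p hp hpY hjd
  refine ⟨Finset.prod_pos fun j hj => (h4 j hj).1, ?_, ?_, hr⟩
  · apply LA_cop
    intro p hp hpw hd
    obtain ⟨j, hj, hjd⟩ := (Prime.dvd_finset_prod_iff (Nat.prime_iff_prime_int.1 hp) _).1 hd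
    have h5 : (p : ℤ) ∣ D.a j * U := by
      have h6 : D.a j * U = D.L j U w - D.b j * w := by unfold Sys.L; ring
      rw [h6]
      exact dvd_sub hjd (Dvd.dvd.mul_left hpw _)
    rcases (Nat.prime_iff_prime_int.1 hp).dvd_or_dvd h5 with h7 | h7
    · exact hr p hp ((LA_ap D h7).trans hY) hd
    · exact LA_ncop h3 hp h7 hpw
  · apply LA_cop
    intro p hp hd hpW
    exact hr p hp ((LA_Wp D hp hpW).trans hY) hd

/-- coprimality of the values -/
theorem LA_copr {Y : ℕ} (hY : D.K ≤ Y) {U w V : ℤ} (hG : D.Good Y U w)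
    (hV : (∏ j ∈ D.S, D.L j U w) ∣ V - D.q * w) :
    ∀ i ∈ D.S, ∀ j ∈ D.S, IsCoprime (D.L i U w) (D.L j V w) := by
  intro i hi j hj
  apply LA_cop
  intro p hp hpi hpj
  obtain ⟨_, _, h3, h4⟩ := hG
  have hpY : Y < p := by
    by_contra hcon
    exact (h4 i hi).2 p hp (by omega) hpi
  have hpV : (p : ℤ) ∣ V - D.q * w :=
    (hpi.trans (Finset.dvd_prod_of_mem (fun j => D.L j U w) hi)).trans hV
  have h5 : (p : ℤ) ∣ (D.a j * D.q + D.b j) * w := by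
    have h6 : (D.a j * D.q + D.b j) * w = D.L j V w - D.a j * (V - D.q * w) := by
      unfold Sys.L; ring
    rw [h6]
    exact dvd_sub hpj (Dvd.dvd.mul_left hpV _)
  rcases (Nat.prime_iff_prime_int.1 hp).dvd_or_dvd h5 with h7 | h7
  · obtain ⟨hq1, hq2⟩ := D.hq j
    exact LA_ndvd hq1 (by omega) h7
  · have h8 : (p : ℤ) ∣ D.a i * U := by
      have h6 : D.a i * U = D.L i U w - D.b i * w := by unfold Sys.L; ring
      rw [h6]
      exact dvd_sub hpi (Dvd.dvd.mul_left h7 _)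
    rcases (Nat.prime_iff_prime_int.1 hp).dvd_or_dvd h8 with h9 | h9
    · exact LA_ndvd (D.ha i) (by have := D.hKa i; omega) h9
    · exact LA_ncop h3 hp h9 h7

theorem LA_bound {Y : ℕ} {C₁ : ℕ} (hY : 2 * D.K ≤ Y) (hY1 : 1 ≤ Y) {U w : ℤ}
    (hU : |U| ≤ (Y : ℤ) ^ C₁) (hw : |w| ≤ (Y : ℤ) ^ C₁)
    (hpos : ∀ j ∈ D.S, 0 < D.L j U w) :
    ∏ j ∈ D.S, D.L j U w ≤ (Y : ℤ) ^ ((C₁ + 1) * D.S.card) := by
  have h1 : ∀ j ∈ D.S, D.L j U w ≤ (Y : ℤ) ^ (C₁ + 1) := by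
    intro j _
    have hYz : (2 * (D.K : ℤ)) ≤ Y := by exact_mod_cast hY
    have hYp : (0 : ℤ) ≤ (Y : ℤ) ^ C₁ := by positivity
    have ha := D.hKa j
    have hb := D.hKb j
    have ha0 := D.ha j
    have e1 : D.a j * U ≤ D.K * (Y : ℤ) ^ C₁ := by
      calc D.a j * U ≤ D.a j * |U| := mul_le_mul_of_nonneg_left (le_abs_self U) ha0.le
        _ ≤ D.K * (Y : ℤ) ^ C₁ := mul_le_mul ha hU (abs_nonneg _) (by positivity)
    have e2 : D.b j * w ≤ D.K * (Y : ℤ) ^ C₁ := by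
      calc D.b j * w ≤ |D.b j * w| := le_abs_self _
        _ = |D.b j| * |w| := abs_mul _ _
        _ ≤ D.K * (Y : ℤ) ^ C₁ := mul_le_mul hb hw (abs_nonneg _) (by positivity)
    calc D.L j U w = D.a j * U + D.b j * w := rfl
      _ ≤ 2 * D.K * (Y : ℤ) ^ C₁ := by linarith
      _ ≤ Y * (Y : ℤ) ^ C₁ := mul_le_mul_of_nonneg_right hYz hYp
      _ = (Y : ℤ) ^ (C₁ + 1) := by ring
  calc ∏ j ∈ D.S, D.L j U w ≤ ∏ _j ∈ D.S, (Y : ℤ) ^ (C₁ + 1) :=
        Finset.prod_le_prod (fun j hj => (hpos j hj).le) h1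
    _ = (Y : ℤ) ^ ((C₁ + 1) * D.S.card) := by rw [Finset.prod_const, pow_mul]

end

theorem t_LA (hSV : SV) (_hCR : CR) : LA := by
  intro ι _ md rb D C₁
  obtain ⟨Cs, hCs⟩ := hSV (Fintype.card ι)
  refine ⟨C₁ + (C₁ + 1) * D.S.card + (C₁ + 1) * D.S.card + 1 + (C₁ + 2 + Cs),
    2 * D.K + D.W + 3, ?_⟩
  intro Y hY U U' w hU hU' hw hG hG'
  have hKY : D.K ≤ Y := by omega
  obtain ⟨hA0, hwA, hAW, hAr⟩ := LA_prod D hKY hG
  obtain ⟨hA0', hwA', hAW', hAr'⟩ := LA_prod D hKY hG'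
  have hb := LA_bound D (C₁ := C₁) (by omega) (by omega) hU hw (fun j hj => (hG.2.2.2 j hj).1)
  have hb' := LA_bound D (C₁ := C₁) (by omega) (by omega) hU' hw (fun j hj => (hG'.2.2.2 j hj).1)
  set A := ∏ j ∈ D.S, D.L j U w with hA
  set A' := ∏ j ∈ D.S, D.L j U' w with hA'
  have hK2 : 16 ≤ D.K := by
    have := D.hK
    have h1 : 1 ≤ (Fintype.card ι + 1) ^ 2 * (D.B + 1) ^ 2 := Nat.one_le_iff_ne_zero.2 (by positivity)
    nlinarith
  have hKc : 2 * Fintype.card ι ≤ D.K := by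
    have := D.hK
    have h1 : Fintype.card ι ≤ (Fintype.card ι + 1) ^ 2 := by nlinarith
    have h2 : 1 ≤ (D.B + 1) ^ 2 := Nat.one_le_iff_ne_zero.2 (by positivity)
    have h3 : (Fintype.card ι + 1) ^ 2 * 1 ≤ (Fintype.card ι + 1) ^ 2 * (D.B + 1) ^ 2 :=
      Nat.mul_le_mul_left _ h2
    nlinarith
  have hw0 : w ≠ 0 := by
    rintro rfl
    have h1 := hG.1
    have h2 : ((2 : ℕ) : ℤ) ∣ (D.W : ℤ) := LA_pW D Nat.prime_two (by omega)
    exact LA_ncop h1 Nat.prime_two (dvd_zero _) h2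
  have hwabs : 1 ≤ |w| := Int.one_le_abs hw0
  have hWpos : (0 : ℤ) < D.W := by exact_mod_cast D.hW
  -- Chinese remainder
  obtain ⟨x₁, hx1, hx2⟩ := LA_crt2 (hwA.mul_right hwA') 1 (D.q * w)
  have hcop : IsCoprime (w * (A * A')) (D.W : ℤ) :=
    (hG.1).mul_left (hAW.mul_left hAW')
  obtain ⟨x, hx3, hx4⟩ := LA_crt2 hcop x₁ (D.n₀ * w)
  have hxw : w ∣ x - 1 := by
    have h1 : w ∣ x - x₁ := (Dvd.intro _ rfl).trans hx3
    have : x - 1 = (x - x₁) + (x₁ - 1) := by ring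
    rw [this]; exact dvd_add h1 hx1
  have hxA : A * A' ∣ x - D.q * w := by
    have h1 : A * A' ∣ x - x₁ := (Dvd.intro_left _ rfl).trans hx3
    have : x - D.q * w = (x - x₁) + (x₁ - D.q * w) := by ring
    rw [this]; exact dvd_add h1 hx2
  have hxW : (D.W : ℤ) ∣ x - D.n₀ * w := hx4
  set m : ℤ := |w| * (A * A') * D.W with hm
  have hmpos : 0 < m := by positivity
  have hmw : w ∣ m := by
    have h1 : w ∣ |w| := (dvd_abs w w).2 (dvd_refl w)
    exact (h1.mul_right (A * A')).mul_right _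
  have hmA : A * A' ∣ m := ((Dvd.intro_left _ rfl : A * A' ∣ |w| * (A * A'))).mul_right _
  have hmW : (D.W : ℤ) ∣ m := Dvd.intro_left _ rfl
  -- reduced representative
  set V₀ : ℤ := x % m with hV0
  have hV00 : 0 ≤ V₀ := Int.emod_nonneg _ hmpos.ne'
  have hV0m : V₀ < m := Int.emod_lt_of_pos _ hmpos
  have hxV : m ∣ x - V₀ := Int.dvd_self_sub_emod
  -- general congruences
  have gw : ∀ t : ℤ, w ∣ (V₀ + t * m) - 1 := by
    intro t
    have : (V₀ + t * m) - 1 = (x - 1) - (x - V₀) + t * m := by ring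
    rw [this]
    exact dvd_add (dvd_sub hxw (hmw.trans hxV)) (Dvd.dvd.mul_left hmw _)
  have gA : ∀ t : ℤ, A * A' ∣ (V₀ + t * m) - D.q * w := by
    intro t
    have : (V₀ + t * m) - D.q * w = (x - D.q * w) - (x - V₀) + t * m := by ring
    rw [this]
    exact dvd_add (dvd_sub hxA (hmA.trans hxV)) (Dvd.dvd.mul_left hmA _)
  have gW : ∀ t : ℤ, (D.W : ℤ) ∣ (V₀ + t * m) - D.n₀ * w := by
    intro t
    have : (V₀ + t * m) - D.n₀ * w = (x - D.n₀ * w) - (x - V₀) + t * m := by ring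
    rw [this]
    exact dvd_add (dvd_sub hxW (hmW.trans hxV)) (Dvd.dvd.mul_left hmW _)
  -- the sieve
  have hs := hCs ι le_rfl (fun i => D.a i * m) (fun i => D.a i * V₀ + D.b i * w) Y (by omega)
    (by
      intro i p hp hpY hpc hpd
      have hP := Nat.prime_iff_prime_int.1 hp
      have g1 := gw 0
      have g3 := gW 0
      simp only [zero_mul, add_zero] at g1 g3
      -- the case `p ∣ W`
      have caseW : ¬ (p : ℤ) ∣ (D.W : ℤ) := by
        intro hpW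
        have h1 : (p : ℤ) ∣ w * (D.a i * D.n₀ + D.b i) := by
          have : w * (D.a i * D.n₀ + D.b i) =
              (D.a i * V₀ + D.b i * w) - D.a i * (V₀ - D.n₀ * w) := by ring
          rw [this]
          exact dvd_sub hpd (Dvd.dvd.mul_left (hpW.trans g3) _)
        rcases hP.dvd_or_dvd h1 with h2 | h2
        · exact LA_ncop hG.1 hp h2 hpW
        · exact D.hn₀ i p hp (Int.natCast_dvd_natCast.1 hpW) h2
      have caseA : ¬ (p : ℤ) ∣ D.a i := fun h => caseW (LA_pW D hp (LA_ap D h))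
      rcases hP.dvd_or_dvd hpc with h1 | h1
      · exact caseA h1
      · rcases hP.dvd_or_dvd h1 with h2 | h2
        · rcases hP.dvd_or_dvd h2 with h3 | h3
          · have h3' : (p : ℤ) ∣ w := (dvd_abs _ _).1 h3
            apply caseA
            have : D.a i = (D.a i * V₀ + D.b i * w) - D.a i * (V₀ - 1) - D.b i * w := by ring
            rw [this]
            exact dvd_sub (dvd_sub hpd (Dvd.dvd.mul_left (h3'.trans g1) _))
              (Dvd.dvd.mul_left h3' _)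
          · rcases hP.dvd_or_dvd h3 with h4 | h4
            · exact hAr p hp hpY h4
            · exact hAr' p hp hpY h4
        · exact caseW h2)
    (by
      intro i p hp hpK
      exact Dvd.dvd.mul_left ((LA_pW D hp (by omega)).trans hmW) _)
    (D.K * (Y : ℤ) ^ C₁ + 1) (Y ^ Cs) le_rfl
  have hYs : 0 < Y ^ Cs := Nat.pow_pos (by omega)
  have hne : {t : ℤ | (D.K * (Y : ℤ) ^ C₁ + 1) ≤ t ∧ t < (D.K * (Y : ℤ) ^ C₁ + 1) + (Y ^ Cs : ℕ) ∧
      ∀ i, Rough Y (D.a i * m * t + (D.a i * V₀ + D.b i * w))}.Nonempty := by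
    by_contra hcon
    rw [Set.not_nonempty_iff_eq_empty] at hcon
    rw [hcon, Set.ncard_empty] at hs
    omega
  obtain ⟨t, ht1, ht2, ht3⟩ := hne
  have hYC : (0 : ℤ) < (Y : ℤ) ^ C₁ := by
    have : (0 : ℤ) < Y := by exact_mod_cast (by omega : 0 < Y)
    positivity
  have ht0 : 0 < t := by
    have : (0 : ℤ) ≤ D.K * (Y : ℤ) ^ C₁ := by positivity
    linarith
  have hVt : t ≤ V₀ + t * m := by nlinarith
  refine ⟨V₀ + t * m, ?_, ⟨hG.1, gW t, ?_, ?_⟩, ?_, ?_⟩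
  · -- size
    have hV1 : 0 ≤ V₀ + t * m := by linarith
    rw [abs_of_nonneg hV1]
    have hYz : ((2 * D.K + D.W + 3 : ℕ) : ℤ) ≤ Y := by exact_mod_cast hY
    push_cast at hYz
    have hY1 : (1 : ℤ) ≤ Y := by
      have : (0 : ℤ) ≤ D.K := by positivity
      linarith
    have hKn : (0 : ℤ) ≤ D.K := by positivity
    have hp1 : (1 : ℤ) ≤ (Y : ℤ) ^ (C₁ + 1 + Cs) := one_le_pow₀ hY1
    have b1 : (D.K : ℤ) * (Y : ℤ) ^ C₁ + 1 ≤ (Y : ℤ) ^ (C₁ + 1 + Cs) := by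
      have h1 : (1 : ℤ) ≤ (Y : ℤ) ^ C₁ := one_le_pow₀ hY1
      have h2 : (D.K : ℤ) * (Y : ℤ) ^ C₁ + 1 ≤ (D.K + 1) * (Y : ℤ) ^ C₁ := by linarith
      have h3 : ((D.K : ℤ) + 1) * (Y : ℤ) ^ C₁ ≤ Y * (Y : ℤ) ^ C₁ :=
        mul_le_mul_of_nonneg_right (by linarith) hYC.le
      have h4 : (Y : ℤ) * (Y : ℤ) ^ C₁ = (Y : ℤ) ^ (C₁ + 1) := by ring
      have h5 : (Y : ℤ) ^ (C₁ + 1) ≤ (Y : ℤ) ^ (C₁ + 1 + Cs) :=
        pow_le_pow_right₀ hY1 (by omega)
      linarith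
    have b2 : ((Y ^ Cs : ℕ) : ℤ) ≤ (Y : ℤ) ^ (C₁ + 1 + Cs) := by
      push_cast
      exact pow_le_pow_right₀ hY1 (by omega)
    have b3 : 1 + t ≤ (Y : ℤ) ^ (C₁ + 2 + Cs) := by
      have h1 : 1 + t ≤ 3 * (Y : ℤ) ^ (C₁ + 1 + Cs) := by linarith
      have h2 : 3 * (Y : ℤ) ^ (C₁ + 1 + Cs) ≤ Y * (Y : ℤ) ^ (C₁ + 1 + Cs) :=
        mul_le_mul_of_nonneg_right (by linarith) (by linarith)
      have h3 : (Y : ℤ) * (Y : ℤ) ^ (C₁ + 1 + Cs) = (Y : ℤ) ^ (C₁ + 2 + Cs) := by ring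
      linarith
    have hWY : (D.W : ℤ) ≤ Y := by linarith
    have b4 : m ≤ (Y : ℤ) ^ (C₁ + (C₁ + 1) * D.S.card + (C₁ + 1) * D.S.card + 1) := by
      calc m = |w| * (A * A') * D.W := rfl
        _ ≤ (Y : ℤ) ^ C₁ * ((Y : ℤ) ^ ((C₁ + 1) * D.S.card) * (Y : ℤ) ^ ((C₁ + 1) * D.S.card)) *
            Y := by
          apply mul_le_mul _ hWY hWpos.le (by positivity)
          apply mul_le_mul hw _ (by positivity) (by positivity)
          exact mul_le_mul hb hb' hA0'.le (by positivity)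
        _ = _ := by ring
    calc V₀ + t * m ≤ (1 + t) * m := by nlinarith
      _ ≤ (Y : ℤ) ^ (C₁ + 2 + Cs) *
          (Y : ℤ) ^ (C₁ + (C₁ + 1) * D.S.card + (C₁ + 1) * D.S.card + 1) :=
        mul_le_mul b3 b4 hmpos.le (by positivity)
      _ = _ := by ring
  · -- `V` and `w` coprime
    obtain ⟨k, hk⟩ := gw t
    refine ⟨1, -k, ?_⟩
    linarith
  · intro j hj
    refine ⟨?_, ?_⟩
    · have ha0 := D.ha j
      have hbj := D.hKb j
      have h1 : -(D.b j * w) ≤ D.K * (Y : ℤ) ^ C₁ := by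
        calc -(D.b j * w) ≤ |D.b j * w| := neg_le_abs _
          _ = |D.b j| * |w| := abs_mul _ _
          _ ≤ D.K * (Y : ℤ) ^ C₁ := mul_le_mul hbj hw (abs_nonneg _) (by positivity)
      have h2 : V₀ + t * m ≤ D.a j * (V₀ + t * m) := by nlinarith
      have : D.L j (V₀ + t * m) w = D.a j * (V₀ + t * m) + D.b j * w := rfl
      rw [this]
      linarith
    · have := ht3 j
      have e : D.L j (V₀ + t * m) w = D.a j * m * t + (D.a j * V₀ + D.b j * w) := by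
        unfold Sys.L; ring
      rw [e]; exact this
  · exact LA_copr D hKY hG ((Dvd.intro _ rfl).trans (gA t))
  · exact LA_copr D hKY hG' ((Dvd.intro_left _ rfl).trans (gA t))

end Pool.Agent.H661R4.RM
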