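import Pool.Agent.H661R4.RM.Defs

set_option autoImplicit false

open Finset
open Pool.Agent.H661R3.OP (Rough SV CR PAP)

namespace Pool.Agent.H661R4.RM

theorem LK_coprime {ι : Type} [Fintype ι] {md rb : ℕ} (D : Sys ι md rb) (Y : ℕ) (x y : ℤ) (hK : D.K ≤ Y)
    (h : D.Good Y x y) : ∀ i ∈ D.S, ∀ j ∈ D.S, i ≠ j → IsCoprime (D.L i x y) (D.L j x y) := by
  intro i hi j hj hij
  obtain ⟨-, -, hxy, hval⟩ := h
  by_contra hcon
  rw [Int.isCoprime_iff_gcd_eq_one] at hcon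
  obtain ⟨p, hp, hpd⟩ := Nat.exists_prime_and_dvd hcon
  have hpi : (p : ℤ) ∣ D.L i x y := (Int.natCast_dvd_natCast.2 hpd).trans (Int.gcd_dvd_left _ _)
  have hpj : (p : ℤ) ∣ D.L j x y := (Int.natCast_dvd_natCast.2 hpd).trans (Int.gcd_dvd_right _ _)
  have hYp : Y < p := by
    by_contra hle
    exact (hval i hi).2 p hp (not_lt.1 hle) hpi
  have hpK : (D.K : ℤ) < p := by exact_mod_cast lt_of_le_of_lt hK hYp
  have hp' : Prime (p : ℤ) := Nat.prime_iff_prime_int.1 hp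
  have hcomb : (p : ℤ) ∣ (D.a i * D.b j - D.a j * D.b i) * y := by
    have h1 : (D.a i * D.b j - D.a j * D.b i) * y = D.a i * D.L j x y - D.a j * D.L i x y := by
      unfold Sys.L
      ring
    rw [h1]
    exact dvd_sub (hpj.mul_left _) (hpi.mul_left _)
  rcases hp'.dvd_or_dvd hcomb with hd | hd
  · have h1 := Int.le_of_dvd (abs_pos.2 (D.hdet i j hij)) ((dvd_abs _ _).2 hd)
    have h2 := D.hKdet i j
    linarith
  · have h1 : (p : ℤ) ∣ D.a i * x := by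
      have h2 : D.a i * x = D.L i x y - D.b i * y := by
        unfold Sys.L
        ring
      rw [h2]
      exact dvd_sub hpi (hd.mul_left _)
    rcases hp'.dvd_or_dvd h1 with h3 | h3
    · have h4 := Int.le_of_dvd (D.ha i) h3
      have h5 := D.hKa i
      linarith
    · exact hp'.not_isUnit (hxy.isUnit_of_dvd' h3 hd)

theorem t_LK (hLA : LA) (hG : GRID) : LINK := by
  intro ι _ md rb D C₁
  obtain ⟨Ca, Ya, ha⟩ := hLA ι md rb D C₁
  obtain ⟨Cg, Yg, hg⟩ := hG ι md rb D (max C₁ Ca)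
  refine ⟨Cg, max (max Ya Yg) (max D.K 2), ?_⟩
  intro F hF c Y Z hY hFew U U' w hU hU' hw hgU hgU'
  have hYa : Ya ≤ Y := (le_max_left _ _).trans ((le_max_left _ _).trans hY)
  have hYg : Yg ≤ Y := (le_max_right _ _).trans ((le_max_left _ _).trans hY)
  have hYK : D.K ≤ Y := (le_max_left _ _).trans ((le_max_right _ _).trans hY)
  have hY2 : 2 ≤ Y := (le_max_right _ _).trans ((le_max_right _ _).trans hY)
  have hY1 : (1 : ℤ) ≤ Y := by exact_mod_cast (le_trans (by norm_num) hY2)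
  obtain ⟨V, hV, hgV, hc1, hc2⟩ := ha Y hYa U U' w hU hU' hw hgU hgU'
  have hm1 : (Y : ℤ) ^ C₁ ≤ (Y : ℤ) ^ (max C₁ Ca) := pow_le_pow_right₀ hY1 (le_max_left _ _)
  have hm2 : (Y : ℤ) ^ Ca ≤ (Y : ℤ) ^ (max C₁ Ca) := pow_le_pow_right₀ hY1 (le_max_right _ _)
  have h1 := hg F hF c Y Z hYg hFew U V w (hU.trans hm1) (hV.trans hm2) (hw.trans hm1) hgU.1
    hgU.2.1 hgV.2.1 hgU.2.2.2 hgV.2.2.2 (LK_coprime D Y U w hYK hgU) (LK_coprime D Y V w hYK hgV)
    hc1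
  have h2 := hg F hF c Y Z hYg hFew U' V w (hU'.trans hm1) (hV.trans hm2) (hw.trans hm1) hgU'.1
    hgU'.2.1 hgV.2.1 hgU'.2.2.2 hgV.2.2.2 (LK_coprime D Y U' w hYK hgU')
    (LK_coprime D Y V w hYK hgV) hc2
  rw [h1, h2]

end Pool.Agent.H661R4.RM
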