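import Pool.Agent.H661R4.RM.Defs
import Pool.Agent.H661R3.OP.CR

set_option autoImplicit false

open Finset

namespace Pool.Agent.H661R4.RM

open Pool.Agent.H661R3.OP (Rough SV CR PAP)

/-- M0: the main theorem in terms of `Y` -/
theorem t_M0 (hF : FIN) (hS : SETUP) : MAIN0 := by
  intro ι _ md rb a b S ha hab hdet hmd hco
  obtain ⟨K, W, M, hW, hM, hpW, hD⟩ := hS ι md rb a b S ha hab hdet hmd hco
  have h1 : ∀ ν : ℕ, ∃ C Y₀ : ℕ,
      (∀ i, ∀ p : ℕ, p.Prime → p ∣ W → ¬ (p : ℤ) ∣ a i * (ν : ℤ) + b i) →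
      ∃ D : Sys ι md rb, D.a = a ∧ D.b = b ∧ D.S = S ∧ D.W = W ∧ D.M = M ∧ D.n₀ = (ν : ℤ) ∧
      ∀ (F : ℤ → ZMod md), AddM F → ∀ (c : Ctx md rb) (Y : ℕ) (Z : ℤ), Y₀ ≤ Y →
      D.Few F c Y Z C → ∀ p : ℕ, p.Prime → Y < p → p ≤ Y ^ 2 →
      ((D.M * D.W : ℕ) : ℤ) ∣ (p : ℤ) - 1 → F p = 0 := by
    intro ν
    by_cases hν : ∀ i, ∀ p : ℕ, p.Prime → p ∣ W → ¬ (p : ℤ) ∣ a i * (ν : ℤ) + b i
    · obtain ⟨D, e1, e2, e3, e4, e5, e6⟩ := hD ν hν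
      obtain ⟨C, Y₀, hCY⟩ := hF ι md rb D
      exact ⟨C, Y₀, fun _ => ⟨D, e1, e2, e3, e4, e5, e6, hCY⟩⟩
    · exact ⟨0, 0, fun h => absurd h hν⟩
  choose Cf Yf hP using h1
  refine ⟨M * W, (range W).sup Cf, max ((range W).sup Yf) 2, Nat.mul_pos hM hW, ?_⟩
  rintro F hAdd c hloc Y Z hY hYZ ⟨p, hp, hYp, hpY, hq, hFp⟩
  by_contra hcon
  push Not at hcon
  apply hFp
  choose r hr using hloc
  obtain ⟨n₀, hn₀⟩ := Pool.Agent.H661R3.OP.t_CR {p : Fin (K + 1) // (p : ℕ).Prime}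
    (fun p => ((p.1 : ℕ) : ℤ)) (fun p => r p.1 p.2) (by
      rintro ⟨i, hi⟩ ⟨j, hj⟩ hij
      have hne : (i : ℕ) ≠ (j : ℕ) := by
        intro hh
        apply hij
        ext
        exact hh
      exact Nat.isCoprime_iff_coprime.2 ((Nat.coprime_primes hi hj).2 hne))
  have hWz : (0 : ℤ) < W := by exact_mod_cast hW
  set ν : ℕ := (n₀ % (W : ℤ)).toNat with hν
  have hν0 : ((ν : ℕ) : ℤ) = n₀ % (W : ℤ) := Int.toNat_of_nonneg (Int.emod_nonneg _ hWz.ne')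
  have hνW : ν < W := by
    have := Int.emod_lt_of_pos n₀ hWz
    omega
  have hdvd : ∀ p : ℕ, ∀ hp : p.Prime, p ∣ W → (p : ℤ) ∣ (ν : ℤ) - r p hp := by
    intro p hp hpW'
    have hpK : p ≤ K := (hpW p hp).1 hpW'
    have h2 := hn₀ ⟨⟨p, by omega⟩, hp⟩
    have h3 : (p : ℤ) ∣ n₀ - ν := by
      rw [hν0]
      exact (Int.natCast_dvd_natCast.2 hpW').trans (Int.dvd_self_sub_emod)
    have h4 : (ν : ℤ) - r p hp = (n₀ - r p hp) - (n₀ - ν) := by ring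
    rw [h4]
    exact dvd_sub h2 h3
  have hgood : ∀ i, ∀ p : ℕ, p.Prime → p ∣ W → ¬ (p : ℤ) ∣ a i * (ν : ℤ) + b i := by
    intro i p hp hpW' hd
    have h2 := hdvd p hp hpW'
    refine (hr p hp).1 i ?_
    have h3 : a i * r p hp + b i = (a i * ν + b i) - a i * (ν - r p hp) := by ring
    rw [h3]
    exact dvd_sub hd (h2.mul_left _)
  obtain ⟨D, e1, e2, e3, e4, e5, e6, hfin⟩ := hP ν hgood
  have hCν : Cf ν ≤ (range W).sup Cf := Finset.le_sup (Finset.mem_range.2 hνW)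
  have hYν : Yf ν ≤ (range W).sup Yf := Finset.le_sup (Finset.mem_range.2 hνW)
  have hY2 : 2 ≤ Y := le_trans (le_max_right _ _) hY
  have hpow : (Y : ℤ) ^ (Cf ν) ≤ (Y : ℤ) ^ ((range W).sup Cf) :=
    pow_le_pow_right₀ (by exact_mod_cast (by omega : 1 ≤ Y)) hCν
  have hset : D.Exc F c Y Z = {n : ℤ | 0 < n ∧ n ≤ Z ∧ (∀ i, Rough Y (a i * n + b i)) ∧
      (∀ k, Rough Y (c.e k * n + c.f k)) ∧ ∑ i ∈ S, F (a i * n + b i) ≠ c.c} := by
    ext n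
    simp only [Sys.Exc, Sys.R, Sys.L, mul_one, Set.mem_setOf_eq, e1, e2, e3]
  refine hfin F hAdd c Y Z (le_trans hYν (le_trans (le_max_left _ _) hY)) ⟨?_, ?_, ?_⟩ p hp hYp hpY
    (by rw [e4, e5]; exact hq)
  · intro k p hp
    refine ⟨fun he hf => ?_, fun hpW' hd => ?_⟩
    · exact (hr p hp).2 k (dvd_add (he.mul_right _) hf)
    · rw [e4] at hpW'
      rw [e6] at hd
      have h2 := hdvd p hp hpW'
      refine (hr p hp).2 k ?_
      have h3 : c.e k * r p hp + c.f k = (c.e k * ν + c.f k) - c.e k * (ν - r p hp) := by ring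
      rw [h3]
      exact dvd_sub hd (h2.mul_left _)
  · exact hpow.trans hYZ
  · rw [hset]
    refine le_trans ?_ hcon
    rw [mul_comm]
    exact mul_le_mul_of_nonneg_right hpow (by positivity)

end Pool.Agent.H661R4.RM
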