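import Pool.Agent.H661R4.RM.Defs

set_option autoImplicit false

open Finset

namespace Pool.Agent.H661R4.RM

open Pool.Agent.H661R3.OP (Rough SV CR PAP)

/-- SU -/
theorem t_SU (h : ELIM) : SETUP := by
  intro ι _ md rb a b S ha hab hdet hmd hS
  classical
  have hne : S.Nonempty := by
    rw [Finset.nonempty_iff_ne_empty]
    rintro rfl
    rw [Finset.card_empty, Nat.coprime_zero_left] at hS
    omega
  obtain ⟨o, ho, hmin⟩ := Finset.exists_min_image S (fun i => (b i : ℚ) / a i) hne
  have haQ : ∀ i, (0 : ℚ) < a i := fun i => by exact_mod_cast ha i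
  have hmin' : ∀ i ∈ S, i ≠ o → 0 < a o * b i - a i * b o := by
    intro i hi hio
    have h1 := hmin i hi
    rw [div_le_div_iff₀ (haQ o) (haQ i)] at h1
    have h2 : b o * a i ≤ b i * a o := by exact_mod_cast h1
    have h3 := hdet o i (Ne.symm hio)
    have h4 : 0 ≤ a o * b i - a i * b o := by nlinarith
    omega
  obtain ⟨M, B, hM, hMB, hel⟩ := h ι md a b S o (by omega) ho ha (hab o) hmin'
  set q : ℤ := 1 + ∑ i, |b i| with hq
  have hqb : ∀ i, |b i| ≤ ∑ i, |b i| := fun i =>
    Finset.single_le_sum (f := fun i => |b i|) (fun j _ => abs_nonneg _) (Finset.mem_univ i)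
  have hqpos : ∀ i, 0 < a i * q + b i := by
    intro i
    have h1 := hqb i
    have h2 : 1 ≤ a i := ha i
    have h3 : 0 ≤ |b i| := abs_nonneg _
    have h4 : -|b i| ≤ b i := neg_abs_le _
    have h5 : q ≤ a i * q := by nlinarith
    omega
  set K : ℕ := (∑ i, (a i).natAbs) + (∑ i, (b i).natAbs)
    + (∑ i, ∑ j, (a i * b j - a j * b i).natAbs) + (∑ i, (a i * q + b i).natAbs)
    + 16 * (Fintype.card ι + 1) ^ 2 * (B + 1) ^ 2 + 2 * (Fintype.card ι + rb) ^ 2 with hK
  have k1 : ∀ i, (a i).natAbs ≤ K := by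
    intro i
    have := Finset.single_le_sum (f := fun i => (a i).natAbs) (fun j _ => Nat.zero_le _)
      (Finset.mem_univ i)
    omega
  have k2 : ∀ i, (b i).natAbs ≤ K := by
    intro i
    have := Finset.single_le_sum (f := fun i => (b i).natAbs) (fun j _ => Nat.zero_le _)
      (Finset.mem_univ i)
    omega
  have k3 : ∀ i j, (a i * b j - a j * b i).natAbs ≤ K := by
    intro i j
    have h1 := Finset.single_le_sum (f := fun i => ∑ j, (a i * b j - a j * b i).natAbs)
      (fun j _ => Nat.zero_le _) (Finset.mem_univ i)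
    have h2 := Finset.single_le_sum (f := fun j => (a i * b j - a j * b i).natAbs)
      (fun j _ => Nat.zero_le _) (Finset.mem_univ j)
    omega
  have k4 : ∀ i, (a i * q + b i).natAbs ≤ K := by
    intro i
    have := Finset.single_le_sum (f := fun i => (a i * q + b i).natAbs) (fun j _ => Nat.zero_le _)
      (Finset.mem_univ i)
    omega
  have k5 : 16 * (Fintype.card ι + 1) ^ 2 * (B + 1) ^ 2 ≤ K := by
    rw [hK]
    exact (Nat.le_add_left _ _).trans (Nat.le_add_right _ _)
  have k6 : 2 * (Fintype.card ι + rb) ^ 2 ≤ K := by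
    rw [hK]; exact Nat.le_add_left _ _
  have e1 : ∀ i, a i ≤ K := by
    intro i
    have := k1 i
    omega
  have e2 : ∀ i, |b i| ≤ K := by
    intro i
    have := k2 i
    rw [Int.abs_eq_natAbs]
    exact_mod_cast this
  have e3 : ∀ i j, |a i * b j - a j * b i| ≤ K := by
    intro i j
    have := k3 i j
    rw [Int.abs_eq_natAbs]
    exact_mod_cast this
  have e4 : ∀ i, 0 < a i * q + b i ∧ a i * q + b i ≤ K := by
    intro i
    refine ⟨hqpos i, ?_⟩
    have := k4 i
    omega
  have e5 : ∀ p : ℕ, p.Prime → (p ∣ primorial K ↔ p ≤ K) := fun p hp => hp.dvd_primorial_iff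
  refine ⟨K, primorial K, M, primorial_pos K, hM, e5, fun n₀ e6 => ?_⟩
  exact ⟨Sys.mk a b S o M B K (primorial K) n₀ q ha hab hdet hS ho hmin' hM hMB hel e1 e2 e3 e4
    k5 k6 (primorial_pos K) e5 e6, rfl, rfl, rfl, rfl, rfl, rfl⟩

end Pool.Agent.H661R4.RM
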