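import Pool.Agent.H661R4.RM.Defs

/-!
The two-dimensional family of good pairs through `(r, δ)`.
-/

set_option autoImplicit false

open Finset
open Pool.Agent.H661R3.OP (Rough SV CR PAP)

namespace Pool.Agent.H661R4.RM

theorem v1 {n B : ℕ} (h : 1 ≤ n) : 2 * B + 1 ≤ 16 * n * (B + 1) ^ 2 := by
  have h1 : (B + 1) ^ 2 ≤ n * (B + 1) ^ 2 := Nat.le_mul_of_pos_left _ h
  have h2 : 2 * B + 1 ≤ (B + 1) ^ 2 := by nlinarith
  have h3 : 16 * n * (B + 1) ^ 2 = 16 * (n * (B + 1) ^ 2) := by ring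
  omega

theorem v3 {Y : ℤ} (h : 16 ≤ Y) : Y + 1 ≤ Y ^ 2 := by nlinarith

theorem v8 {t A B : ℤ} (h : t < 8 * A + 1 + B) (hA : 1 ≤ A) (hB : 1 ≤ B) : t ≤ 10 * (A * B) := by
  nlinarith

theorem v9 {E F Y a : ℤ} (h : a ≤ 3 * E + 10 * F) (hE : E ≤ F) (hF : 0 < F) (hY : 16 ≤ Y) :
    a ≤ F * Y := by
  nlinarith

theorem v10 {c t L M : ℤ} (hc : 1 ≤ c) (ht : M + 1 ≤ t) (hM : 0 ≤ M) (hL : -M ≤ L) :
    0 < c * t + L := by
  nlinarith

theorem ta_cop_of_primes (x y : ℤ)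
    (h : ∀ p : ℕ, p.Prime → (p : ℤ) ∣ x → ¬ (p : ℤ) ∣ y) : IsCoprime x y := by
  rw [Int.isCoprime_iff_gcd_eq_one]
  by_contra hne
  obtain ⟨p, hp, hpd⟩ := Nat.exists_prime_and_dvd hne
  have h1 : (p : ℤ) ∣ x := (Int.natCast_dvd_natCast.mpr hpd).trans (Int.gcd_dvd_left ..)
  have h2 : (p : ℤ) ∣ y := (Int.natCast_dvd_natCast.mpr hpd).trans (Int.gcd_dvd_right ..)
  exact h p hp h1 h2

theorem ta_W_cop {ι : Type} [Fintype ι] {md rb : ℕ} (D : Sys ι md rb) (i : ι) :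
    IsCoprime (D.a i * D.n₀ + D.b i) (D.W : ℤ) := by
  apply ta_cop_of_primes
  intro p hp h1 h2
  exact D.hn₀ i p hp (Int.natCast_dvd_natCast.mp h2) h1

theorem ta_le_of_dvd {p : ℕ} {x : ℤ} {K : ℕ} (hx : 0 < x) (hxK : x ≤ K) (h : (p : ℤ) ∣ x) :
    p ≤ K := by
  have := Int.le_of_dvd hx h
  omega

/-- the algebraic core: goodness of the family -/
theorem ta_good {ι : Type} [Fintype ι] {md rb : ℕ} (D : Sys ι md rb) (Y : ℕ) (hKY : D.K ≤ Y)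
    (r δ ω v q₁ x₁ y₁ s P u w : ℤ)
    (hWδ : (D.W : ℤ) ∣ δ) (hrδ : IsCoprime r δ) (hr : 0 < r) (hδ : 0 < δ)
    (hrough : ∀ m : ℤ, 0 ≤ m → m ≤ D.B → Rough Y (r + m * δ))
    (hω : ω * (D.a D.o * D.n₀ + D.b D.o) + v * D.W = 1)
    (hq : r = ω * (D.a D.o * D.n₀ + D.b D.o) + D.W * q₁)
    (hxy : x₁ * D.a D.o + y₁ * D.b D.o = 1)
    (hP : ∀ m : ℤ, 0 ≤ m → m ≤ D.B → (r + m * δ) ∣ P)
    (hu : u = ω * D.n₀ + D.W * q₁ * x₁ - s * (D.W * D.b D.o))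
    (hw : w = ω + D.W * q₁ * y₁ + s * (D.W * D.a D.o))
    (hs : P ∣ w - (D.B + 1) * δ)
    (α β : ℤ) (hβ : |β| ≤ D.B) (h0 : 0 ≤ D.L D.o α β)
    (h1 : D.L D.o α β ≤ D.B)
    (hj : ∀ j ∈ D.S, j ≠ D.o → 0 < D.L j (u + α * δ) (w + β * δ) ∧
      Rough Y (D.L j (u + α * δ) (w + β * δ))) :
    D.Good Y (u + α * δ) (w + β * δ) := by
  have hLo : D.L D.o (u + α * δ) (w + β * δ) = r + D.L D.o α β * δ := by
    simp only [Sys.L]
    rw [hu, hw, hq]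
    linear_combination (D.W * q₁ : ℤ) * hxy
  have hRo := hrough _ h0 h1
  obtain ⟨δ', hδ'⟩ := hWδ
  refine ⟨?_, ?_, ?_, ?_⟩
  · -- coprime to W
    refine ⟨D.a D.o * D.n₀ + D.b D.o, v - (D.a D.o * D.n₀ + D.b D.o) * (q₁ * y₁ + s * D.a D.o
      + β * δ'), ?_⟩
    rw [hw, hδ']
    linear_combination hω
  · refine ⟨q₁ * x₁ - s * D.b D.o + α * δ' - D.n₀ * (q₁ * y₁ + s * D.a D.o + β * δ'), ?_⟩
    rw [hu, hw, hδ']
    ring
  · apply ta_cop_of_primes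
    intro p hp hpu hpw
    have hpL : (p : ℤ) ∣ r + D.L D.o α β * δ := by
      rw [← hLo]
      exact dvd_add (hpu.mul_left _) (hpw.mul_left _)
    have hpY : Y < p := by
      by_contra hcon
      exact hRo p hp (by omega) hpL
    have hpP : (p : ℤ) ∣ w - (D.B + 1) * δ := (hpL.trans (hP _ h0 h1)).trans hs
    have h3 : (p : ℤ) ∣ (D.B + 1 + β) * δ := by
      have := dvd_sub hpw hpP
      have h4 : w + β * δ - (w - (D.B + 1) * δ) = (D.B + 1 + β) * δ := by ring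
      rwa [h4] at this
    have hpp : Prime (p : ℤ) := Nat.prime_iff_prime_int.mp hp
    have hpδ : (p : ℤ) ∣ δ := by
      rcases hpp.dvd_or_dvd h3 with h | h
      · exfalso
        have hβ' := abs_le.mp hβ
        have h5 : (p : ℤ) ≤ D.B + 1 + β := Int.le_of_dvd (by linarith [hβ'.1]) h
        have h6 : 2 * D.B + 1 ≤ D.K := by
          refine le_trans ?_ D.hK
          exact v1 (Nat.one_le_pow _ _ (by omega))
        have h7 : (Y : ℤ) < p := by exact_mod_cast hpY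
        have h8 : (2 * D.B + 1 : ℤ) ≤ Y := by exact_mod_cast h6.trans hKY
        linarith [hβ'.2]
      · exact h
    have hpr : (p : ℤ) ∣ r := by
      have := dvd_sub hpL (hpδ.mul_left (D.L D.o α β))
      simpa using this
    have := hrδ.isUnit_of_dvd' hpr hpδ
    exact hpp.not_unit this
  · intro j hjS
    by_cases hjo : j = D.o
    · subst hjo
      rw [hLo]
      refine ⟨?_, hRo⟩
      have : 0 ≤ D.L D.o α β * δ := mul_nonneg h0 hδ.le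
      linarith
    · exact hj j hjS hjo

/-- the sieve step -/
theorem ta_forms {ι : Type} [Fintype ι] {md rb : ℕ} (D : Sys ι md rb) (C₂ : ℕ)
    (hC : ∀ (κ : Type) [Fintype κ], Fintype.card κ ≤ Fintype.card ι * (2 * D.B + 1) ^ 2 →
      ∀ (c d : κ → ℤ) (Y : ℕ), 2 ≤ Y →
      (∀ i, ∀ p : ℕ, p.Prime → p ≤ Y → (p : ℤ) ∣ c i → ¬ (p : ℤ) ∣ d i) →
      (∀ i, ∀ p : ℕ, p.Prime → p ≤ 2 * (Fintype.card ι * (2 * D.B + 1) ^ 2) →
        (p : ℤ) ∣ c i) →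
      ∀ (T₀ : ℤ) (T : ℕ), Y ^ C₂ ≤ T →
      T ≤ Y ^ C₂ * {t : ℤ | T₀ ≤ t ∧ t < T₀ + T ∧ ∀ i, Rough Y (c i * t + d i)}.ncard)
    (Y : ℕ) (hY : 2 ≤ Y) (hKY : D.K ≤ Y) (δ ω v q₁ x₁ y₁ s P u w : ℤ)
    (hWδ : (D.W : ℤ) ∣ δ)
    (hω : ω * (D.a D.o * D.n₀ + D.b D.o) + v * D.W = 1)
    (hP : Rough Y P)
    (hu : u = ω * D.n₀ + D.W * q₁ * x₁ - s * (D.W * D.b D.o))
    (hw : w = ω + D.W * q₁ * y₁ + s * (D.W * D.a D.o)) (T₀ : ℤ) :
    ∃ t : ℤ, T₀ ≤ t ∧ t < T₀ + (Y : ℤ) ^ C₂ ∧ ∀ j ∈ D.S, j ≠ D.o → ∀ α β : ℤ,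
      |α| ≤ D.B → |β| ≤ D.B →
      Rough Y (D.W * P * (D.a D.o * D.b j - D.a j * D.b D.o) * t
        + D.L j (u + α * δ) (w + β * δ)) := by
  classical
  set s0 : Finset (ι × ℤ × ℤ) :=
    (Finset.univ : Finset ι) ×ˢ (Finset.Icc (-(D.B : ℤ)) D.B ×ˢ Finset.Icc (-(D.B : ℤ)) D.B)
    with hs0
  have hcard : s0.card = Fintype.card ι * (2 * D.B + 1) ^ 2 := by
    rw [hs0, Finset.card_product, Finset.card_product, Int.card_Icc, Finset.card_univ]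
    have : ((D.B : ℤ) + 1 - -(D.B : ℤ)).toNat = 2 * D.B + 1 := by omega
    rw [this]
    ring
  have hK8 : 2 * (Fintype.card ι * (2 * D.B + 1) ^ 2) ≤ D.K := by
    refine le_trans ?_ D.hK
    have h1 : (2 * D.B + 1) ^ 2 ≤ 4 * (D.B + 1) ^ 2 :=
      calc (2 * D.B + 1) ^ 2 ≤ (2 * (D.B + 1)) ^ 2 := Nat.pow_le_pow_left (by omega) 2
        _ = 4 * (D.B + 1) ^ 2 := by ring
    have h2 : Fintype.card ι ≤ (Fintype.card ι + 1) ^ 2 := by nlinarith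
    calc 2 * (Fintype.card ι * (2 * D.B + 1) ^ 2)
        ≤ 2 * ((Fintype.card ι + 1) ^ 2 * (4 * (D.B + 1) ^ 2)) := by gcongr
      _ ≤ 16 * (Fintype.card ι + 1) ^ 2 * (D.B + 1) ^ 2 := by nlinarith [Nat.zero_le ((Fintype.card ι + 1) ^ 2 * (D.B + 1) ^ 2)]
  have key := hC {x // x ∈ s0} (by rw [Fintype.card_coe, hcard])
    (fun x => if x.1.1 ∈ D.S ∧ x.1.1 ≠ D.o then
      D.W * P * (D.a D.o * D.b x.1.1 - D.a x.1.1 * D.b D.o) else 0)
    (fun x => if x.1.1 ∈ D.S ∧ x.1.1 ≠ D.o then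
      D.L x.1.1 (u + x.1.2.1 * δ) (w + x.1.2.2 * δ) else 1) Y hY ?_ ?_ T₀ (Y ^ C₂) le_rfl
  · have hne : ({t : ℤ | T₀ ≤ t ∧ t < T₀ + (Y ^ C₂ : ℕ) ∧ ∀ x : {x // x ∈ s0}, Rough Y
        ((if x.1.1 ∈ D.S ∧ x.1.1 ≠ D.o then
          D.W * P * (D.a D.o * D.b x.1.1 - D.a x.1.1 * D.b D.o) else 0) * t +
        (if x.1.1 ∈ D.S ∧ x.1.1 ≠ D.o then
          D.L x.1.1 (u + x.1.2.1 * δ) (w + x.1.2.2 * δ) else 1))}).Nonempty := by
      apply Set.nonempty_of_ncard_ne_zero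
      intro h0
      rw [h0] at key
      have : 0 < Y ^ C₂ := by positivity
      omega
    obtain ⟨t, ht0, ht1, ht⟩ := hne
    refine ⟨t, ht0, by exact_mod_cast ht1, ?_⟩
    intro j hjS hjo α β hα hβ
    have hmem : (j, α, β) ∈ s0 := by
      rw [hs0]
      simp only [Finset.mem_product, Finset.mem_univ, true_and, Finset.mem_Icc]
      exact ⟨abs_le.mp hα, abs_le.mp hβ⟩
    have := ht ⟨(j, α, β), hmem⟩
    simp only [hjS, ne_eq, hjo, not_false_eq_true, and_self, if_true] at this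
    exact this
  · -- coprimality condition
    rintro ⟨⟨j, α, β⟩, hmem⟩ p hp hpY hpc hpd
    dsimp only at hpc hpd
    have hpp : Prime (p : ℤ) := Nat.prime_iff_prime_int.mp hp
    by_cases hj : j ∈ D.S ∧ j ≠ D.o
    · rw [if_pos hj] at hpc hpd
      have hpW : p ∣ D.W := by
        rcases hpp.dvd_or_dvd hpc with h | h
        · rcases hpp.dvd_or_dvd h with h | h
          · exact Int.natCast_dvd_natCast.mp h
          · exact absurd h (hP p hp hpY)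
        · rw [D.hpW p hp]
          exact ta_le_of_dvd (D.hmin j hj.1 hj.2) ((le_abs_self _).trans (D.hKdet _ _)) h
      have hpW' : (p : ℤ) ∣ (D.W : ℤ) := Int.natCast_dvd_natCast.mpr hpW
      have hpδ : (p : ℤ) ∣ δ := hpW'.trans hWδ
      have h1 : (p : ℤ) ∣ ω * (D.a j * D.n₀ + D.b j) := by
        obtain ⟨W', hW'⟩ := hpW'
        obtain ⟨δ', hδ'⟩ := hpδ
        have h2 : ω * (D.a j * D.n₀ + D.b j) = D.L j (u + α * δ) (w + β * δ) -
            p * (W' * (D.a j * (q₁ * x₁ - s * D.b D.o) + D.b j * (q₁ * y₁ + s * D.a D.o))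
              + δ' * (D.a j * α + D.b j * β)) := by
          simp only [Sys.L]
          rw [hu, hw, hW', hδ']
          ring
        rw [h2]
        exact dvd_sub hpd (dvd_mul_right _ _)
      rcases hpp.dvd_or_dvd h1 with h | h
      · have h3 : (p : ℤ) ∣ 1 := by
          rw [← hω]
          exact dvd_add (h.mul_right _) (hpW'.mul_left _)
        exact hpp.not_dvd_one h3
      · exact D.hn₀ j p hp hpW h
    · rw [if_neg hj] at hpd
      exact hpp.not_dvd_one hpd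
  · rintro ⟨⟨j, α, β⟩, hmem⟩ p hp hpK
    dsimp only
    split_ifs with hj
    · have hpW : p ∣ D.W := (D.hpW p hp).mpr (hpK.trans hK8)
      exact ((Int.natCast_dvd_natCast.mpr hpW).mul_right _).mul_right _
    · exact dvd_zero _

theorem t_TA (hSV : SV) (_hCR : CR) : TA := by
  intro ι _ md rb D C₁
  classical
  obtain ⟨C₂, hC₂⟩ := hSV (Fintype.card ι * (2 * D.B + 1) ^ 2)
  obtain ⟨ω, v, hω⟩ := ta_W_cop D D.o
  obtain ⟨x₁, y₁, hxy⟩ := D.hab D.o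
  obtain ⟨A, hAK, hAW, hAω, hAx, hAy, hAn, hAl⟩ : ∃ A : ℕ, D.K ≤ A ∧ D.W ≤ A ∧ |ω| ≤ A ∧
      |x₁| ≤ A ∧ |y₁| ≤ A ∧ |ω * D.n₀| ≤ A ∧ |ω * (D.a D.o * D.n₀ + D.b D.o)| ≤ A := by
    refine ⟨D.K + D.W + ω.natAbs + x₁.natAbs + y₁.natAbs + (ω * D.n₀).natAbs
      + (ω * (D.a D.o * D.n₀ + D.b D.o)).natAbs, by omega, by omega, ?_, ?_, ?_, ?_, ?_⟩ <;>
    · rw [Int.abs_eq_natAbs]
      norm_cast
      omega
  set e := (C₁ + 1) * (D.B + 1) with he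
  set E := e + C₁ + 3 with hE
  refine ⟨E + 4 + C₂ + e, A, ?_⟩
  intro Y hY r δ hr hrY hδ hδY hWδ hWr hrδ hrough
  have h16 : 16 * (D.B + 1) ≤ D.K := by
    refine le_trans ?_ D.hK
    have h1 : 1 ≤ (Fintype.card ι + 1) ^ 2 := Nat.one_le_pow _ _ (by omega)
    have h2 : D.B + 1 ≤ (D.B + 1) ^ 2 := Nat.le_self_pow (by norm_num) _
    calc 16 * (D.B + 1) = 16 * 1 * (D.B + 1) := by ring
      _ ≤ 16 * (Fintype.card ι + 1) ^ 2 * (D.B + 1) ^ 2 := by gcongr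
  have hKY : D.K ≤ Y := hAK.trans hY
  have hY2 : 2 ≤ Y := by omega
  have hYr : (16 : ℤ) ≤ Y := by
    have : 16 ≤ Y := by omega
    exact_mod_cast this
  have hY1 : (1 : ℤ) ≤ Y := by linarith
  have hY0 : (0 : ℤ) ≤ Y := by linarith
  have hAY : (A : ℤ) ≤ Y := by exact_mod_cast hY
  have hKYz : (D.K : ℤ) ≤ Y := by exact_mod_cast hKY
  have hWY : (D.W : ℤ) ≤ Y := by exact_mod_cast hAW.trans hY
  have hBY : (D.B : ℤ) + 1 ≤ Y := by
    have : D.B + 1 ≤ Y := by omega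
    exact_mod_cast this
  have hW0 : (0 : ℤ) < D.W := by exact_mod_cast D.hW
  -- q₁
  obtain ⟨r', hr'⟩ := hWr
  set q₁ := r' + v with hq₁
  have hq : r = ω * (D.a D.o * D.n₀ + D.b D.o) + D.W * q₁ := by
    rw [hq₁]
    linear_combination hr' - hω
  -- P
  set P : ℤ := ∏ m ∈ Finset.range (D.B + 1), (r + m * δ) with hPdef
  have hPpos : 0 < P := by
    apply Finset.prod_pos
    intro m _
    positivity
  have hPdvd : ∀ m : ℤ, 0 ≤ m → m ≤ D.B → (r + m * δ) ∣ P := by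
    intro m hm0 hmB
    lift m to ℕ using hm0
    exact Finset.dvd_prod_of_mem (fun m : ℕ => r + (m : ℤ) * δ)
      (Finset.mem_range.mpr (by have : m ≤ D.B := by exact_mod_cast hmB
                                omega))
  have hPrough : Rough Y P := by
    intro p hp hpY hpP
    obtain ⟨m, hm, hpm⟩ := (Nat.prime_iff_prime_int.mp hp).exists_mem_finset_dvd hpP
    have hm' := Finset.mem_range.mp hm
    exact hrough m (by positivity) (by exact_mod_cast (by omega : m ≤ D.B)) p hp hpY hpm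
  have hPle : P ≤ (Y : ℤ) ^ e := by
    have : P ≤ ∏ m ∈ Finset.range (D.B + 1), (Y : ℤ) ^ (C₁ + 1) := by
      apply Finset.prod_le_prod
      · intro m _
        positivity
      · intro m hm
        have hm' := Finset.mem_range.mp hm
        have hm'' : (m : ℤ) ≤ D.B := by exact_mod_cast (by omega : m ≤ D.B)
        calc r + m * δ ≤ (Y : ℤ) ^ C₁ + D.B * (Y : ℤ) ^ C₁ := by gcongr
          _ = (Y : ℤ) ^ C₁ * (D.B + 1) := by ring
          _ ≤ (Y : ℤ) ^ C₁ * Y := by gcongr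
          _ = (Y : ℤ) ^ (C₁ + 1) := by ring
    rwa [Finset.prod_const, Finset.card_range, ← pow_mul, ← he] at this
  -- invertibility of `W a_o` modulo `P`
  have hcop : IsCoprime (D.W * D.a D.o : ℤ) P := by
    apply ta_cop_of_primes
    intro p hp h1 h2
    have hpK : p ≤ D.K := by
      rcases (Nat.prime_iff_prime_int.mp hp).dvd_or_dvd h1 with h | h
      · exact (D.hpW p hp).mp (Int.natCast_dvd_natCast.mp h)
      · exact ta_le_of_dvd (D.ha D.o) (D.hKa D.o) h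
    exact hPrough p hp (hpK.trans hKY) h2
  obtain ⟨x₂, y₂, hxy₂⟩ := hcop
  set s₁ : ℤ := x₂ * ((D.B + 1) * δ - ω - D.W * q₁ * y₁) with hs₁
  set s : ℤ := s₁ % P with hs
  have hs0 : 0 ≤ s := Int.emod_nonneg _ hPpos.ne'
  have hsP : s < P := Int.emod_lt_of_pos _ hPpos
  have hsmod : P ∣ s₁ - s := by
    rw [hs]
    exact Int.dvd_self_sub_emod
  set u : ℤ := ω * D.n₀ + D.W * q₁ * x₁ - s * (D.W * D.b D.o) with hu
  set w : ℤ := ω + D.W * q₁ * y₁ + s * (D.W * D.a D.o) with hw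
  have hPw : P ∣ w - (D.B + 1) * δ := by
    have h1 : w - (D.B + 1) * δ = -((s₁ - s) * (D.W * D.a D.o)) -
        P * (y₂ * ((D.B + 1) * δ - ω - D.W * q₁ * y₁)) := by
      rw [hw, hs₁]
      linear_combination ((D.B + 1) * δ - ω - D.W * q₁ * y₁) * hxy₂
    rw [h1]
    exact dvd_sub (dvd_neg.mpr (hsmod.mul_right _)) (dvd_mul_right _ _)
  -- sizes
  have hpE1 : (Y : ℤ) ≤ (Y : ℤ) ^ E := by
    calc (Y : ℤ) = (Y : ℤ) ^ 1 := (pow_one _).symm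
      _ ≤ (Y : ℤ) ^ E := pow_le_pow_right₀ hY1 (by omega)
  have hWq : |D.W * q₁| ≤ (Y : ℤ) ^ (C₁ + 2) := by
    have h1 : (D.W * q₁ : ℤ) = r - ω * (D.a D.o * D.n₀ + D.b D.o) := by linarith
    rw [h1]
    have h2 : (1 : ℤ) ≤ (Y : ℤ) ^ C₁ := one_le_pow₀ hY1
    calc |r - ω * (D.a D.o * D.n₀ + D.b D.o)| ≤ |r| + |ω * (D.a D.o * D.n₀ + D.b D.o)| :=
          abs_sub _ _
      _ ≤ (Y : ℤ) ^ C₁ + Y := add_le_add (by rwa [abs_of_pos hr]) (hAl.trans hAY)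
      _ ≤ (Y : ℤ) ^ C₁ * (Y : ℤ) ^ 2 := by
          have h3 : (Y : ℤ) + 1 ≤ (Y : ℤ) ^ 2 := v3 hYr
          have h4 : (0 : ℤ) ≤ ((Y : ℤ) ^ C₁ - 1) * ((Y : ℤ) ^ 2 - 1) :=
            mul_nonneg (by linarith) (by linarith)
          linarith
      _ = (Y : ℤ) ^ (C₁ + 2) := by ring
  have hbK : ∀ j, |D.b j| ≤ (Y : ℤ) := fun j => (D.hKb j).trans hKYz
  have haK : ∀ j, D.a j ≤ (Y : ℤ) := fun j => (D.hKa j).trans hKYz
  have hprod1 : ∀ z : ℤ, |z| ≤ (Y : ℤ) → |D.W * q₁ * z| ≤ (Y : ℤ) ^ E := by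
    intro z hz
    rw [abs_mul]
    calc |D.W * q₁| * |z| ≤ (Y : ℤ) ^ (C₁ + 2) * Y := by gcongr
      _ = (Y : ℤ) ^ (C₁ + 3) := by ring
      _ ≤ (Y : ℤ) ^ E := pow_le_pow_right₀ hY1 (by omega)
  have hprod2 : ∀ z : ℤ, |z| ≤ (Y : ℤ) → |s * (D.W * z)| ≤ (Y : ℤ) ^ E := by
    intro z hz
    rw [abs_mul, abs_mul, abs_of_nonneg hs0, abs_of_pos hW0]
    calc s * (D.W * |z|) ≤ (Y : ℤ) ^ e * (Y * Y) := by
          gcongr
          exact hsP.le.trans hPle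
      _ = (Y : ℤ) ^ (e + 2) := by ring
      _ ≤ (Y : ℤ) ^ E := pow_le_pow_right₀ hY1 (by omega)
  have hu3 : |u| ≤ 3 * (Y : ℤ) ^ E := by
    have h1 := hprod1 x₁ (hAx.trans hAY)
    have h2 := hprod2 (D.b D.o) (hbK _)
    have h3 : |ω * D.n₀| ≤ (Y : ℤ) ^ E := (hAn.trans hAY).trans hpE1
    calc |u| ≤ |ω * D.n₀ + D.W * q₁ * x₁| + |s * (D.W * D.b D.o)| := abs_sub _ _
      _ ≤ |ω * D.n₀| + |D.W * q₁ * x₁| + |s * (D.W * D.b D.o)| := by
          gcongr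
          exact abs_add_le _ _
      _ ≤ 3 * (Y : ℤ) ^ E := by linarith
  have hw3 : |w| ≤ 3 * (Y : ℤ) ^ E := by
    have h1 := hprod1 y₁ (hAy.trans hAY)
    have h2 := hprod2 (D.a D.o) (by rw [abs_of_pos (D.ha _)]; exact haK _)
    have h3 : |ω| ≤ (Y : ℤ) ^ E := (hAω.trans hAY).trans hpE1
    calc |w| ≤ |ω + D.W * q₁ * y₁| + |s * (D.W * D.a D.o)| := abs_add_le _ _
      _ ≤ |ω| + |D.W * q₁ * y₁| + |s * (D.W * D.a D.o)| := by
          gcongr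
          exact abs_add_le _ _
      _ ≤ 3 * (Y : ℤ) ^ E := by linarith
  -- the sieve
  obtain ⟨t, ht0, ht1, ht⟩ := ta_forms D C₂ hC₂ Y hY2 hKY δ ω v q₁ x₁ y₁ s P u w hWδ hω
    hPrough hu hw (8 * (Y : ℤ) ^ (E + 1) + 1)
  have htpos : 0 < t := by
    have : (0 : ℤ) < (Y : ℤ) ^ (E + 1) := by positivity
    linarith
  have hLsmall : ∀ j, ∀ α β : ℤ, |α| ≤ D.B → |β| ≤ D.B →
      |D.L j (u + α * δ) (w + β * δ)| ≤ 8 * (Y : ℤ) ^ (E + 1) := by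
    intro j α β hα hβ
    have h1 : ∀ γ : ℤ, |γ| ≤ D.B → |γ * δ| ≤ (Y : ℤ) ^ E := by
      intro γ hγ
      rw [abs_mul, abs_of_pos hδ]
      calc |γ| * δ ≤ D.B * (Y : ℤ) ^ C₁ := by gcongr
        _ ≤ Y * (Y : ℤ) ^ C₁ := by gcongr; linarith
        _ = (Y : ℤ) ^ (C₁ + 1) := by ring
        _ ≤ (Y : ℤ) ^ E := pow_le_pow_right₀ hY1 (by omega)
    have h2 : |u + α * δ| ≤ 4 * (Y : ℤ) ^ E := by
      have := abs_add_le u (α * δ)
      have := h1 α hα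
      linarith
    have h3 : |w + β * δ| ≤ 4 * (Y : ℤ) ^ E := by
      have := abs_add_le w (β * δ)
      have := h1 β hβ
      linarith
    calc |D.L j (u + α * δ) (w + β * δ)|
        ≤ |D.a j * (u + α * δ)| + |D.b j * (w + β * δ)| := abs_add_le _ _
      _ = D.a j * |u + α * δ| + |D.b j| * |w + β * δ| := by
          rw [abs_mul, abs_mul, abs_of_pos (D.ha j)]
      _ ≤ Y * (4 * (Y : ℤ) ^ E) + Y * (4 * (Y : ℤ) ^ E) := by
          have := haK j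
          have := hbK j
          gcongr
      _ = 8 * (Y : ℤ) ^ (E + 1) := by ring
  have hYC : (1 : ℤ) ≤ (Y : ℤ) ^ C₂ := one_le_pow₀ hY1
  have htle : t ≤ 10 * (Y : ℤ) ^ (E + 1 + C₂) := by
    have h1 : (1 : ℤ) ≤ (Y : ℤ) ^ (E + 1) := one_le_pow₀ hY1
    have h2 : (Y : ℤ) ^ (E + 1 + C₂) = (Y : ℤ) ^ (E + 1) * (Y : ℤ) ^ C₂ := pow_add _ _ _
    rw [h2]
    exact v8 ht1 h1 hYC
  have hfinal : ∀ z x : ℤ, |z| ≤ (Y : ℤ) → |x| ≤ 3 * (Y : ℤ) ^ E →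
      |x + t * P * (D.W * z)| ≤ (Y : ℤ) ^ (E + 4 + C₂ + e) := by
    intro z x hz hx
    have h1 : |t * P * (D.W * z)| ≤ 10 * (Y : ℤ) ^ (E + 3 + C₂ + e) := by
      rw [abs_mul, abs_mul, abs_mul, abs_of_pos htpos, abs_of_pos hPpos, abs_of_pos hW0]
      calc t * P * (D.W * |z|)
          ≤ (10 * (Y : ℤ) ^ (E + 1 + C₂)) * (Y : ℤ) ^ e * (Y * Y) := by gcongr
        _ = 10 * (Y : ℤ) ^ (E + 3 + C₂ + e) := by ring
    have h2 : (Y : ℤ) ^ E ≤ (Y : ℤ) ^ (E + 3 + C₂ + e) := pow_le_pow_right₀ hY1 (by omega)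
    have h3 : (Y : ℤ) ^ (E + 4 + C₂ + e) = (Y : ℤ) ^ (E + 3 + C₂ + e) * Y := by ring
    have h4 : (0 : ℤ) < (Y : ℤ) ^ (E + 3 + C₂ + e) := by positivity
    have h5 := abs_add_le x (t * P * (D.W * z))
    rw [h3]
    exact v9 (h5.trans (add_le_add hx h1)) h2 h4 hYr
  refine ⟨u + t * P * (D.W * (-D.b D.o)), w + t * P * (D.W * D.a D.o), ?_, ?_, ?_, ?_⟩
  · exact hfinal _ _ (by rw [abs_neg]; exact hbK _) hu3
  · exact hfinal _ _ (by rw [abs_of_pos (D.ha _)]; exact haK _) hw3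
  · simp only [Sys.L]
    rw [hu, hw]
    linear_combination (D.W * q₁ : ℤ) * hxy - hq
  · intro α β hα hβ h0 h1
    refine ta_good D Y hKY r δ ω v q₁ x₁ y₁ (s + t * P) P _ _ hWδ hrδ hr hδ hrough hω hq hxy
      hPdvd (by rw [hu]; ring) (by rw [hw]; ring) ?_ α β hβ h0 h1 ?_
    · have h2 : w + t * P * (D.W * D.a D.o) - (D.B + 1) * δ =
          (w - (D.B + 1) * δ) + P * (t * (D.W * D.a D.o)) := by ring
      rw [h2]
      exact dvd_add hPw (dvd_mul_right _ _)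
    · intro j hjS hjo
      have h2 : D.L j (u + t * P * (D.W * (-D.b D.o)) + α * δ)
          (w + t * P * (D.W * D.a D.o) + β * δ) =
          D.W * P * (D.a D.o * D.b j - D.a j * D.b D.o) * t
            + D.L j (u + α * δ) (w + β * δ) := by
        simp only [Sys.L]
        ring
      rw [h2]
      refine ⟨?_, ht j hjS hjo α β hα hβ⟩
      have h3 := abs_le.mp (hLsmall j α β hα hβ)
      have h4 : (1 : ℤ) ≤ D.W * P * (D.a D.o * D.b j - D.a j * D.b D.o) := by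
        have := D.hmin j hjS hjo
        have : 0 < D.W * P * (D.a D.o * D.b j - D.a j * D.b D.o) := by positivity
        exact this
      exact v10 h4 ht0 (by positivity) h3.1

end Pool.Agent.H661R4.RM
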