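import Pool.Agent.H661R4.RM.Defs

set_option autoImplicit false

open Finset
open Pool.Agent.H661R3.OP (Rough SV CR PAP)

namespace Pool.Agent.H661R4.RM

theorem t_TB (hTA : TA) (hL : LINK) : L3 := by
  classical
  intro ι _ md rb D C₁
  obtain ⟨CA, YA, hA⟩ := hTA ι md rb D C₁
  obtain ⟨CL, YL, hLk⟩ := hL ι md rb D (CA + C₁ + 1)
  refine ⟨CL, max (max YA YL) (D.B + 2), fun F hF c Y Z hY hFew r δ hr0 hr hδ0 hδ hWδ hWr hcop
    hrough => ?_⟩
  have hYA : YA ≤ Y := le_trans (le_trans (le_max_left _ _) (le_max_left _ _)) hY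
  have hYL : YL ≤ Y := le_trans (le_trans (le_max_right _ _) (le_max_left _ _)) hY
  have hYB : D.B + 2 ≤ Y := le_trans (le_max_right _ _) hY
  obtain ⟨u, w, hu, hw, huw, hgood⟩ := hA Y hYA r δ hr0 hr hδ0 hδ hWδ hWr hcop hrough
  have hYBZ : (D.B : ℤ) + 2 ≤ Y := by exact_mod_cast hYB
  have hY1 : (1 : ℤ) ≤ Y := by
    have : (0 : ℤ) ≤ D.B := Int.natCast_nonneg _
    linarith
  have size : ∀ x α : ℤ, |x| ≤ (Y : ℤ) ^ CA → |α| ≤ D.B →
      |x + α * δ| ≤ (Y : ℤ) ^ (CA + C₁ + 1) := by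
    intro x α hx hα
    have h1 : |x + α * δ| ≤ |x| + |α| * δ := by
      calc |x + α * δ| ≤ |x| + |α * δ| := abs_add_le _ _
        _ = |x| + |α| * δ := by rw [abs_mul, abs_of_pos hδ0]
    have h2 : |α| * δ ≤ (D.B : ℤ) * (Y : ℤ) ^ C₁ :=
      mul_le_mul hα hδ hδ0.le (Int.natCast_nonneg _)
    have h3 : (Y : ℤ) ^ CA ≤ (Y : ℤ) ^ (CA + C₁) := pow_le_pow_right₀ hY1 (by omega)
    have h4 : (Y : ℤ) ^ C₁ ≤ (Y : ℤ) ^ (CA + C₁) := pow_le_pow_right₀ hY1 (by omega)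
    have h5 : (D.B : ℤ) * (Y : ℤ) ^ C₁ ≤ (D.B : ℤ) * (Y : ℤ) ^ (CA + C₁) :=
      mul_le_mul_of_nonneg_left h4 (Int.natCast_nonneg _)
    have h6 : (0 : ℤ) < (Y : ℤ) ^ (CA + C₁) := by positivity
    have h7 : (Y : ℤ) ^ (CA + C₁ + 1) = (Y : ℤ) ^ (CA + C₁) * Y := pow_succ _ _
    rw [h7]
    nlinarith
  set reg : ℤ → ℤ → Prop := fun α β => |α| ≤ D.B ∧ |β| ≤ D.B ∧ 0 ≤ D.L D.o α β ∧
    D.L D.o α β ≤ D.B with hreg
  have indep : ∀ α α' β : ℤ, reg α β → reg α' β →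
      D.R F (u + α * δ) (w + β * δ) = D.R F (u + α' * δ) (w + β * δ) := by
    intro α α' β h1 h2
    exact hLk F hF c Y Z hYL hFew _ _ _ (size u α hu h1.1) (size u α' hu h2.1)
      (size w β hw h1.2.1) (hgood α β h1.1 h1.2.1 h1.2.2.1 h1.2.2.2)
      (hgood α' β h2.1 h2.2.1 h2.2.2.1 h2.2.2.2)
  have hel := D.helim (fun i m => F (D.L i u w + m * δ))
    (fun β => if h : ∃ α, reg α β then D.R F (u + h.choose * δ) (w + β * δ) else 0) (by
      intro α β hα hβ h0 h1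
      have hr1 : reg α β := ⟨hα, hβ, h0, h1⟩
      have hex : ∃ α, reg α β := ⟨α, hr1⟩
      rw [dif_pos hex, ← indep α hex.choose β hr1 hex.choose_spec]
      unfold Sys.R
      apply Finset.sum_congr rfl
      intro i _
      congr 1
      unfold Sys.L
      ring)
  rw [huw] at hel
  rw [zero_mul, add_zero] at hel
  exact hel

end Pool.Agent.H661R4.RM
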