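import Pool.Agent.H661R3.OP.CR
import Pool.Agent.H661R3.OP.SV
import Pool.Agent.H661R3.OP.PAP
import Pool.Agent.H661R4.RM.GA
import Pool.Agent.H661R4.RM.GB
import Pool.Agent.H661R4.RM.LA
import Pool.Agent.H661R4.RM.LK
import Pool.Agent.H661R4.RM.TA
import Pool.Agent.H661R4.RM.TB
import Pool.Agent.H661R4.RM.FN
import Pool.Agent.H661R4.RM.ITD
import Pool.Agent.H661R4.RM.EL
import Pool.Agent.H661R4.RM.SU
import Pool.Agent.H661R4.RM.M0
import Pool.Agent.H661R4.RM.FI

set_option autoImplicit false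

namespace Pool.Agent.H661R4.RM

open Pool.Agent.H661R3.OP (t_SV t_CR t_PAP)

theorem grid : GRID := t_GB t_SV t_CR t_GA

theorem link : LINK := t_LK (t_LA t_SV t_CR) grid

theorem l3 : L3 := t_TB (t_TA t_SV t_CR) link

theorem fin : FIN := t_FN t_SV t_CR l3

theorem setup : SETUP := t_SU (t_EL t_ITD)

theorem main0 : MAIN0 := t_M0 fin setup

theorem final : FINAL := t_FI main0 t_PAP

end Pool.Agent.H661R4.RM
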