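import Pool.Agent.H661R4.RM.Defs
import Pool.Agent.H661R3.OP.Cor

set_option autoImplicit false

open Finset
open Pool.Agent.H661R3.OP (Rough SV CR PAP)

namespace Pool.Agent.H661R4.RM

open ArithmeticFunction in
theorem card_le3 (m : ℕ) (hm : 0 < m) (x δ : ℝ) (hx : 1 < x) (hδ : 0 < δ) (R : ℕ)
    (hR : 3 / δ ≤ R) (hmx : (m : ℝ) ≤ x ^ 3)
    (h : ∀ p : ℕ, p.Prime → p ∣ m → x ^ δ < p) : cardFactors m ≤ R := by
  have hx0 : 0 < x := by linarith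
  have e1 : (x ^ (3 / 2 : ℝ)) ^ (2 * δ / 3) = x ^ δ := by
    rw [← Real.rpow_mul hx0.le]
    congr 1
    ring
  have e2 : (x ^ (3 / 2 : ℝ)) ^ 2 = x ^ 3 := by
    rw [← Real.rpow_natCast, ← Real.rpow_mul hx0.le, ← Real.rpow_natCast]
    norm_num
  refine Pool.Agent.H661R3.OP.card_le m hm (x ^ (3 / 2 : ℝ)) (2 * δ / 3)
    (Real.one_lt_rpow hx (by norm_num)) (by positivity) R ?_ ?_ ?_
  · have : 2 / (2 * δ / 3) = 3 / δ := by
      field_simp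
    rw [this]; exact hR
  · rw [e2]; exact hmx
  · intro p hp hpd
    rw [e1]; exact h p hp hpd

/-- the final theorem with a bound for the number of prime factors -/
theorem genB (hF : FINAL) (ι : Type) [Fintype ι] (md rb : ℕ) (a b : ι → ℤ) (S : Finset ι)
    (ha : ∀ i, 0 < a i) (hdet : ∀ i j, i ≠ j → a i * b j - a j * b i ≠ 0)
    (hmd : 1 < md) (hS : Nat.Coprime S.card md) (ε : ℝ) (hε : 0 < ε) :
    ∃ (R : ℕ) (δ : ℝ), 0 < δ ∧ ∃ x₀ : ℝ, ∀ x : ℝ, x₀ ≤ x → ∀ e f : Fin rb → ℤ,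
    (∀ k, |(e k : ℝ)| ≤ x ∧ |(f k : ℝ)| ≤ x ^ 2) →
    (∀ p : ℕ, p.Prime → ∃ n : ℤ, (∀ i, ¬ (p : ℤ) ∣ a i * n + b i) ∧
      ∀ k, ¬ (p : ℤ) ∣ e k * n + f k) → ∀ s : ℕ,
    x ^ (1 - ε) ≤ ({n : ℕ | 0 < n ∧ (n : ℝ) ≤ x ∧
      (∀ i, 0 < a i * n + b i ∧ ArithmeticFunction.cardFactors (a i * n + b i).natAbs ≤ R ∧
        ∀ p : ℕ, p.Prime → (p : ℤ) ∣ a i * n + b i → x ^ δ < p) ∧
      (∀ k, e k * n + f k ≠ 0 ∧ ArithmeticFunction.cardFactors (e k * n + f k).natAbs ≤ R ∧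
        ∀ p : ℕ, p.Prime → (p : ℤ) ∣ e k * n + f k → x ^ δ < p) ∧
      ¬ (∑ i ∈ S, ArithmeticFunction.cardFactors (a i * n + b i).natAbs) ≡ s [MOD md]}.ncard : ℝ)
      := by
  classical
  obtain ⟨δ, hδ, x₀, hx⟩ := hF ι md rb a b S ha hdet hmd hS ε hε
  obtain ⟨R, hR⟩ := exists_nat_ge (3 / δ)
  have hlim : ∀ᶠ x : ℝ in Filter.atTop, (2 : ℝ) < x ^ δ :=
    (tendsto_rpow_atTop hδ).eventually_gt_atTop _
  obtain ⟨x₁, hx₁⟩ := Filter.eventually_atTop.mp hlim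
  refine ⟨R, δ, hδ, max (max x₀ x₁) (2 + ∑ i, ((a i : ℝ) + |(b i : ℝ)|)), fun x hxx e f hef hadm s => ?_⟩
  have hx1 : x₀ ≤ x := (le_max_left _ _).trans ((le_max_left _ _).trans hxx)
  have hx1' : x₁ ≤ x := (le_max_right _ _).trans ((le_max_left _ _).trans hxx)
  have hxδ := hx₁ x hx1'
  have hx2 : 2 + ∑ i, ((a i : ℝ) + |(b i : ℝ)|) ≤ x := (le_max_right _ _).trans hxx
  have hnn : ∀ i ∈ (Finset.univ : Finset ι), (0 : ℝ) ≤ (a i : ℝ) + |(b i : ℝ)| := by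
    intro i _
    have : (0 : ℝ) < a i := by exact_mod_cast ha i
    positivity
  have hs0 : 0 ≤ ∑ i, ((a i : ℝ) + |(b i : ℝ)|) := Finset.sum_nonneg hnn
  have hx3 : 1 < x := by linarith
  have hx4 : 2 ≤ x := by linarith
  have hbd : ∀ i, (a i : ℝ) + |(b i : ℝ)| ≤ x := by
    intro i
    have := Finset.single_le_sum hnn (Finset.mem_univ i)
    linarith
  have hx23 : x ^ 2 * 2 ≤ x ^ 3 := by nlinarith [sq_nonneg x]
  have hsz : ∀ n : ℕ, (n : ℝ) ≤ x → 0 < n → ∀ i, 0 < a i * n + b i →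
      (((a i * n + b i).natAbs : ℕ) : ℝ) ≤ x ^ 3 := by
    intro n hn hn0 i hi
    have h1 : (((a i * n + b i).natAbs : ℕ) : ℝ) = (a i : ℝ) * n + b i := by
      have : (((a i * n + b i).natAbs : ℕ) : ℤ) = a i * n + b i := Int.natAbs_of_nonneg hi.le
      have h2 : ((((a i * n + b i).natAbs : ℕ) : ℤ) : ℝ) = ((a i * n + b i : ℤ) : ℝ) := by
        rw [this]
      push_cast at h2
      simpa using h2
    rw [h1]
    have ha' : (0 : ℝ) < a i := by exact_mod_cast ha i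
    have hn1 : (1 : ℝ) ≤ n := by exact_mod_cast hn0
    have hb' : (b i : ℝ) ≤ |(b i : ℝ)| := le_abs_self _
    have hb0 : 0 ≤ |(b i : ℝ)| := abs_nonneg _
    have h3 : (a i : ℝ) * n + b i ≤ ((a i : ℝ) + |(b i : ℝ)|) * n := by nlinarith
    have h4 : ((a i : ℝ) + |(b i : ℝ)|) * n ≤ x * x :=
      mul_le_mul (hbd i) hn (by linarith) (by linarith)
    nlinarith [sq_nonneg x]
  have hszb : ∀ n : ℕ, (n : ℝ) ≤ x → ∀ k,
      (((e k * n + f k).natAbs : ℕ) : ℝ) ≤ x ^ 3 := by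
    intro n hn k
    obtain ⟨h1, h2⟩ := hef k
    have h3 : (((e k * n + f k).natAbs : ℕ) : ℝ) = |(e k : ℝ) * n + f k| := by
      rw [Nat.cast_natAbs]
      push_cast
      rfl
    rw [h3]
    have h4 : |(e k : ℝ) * n + f k| ≤ |(e k : ℝ)| * n + |(f k : ℝ)| := by
      refine (abs_add_le _ _).trans ?_
      rw [abs_mul, Nat.abs_cast]
    have h5 : |(e k : ℝ)| * n ≤ x * x := mul_le_mul h1 hn (by positivity) (by linarith)
    nlinarith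
  have hcf : ∀ n : ℕ, (n : ℝ) ≤ x → 0 < n → ∀ i, 0 < a i * n + b i →
      (∀ p : ℕ, p.Prime → (p : ℤ) ∣ a i * n + b i → x ^ δ < p) →
      ArithmeticFunction.cardFactors (a i * n + b i).natAbs ≤ R := by
    intro n hn hn0 i hi hp
    refine card_le3 _ (by omega) x δ hx3 hδ R hR (hsz n hn hn0 i hi) ?_
    intro p hpp hpd
    exact hp p hpp (Int.natCast_dvd.2 hpd)
  have hb0 : ∀ n : ℕ, ∀ k, (∀ p : ℕ, p.Prime → (p : ℤ) ∣ e k * n + f k → x ^ δ < p) →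
      e k * n + f k ≠ 0 := by
    intro n k hp h0
    have := hp 2 Nat.prime_two (by rw [h0]; exact dvd_zero _)
    push_cast at this
    linarith
  have hcb : ∀ n : ℕ, (n : ℝ) ≤ x → ∀ k,
      (∀ p : ℕ, p.Prime → (p : ℤ) ∣ e k * n + f k → x ^ δ < p) →
      ArithmeticFunction.cardFactors (e k * n + f k).natAbs ≤ R := by
    intro n hn k hp
    have h0 := hb0 n k hp
    refine card_le3 _ (by omega) x δ hx3 hδ R hR (hszb n hn k) ?_
    intro p hpp hpd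
    exact hp p hpp (Int.natCast_dvd.2 hpd)
  have := hx x hx1 e f hadm (s : ZMod md)
  refine this.trans (le_of_eq ?_)
  congr 2
  ext n
  simp only [Set.mem_setOf_eq, ne_eq, ZMod.natCast_eq_natCast_iff]
  constructor
  · rintro ⟨h1, h2, h3, h4, h5⟩
    exact ⟨h1, h2, fun i => ⟨(h3 i).1, hcf n h2 h1 i (h3 i).1 (h3 i).2, (h3 i).2⟩,
      fun k => ⟨hb0 n k (h4 k), hcb n h2 k (h4 k), h4 k⟩, h5⟩
  · rintro ⟨h1, h2, h3, h4, h5⟩
    exact ⟨h1, h2, fun i => ⟨(h3 i).1, (h3 i).2.2⟩, fun k => (h4 k).2.2, h5⟩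

end Pool.Agent.H661R4.RM
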