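import Pool.Agent.H661R4.RM.GenB

set_option autoImplicit false

open Finset

namespace Pool.Agent.H661R4.RM

/-- pairs with an even difference -/
theorem pairs (hF : FINAL) (h : ℕ) (hh : Even h) (h0 : 0 < h) (m : ℕ) (hm : 1 < m) (hodd : Odd m)
    (ε : ℝ) (hε : 0 < ε) :
    ∃ (R : ℕ) (δ : ℝ), 0 < δ ∧ ∃ x₀ : ℝ, ∀ x : ℝ, x₀ ≤ x → ∀ c : ℕ,
    x ^ (1 - ε) ≤ ({n : ℕ | 0 < n ∧ (n : ℝ) ≤ x ∧
      ArithmeticFunction.cardFactors (n * (n + h)) ≤ R ∧
      (∀ p : ℕ, p.Prime → p ∣ n * (n + h) → x ^ δ < p) ∧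
      ¬ ArithmeticFunction.cardFactors (n * (n + h)) ≡ c [MOD m]}.ncard : ℝ) := by
  classical
  set a : Fin 2 → ℤ := ![1, 1] with ha
  set b : Fin 2 → ℤ := ![0, (h : ℤ)] with hb
  have hne : (h : ℤ) ≠ 0 := by exact_mod_cast h0.ne'
  obtain ⟨R, δ, hδ, x₀, hx⟩ := genB hF (Fin 2) m 0 a b Finset.univ
    (by intro i; fin_cases i <;> simp [ha])
    (by
      intro i j hij
      fin_cases i <;> fin_cases j <;> simp [ha, hb] at hij ⊢ <;> omega)
    hm (by
      rw [Finset.card_univ, Fintype.card_fin]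
      exact (Nat.coprime_two_left).2 hodd) ε hε
  refine ⟨R + R, δ, hδ, x₀, fun x hxx c => ?_⟩
  have hloc : ∀ p : ℕ, p.Prime → ∃ n : ℤ, ¬ (p : ℤ) ∣ n ∧ ¬ (p : ℤ) ∣ n + h := by
    intro p hp
    have h1 : ¬ (p : ℤ) ∣ 1 := by
      intro h
      have := Int.isUnit_iff_natAbs_eq.1 (isUnit_of_dvd_one h)
      rw [Int.natAbs_natCast] at this
      exact hp.one_lt.ne' this
    by_cases hd : (p : ℤ) ∣ 1 + h
    · refine ⟨2, ?_, ?_⟩
      · intro h2
        have h3 : p = 2 := by
          have : (p : ℤ) ∣ ((2 : ℕ) : ℤ) := by exact_mod_cast h2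
          exact (Nat.prime_dvd_prime_iff_eq hp Nat.prime_two).1 (Int.natCast_dvd_natCast.1 this)
        subst h3
        obtain ⟨t, ht⟩ := hh
        have h2c : ((2 : ℕ) : ℤ) = 2 := rfl
        rw [h2c] at hd
        omega
      · intro h2
        apply h1
        have : (1 : ℤ) = (2 + h) - (1 + h) := by ring
        rw [this]
        exact dvd_sub h2 hd
    · exact ⟨1, h1, hd⟩
  have hh' := hx x hxx (fun _ => 0) (fun _ => 1) (fun k => k.elim0) (by
    intro p hp
    obtain ⟨n, hn1, hn2⟩ := hloc p hp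
    refine ⟨n, ?_, fun k => k.elim0⟩
    intro i
    fin_cases i
    · simpa [ha, hb] using hn1
    · simpa [ha, hb] using hn2) c
  refine hh'.trans ?_
  apply Nat.cast_le.2
  apply Set.ncard_le_ncard
  · rintro n ⟨h1, h2, h3, -, h5⟩
    have e0 : (a 0 * n + b 0).natAbs = n := by
      simp only [ha, hb, Matrix.cons_val_zero]
      omega
    have e1 : (a 1 * n + b 1).natAbs = n + h := by
      simp only [ha, hb, Matrix.cons_val_one, Matrix.cons_val_zero]
      omega
    have h30 := h3 0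
    have h31 := h3 1
    rw [e0] at h30
    rw [e1] at h31
    rw [Fin.sum_univ_two, e0, e1] at h5
    have hmul : ArithmeticFunction.cardFactors (n * (n + h)) =
        ArithmeticFunction.cardFactors n + ArithmeticFunction.cardFactors (n + h) :=
      ArithmeticFunction.cardFactors_mul (by omega) (by omega)
    refine ⟨h1, h2, ?_, ?_, ?_⟩
    · rw [hmul]
      exact Nat.add_le_add h30.2.1 h31.2.1
    · intro p hp hpd
      rcases (Nat.Prime.dvd_mul hp).1 hpd with hd | hd
      · apply h30.2.2 p hp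
        rw [← e0] at hd
        exact Int.natCast_dvd.2 hd
      · apply h31.2.2 p hp
        rw [← e1] at hd
        exact Int.natCast_dvd.2 hd
    · rw [hmul]; exact h5
  · apply (Set.finite_Iic ⌊x⌋₊).subset
    intro n hn
    exact Nat.le_floor hn.2.1

end Pool.Agent.H661R4.RM
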