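import Pool.Agent.H661R4.RM.GenB

set_option autoImplicit false

open Finset

namespace Pool.Agent.H661R4.RM

/-- avoiding four classes modulo a prime `p ≥ 5` -/
theorem avoid4 (p : ℕ) (hp : p.Prime) (h5 : 5 ≤ p) (a b c d : ℤ) :
    ∃ n : ℤ, ¬ (p : ℤ) ∣ n - a ∧ ¬ (p : ℤ) ∣ n - b ∧ ¬ (p : ℤ) ∣ n - c ∧ ¬ (p : ℤ) ∣ n - d := by
  classical
  have : NeZero p := ⟨hp.pos.ne'⟩
  set s : Finset (ZMod p) := {(a : ZMod p), (b : ZMod p), (c : ZMod p), (d : ZMod p)} with hs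
  have hcard : s.card < (Finset.univ : Finset (ZMod p)).card := by
    rw [Finset.card_univ, ZMod.card]
    exact lt_of_le_of_lt Finset.card_le_four (by omega)
  obtain ⟨z, -, hz⟩ := Finset.exists_mem_notMem_of_card_lt_card hcard
  have key : ∀ y : ℤ, (y : ZMod p) ∈ s → ¬ (p : ℤ) ∣ ((z.val : ℕ) : ℤ) - y := by
    intro y hy hd
    have h1 := (ZMod.intCast_zmod_eq_zero_iff_dvd _ p).2 hd
    push_cast at h1
    rw [ZMod.natCast_val, ZMod.cast_id', id, sub_eq_zero] at h1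
    rw [h1] at hz
    exact hz hy
  exact ⟨((z.val : ℕ) : ℤ), key a (by simp [hs]), key b (by simp [hs]), key c (by simp [hs]),
    key d (by simp [hs])⟩

theorem st_one (hF : FINAL) (m : ℕ) (hm : 1 < m) (hodd : Odd m) (ε : ℝ) (hε : 0 < ε) (σ : ℤ)
    (hσ : σ ≠ 0) : ∃ (R : ℕ) (δ : ℝ), 0 < δ ∧ ∃ N₀ : ℕ, ∀ N : ℕ, N₀ ≤ N → ∀ τ : ℤ, |τ| ≤ 2 →
    (∀ p : ℕ, p.Prime → ∃ n : ℤ, ¬ (p : ℤ) ∣ n ∧ ¬ (p : ℤ) ∣ n + σ ∧ ¬ (p : ℤ) ∣ N - n ∧
      ¬ (p : ℤ) ∣ N - n + τ) → ∀ c : ℕ,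
    (N : ℝ) ^ (1 - ε) ≤ ({n : ℕ | 0 < n ∧ 2 * n ≤ N ∧
      (∀ v ∈ ({(n : ℤ), (n : ℤ) + σ, (N : ℤ) - n, (N : ℤ) - n + τ} : Set ℤ), 0 < v ∧
        ArithmeticFunction.cardFactors v.natAbs ≤ R ∧
        ∀ p : ℕ, p.Prime → (p : ℤ) ∣ v → (N : ℝ) ^ δ < p) ∧
      ¬ (ArithmeticFunction.cardFactors n + ArithmeticFunction.cardFactors (n + σ).natAbs) ≡
        c [MOD m]}.ncard : ℝ) := by
  classical
  set e : ℝ := min ε 1 with he
  have he0 : 0 < e := lt_min hε one_pos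
  have he1 : e ≤ 1 := min_le_right _ _
  have heε : e ≤ ε := min_le_left _ _
  set a : Fin 2 → ℤ := ![1, 1] with ha
  set b : Fin 2 → ℤ := ![0, σ] with hb
  obtain ⟨R, δ, hδ, x₀, hx⟩ := genB hF (Fin 2) m 2 a b Finset.univ
    (by intro i; fin_cases i <;> simp [ha])
    (by
      intro i j hij
      fin_cases i <;> fin_cases j <;> simp [ha, hb] at hij ⊢ <;> exact hσ)
    hm (by
      rw [Finset.card_univ, Fintype.card_fin]
      exact (Nat.coprime_two_left).2 hodd) (e / 2) (by positivity)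
  have hlim : ∀ᶠ x : ℝ in Filter.atTop, (2 : ℝ) ≤ x ^ (e / 2) :=
    (tendsto_rpow_atTop (by positivity)).eventually_ge_atTop _
  obtain ⟨x₁, hx₁⟩ := Filter.eventually_atTop.mp hlim
  refine ⟨R, δ / 2, by positivity, ⌈max (2 * x₀) x₁⌉₊ + 16, fun N hN τ hτ hadm c => ?_⟩
  have hN1 : (⌈max (2 * x₀) x₁⌉₊ : ℝ) + 16 ≤ (N : ℝ) := by exact_mod_cast hN
  have hN2 := Nat.le_ceil (max (2 * x₀) x₁)
  have hN3 : 2 * x₀ ≤ N := (le_max_left _ _).trans (by linarith)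
  have hN4 : x₁ ≤ N := (le_max_right _ _).trans (by linarith)
  have hN16 : (16 : ℝ) ≤ N := by
    have : (0 : ℝ) ≤ (⌈max (2 * x₀) x₁⌉₊ : ℝ) := Nat.cast_nonneg _
    linarith
  have hN16' : 16 ≤ N := by exact_mod_cast hN16
  have hN0 : (0 : ℝ) < N := by linarith
  have hτ' := abs_le.1 hτ
  have hτr : |(τ : ℝ)| ≤ 2 := by exact_mod_cast hτ
  have h := hx ((N : ℝ) / 2) (by linarith) (fun _ => -1) ![(N : ℤ), N + τ] (by
    intro k
    have h2 : (N : ℝ) + 2 ≤ ((N : ℝ) / 2) ^ 2 := by nlinarith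
    constructor
    · simp only [Int.cast_neg, Int.cast_one, abs_neg, abs_one]; linarith
    · fin_cases k
      · simp only [Fin.zero_eta, Matrix.cons_val_zero, Int.cast_natCast, Nat.abs_cast]; linarith
      · simp only [Fin.mk_one, Matrix.cons_val_one, Matrix.cons_val_zero, Int.cast_add,
          Int.cast_natCast]
        have h3 := abs_add_le (N : ℝ) τ
        rw [Nat.abs_cast] at h3
        linarith) (by
    intro p hp
    obtain ⟨n, h1, h2, h3, h4⟩ := hadm p hp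
    refine ⟨n, ?_, ?_⟩
    · intro i
      fin_cases i
      · simpa [ha, hb] using h1
      · simpa [ha, hb] using h2
    · intro k
      fin_cases k
      · have e1 : (-1 : ℤ) * n + N = N - n := by ring
        simp only [Fin.zero_eta, Matrix.cons_val_zero]
        rw [e1]; exact h3
      · have e1 : (-1 : ℤ) * n + (N + τ) = N - n + τ := by ring
        simp only [Fin.mk_one, Matrix.cons_val_one, Matrix.cons_val_zero]
        rw [e1]; exact h4) c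
  have hpow : (N : ℝ) ^ (1 - ε) ≤ ((N : ℝ) / 2) ^ (1 - e / 2) := by
    have h1 := hx₁ N hN4
    have h2 : (N : ℝ) ^ (1 - e / 2) = (N : ℝ) ^ (1 - e) * (N : ℝ) ^ (e / 2) := by
      rw [← Real.rpow_add hN0]; congr 1; ring
    have h3 : ((N : ℝ) / 2) ^ (1 - e / 2) = (N : ℝ) ^ (1 - e / 2) / 2 ^ (1 - e / 2) :=
      Real.div_rpow hN0.le (by norm_num) _
    have h4 : (2 : ℝ) ^ (1 - e / 2) ≤ 2 := by
      calc (2 : ℝ) ^ (1 - e / 2) ≤ 2 ^ (1 : ℝ) :=
            Real.rpow_le_rpow_of_exponent_le (by norm_num) (by linarith)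
        _ = 2 := Real.rpow_one 2
    have h5 : (0 : ℝ) < 2 ^ (1 - e / 2) := by positivity
    rw [h3, le_div_iff₀ h5, h2]
    have h6 : (N : ℝ) ^ (1 - ε) ≤ (N : ℝ) ^ (1 - e) :=
      Real.rpow_le_rpow_of_exponent_le (by linarith) (by linarith)
    have h7 : 0 ≤ (N : ℝ) ^ (1 - ε) := by positivity
    exact mul_le_mul h6 (h4.trans h1) h5.le (by positivity)
  have hδ2 : (N : ℝ) ^ (δ / 2) ≤ ((N : ℝ) / 2) ^ δ := by
    have h1 : (N : ℝ) ^ (δ / 2) = (Real.sqrt N) ^ δ := by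
      rw [Real.sqrt_eq_rpow, ← Real.rpow_mul hN0.le]; congr 1; ring
    rw [h1]
    apply Real.rpow_le_rpow (Real.sqrt_nonneg _) _ hδ.le
    rw [Real.sqrt_le_left (by linarith)]
    nlinarith
  refine hpow.trans (h.trans ?_)
  apply Nat.cast_le.2
  apply Set.ncard_le_ncard
  · rintro n ⟨h1, h2, h3, h4, h5⟩
    have h2' : 2 * n ≤ N := by
      have : 2 * (n : ℝ) ≤ N := by linarith
      exact_mod_cast this
    have e0 : a 0 * n + b 0 = n := by simp [ha, hb]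
    have e1 : a 1 * n + b 1 = n + σ := by simp [ha, hb]
    have h30 := h3 0
    have h31 := h3 1
    have h40 := h4 0
    have h41 := h4 1
    rw [e0] at h30
    rw [e1] at h31
    have f0 : (fun _ : Fin 2 => (-1 : ℤ)) 0 * (n : ℤ) + (![(N : ℤ), N + τ] : Fin 2 → ℤ) 0 = N - n := by
      simp only [Matrix.cons_val_zero]; ring
    have f1 : (fun _ : Fin 2 => (-1 : ℤ)) 1 * (n : ℤ) + (![(N : ℤ), N + τ] : Fin 2 → ℤ) 1 =
        N - n + τ := by
      simp only [Matrix.cons_val_one, Matrix.cons_val_zero]; ring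
    rw [f0] at h40
    rw [f1] at h41
    refine ⟨h1, h2', ?_, ?_⟩
    · intro v hv
      simp only [Set.mem_insert_iff, Set.mem_singleton_iff] at hv
      rcases hv with rfl | rfl | rfl | rfl
      · exact ⟨h30.1, h30.2.1, fun p hp hd => hδ2.trans_lt (h30.2.2 p hp hd)⟩
      · exact ⟨h31.1, h31.2.1, fun p hp hd => hδ2.trans_lt (h31.2.2 p hp hd)⟩
      · exact ⟨by omega, h40.2.1, fun p hp hd => hδ2.trans_lt (h40.2.2 p hp hd)⟩
      · exact ⟨by omega, h41.2.1, fun p hp hd => hδ2.trans_lt (h41.2.2 p hp hd)⟩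
    · rw [Fin.sum_univ_two, e0, e1, Int.natAbs_natCast] at h5
      exact h5
  · apply (Set.finite_Iic N).subset
    rintro n ⟨-, h2, -⟩
    simp only [Set.mem_Iic]
    omega

/-- sums of two members of twin pairs of almost primes -/
theorem sumTwins (hF : FINAL) (m : ℕ) (hm : 1 < m) (hodd : Odd m) (ε : ℝ) (hε : 0 < ε) :
    ∃ (R : ℕ) (δ : ℝ), 0 < δ ∧ ∃ N₀ : ℕ, ∀ N : ℕ, N₀ ≤ N → Even N → ∀ c : ℕ,
    (N : ℝ) ^ (1 - ε) ≤ ({p : ℕ | ∃ p' q q' : ℕ, p + q = N ∧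
      (p' = p + 2 ∨ p = p' + 2) ∧ (q' = q + 2 ∨ q = q' + 2) ∧
      (∀ v ∈ ({p, p', q, q'} : Set ℕ), 0 < v ∧ ArithmeticFunction.cardFactors v ≤ R ∧
        ∀ l : ℕ, l.Prime → l ∣ v → (N : ℝ) ^ δ < l) ∧
      ¬ ArithmeticFunction.cardFactors (p * p') ≡ c [MOD m]}.ncard : ℝ) := by
  classical
  obtain ⟨R1, δ1, hδ1, N1, h1⟩ := st_one hF m hm hodd ε hε 2 (by norm_num)
  obtain ⟨R2, δ2, hδ2, N2, h2⟩ := st_one hF m hm hodd ε hε (-2) (by norm_num)
  refine ⟨max R1 R2, min δ1 δ2, lt_min hδ1 hδ2, max (max N1 N2) 16, fun N hN hE c => ?_⟩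
  have hN1 : N1 ≤ N := (le_max_left _ _).trans ((le_max_left _ _).trans hN)
  have hN2 : N2 ≤ N := (le_max_right _ _).trans ((le_max_left _ _).trans hN)
  have hN16 : 16 ≤ N := (le_max_right _ _).trans hN
  have hNr : (1 : ℝ) ≤ N := by exact_mod_cast (by omega : 1 ≤ N)
  -- local conditions
  have hloc : ∀ σ τ : ℤ, (σ = 2 ∨ σ = -2) → (τ = 2 ∨ τ = -2) →
      (∃ n : ℤ, ¬ (3 : ℤ) ∣ n ∧ ¬ (3 : ℤ) ∣ n + σ ∧ ¬ (3 : ℤ) ∣ N - n ∧ ¬ (3 : ℤ) ∣ N - n + τ) →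
      ∀ p : ℕ, p.Prime → ∃ n : ℤ, ¬ (p : ℤ) ∣ n ∧ ¬ (p : ℤ) ∣ n + σ ∧ ¬ (p : ℤ) ∣ N - n ∧
      ¬ (p : ℤ) ∣ N - n + τ := by
    intro σ τ hσ hτ h3 p hp
    rcases Nat.lt_or_ge p 5 with hp5 | hp5
    · have h23 : p = 2 ∨ p = 3 := by
        have := hp.two_le
        have h4 : p ≠ 4 := by rintro rfl; norm_num at hp
        omega
      rcases h23 with rfl | rfl
      · refine ⟨1, ?_⟩
        obtain ⟨t, ht⟩ := hE
        have : (N : ℤ) = t + t := by exact_mod_cast ht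
        have h2c : ((2 : ℕ) : ℤ) = 2 := rfl
        rw [h2c]
        clear h3
        refine ⟨?_, ?_, ?_, ?_⟩
        · norm_num
        · rcases hσ with rfl | rfl <;> omega
        · omega
        · rcases hτ with rfl | rfl <;> omega
      · exact_mod_cast h3
    · obtain ⟨n, g1, g2, g3, g4⟩ := avoid4 p hp hp5 0 (-σ) N (N + τ)
      refine ⟨n, ?_, ?_, ?_, ?_⟩
      · simpa using g1
      · simpa using g2
      · intro hd
        apply g3
        have : n - (N : ℤ) = -((N : ℤ) - n) := by ring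
        rw [this]; exact (dvd_neg).2 hd
      · intro hd
        apply g4
        have : n - ((N : ℤ) + τ) = -((N : ℤ) - n + τ) := by ring
        rw [this]; exact (dvd_neg).2 hd
  -- transfer
  have trans : ∀ (σ τ : ℤ) (R' : ℕ) (δ' : ℝ), (σ = 2 ∨ σ = -2) → (τ = 2 ∨ τ = -2) →
      R' ≤ max R1 R2 → min δ1 δ2 ≤ δ' →
      (N : ℝ) ^ (1 - ε) ≤ ({n : ℕ | 0 < n ∧ 2 * n ≤ N ∧
        (∀ v ∈ ({(n : ℤ), (n : ℤ) + σ, (N : ℤ) - n, (N : ℤ) - n + τ} : Set ℤ), 0 < v ∧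
          ArithmeticFunction.cardFactors v.natAbs ≤ R' ∧
          ∀ p : ℕ, p.Prime → (p : ℤ) ∣ v → (N : ℝ) ^ δ' < p) ∧
        ¬ (ArithmeticFunction.cardFactors n + ArithmeticFunction.cardFactors (n + σ).natAbs) ≡
          c [MOD m]}.ncard : ℝ) →
      (N : ℝ) ^ (1 - ε) ≤ ({p : ℕ | ∃ p' q q' : ℕ, p + q = N ∧
      (p' = p + 2 ∨ p = p' + 2) ∧ (q' = q + 2 ∨ q = q' + 2) ∧
      (∀ v ∈ ({p, p', q, q'} : Set ℕ), 0 < v ∧ ArithmeticFunction.cardFactors v ≤ max R1 R2 ∧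
        ∀ l : ℕ, l.Prime → l ∣ v → (N : ℝ) ^ (min δ1 δ2) < l) ∧
      ¬ ArithmeticFunction.cardFactors (p * p') ≡ c [MOD m]}.ncard : ℝ) := by
    intro σ τ R' δ' hσ hτ hR hδ hle
    refine hle.trans (Nat.cast_le.2 (Set.ncard_le_ncard ?_ ?_))
    · rintro n ⟨g1, g2, g3, g4⟩
      have hδN : (N : ℝ) ^ (min δ1 δ2) ≤ (N : ℝ) ^ δ' :=
        Real.rpow_le_rpow_of_exponent_le hNr hδ
      have k1 := g3 (n : ℤ) (by simp)
      have k2 := g3 ((n : ℤ) + σ) (by simp)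
      have k3 := g3 ((N : ℤ) - n) (by simp)
      have k4 := g3 ((N : ℤ) - n + τ) (by simp)
      have conv : ∀ (v : ℤ) (u : ℕ), (u : ℤ) = v → (0 < v ∧
          ArithmeticFunction.cardFactors v.natAbs ≤ R' ∧
          ∀ p : ℕ, p.Prime → (p : ℤ) ∣ v → (N : ℝ) ^ δ' < p) →
          0 < u ∧ ArithmeticFunction.cardFactors u ≤ max R1 R2 ∧
          ∀ l : ℕ, l.Prime → l ∣ u → (N : ℝ) ^ (min δ1 δ2) < l := by
        rintro v u rfl ⟨a1, a2, a3⟩
        rw [Int.natAbs_natCast] at a2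
        exact ⟨by exact_mod_cast a1, a2.trans hR, fun l hl hd =>
          hδN.trans_lt (a3 l hl (Int.natCast_dvd_natCast.2 hd))⟩
      have u2 : (((n : ℤ) + σ).toNat : ℤ) = n + σ := Int.toNat_of_nonneg k2.1.le
      have u3 : ((N - n : ℕ) : ℤ) = (N : ℤ) - n := by omega
      have u4 : (((N : ℤ) - n + τ).toNat : ℤ) = N - n + τ := Int.toNat_of_nonneg k4.1.le
      refine ⟨((n : ℤ) + σ).toNat, N - n, ((N : ℤ) - n + τ).toNat, by omega, ?_, ?_, ?_, ?_⟩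
      · rcases hσ with rfl | rfl
        · left; omega
        · right; omega
      · rcases hτ with rfl | rfl
        · left; omega
        · right; omega
      · intro v hv
        simp only [Set.mem_insert_iff, Set.mem_singleton_iff] at hv
        rcases hv with rfl | rfl | rfl | rfl
        · exact conv _ _ rfl k1
        · exact conv _ _ u2 k2
        · exact conv _ _ u3 k3
        · exact conv _ _ u4 k4
      · have h5 : ((n : ℤ) + σ).natAbs = ((n : ℤ) + σ).toNat := by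
          have := k2.1
          omega
        rw [h5] at g4
        rw [ArithmeticFunction.cardFactors_mul g1.ne' (by have := k2.1; omega)]
        exact g4
    · apply (Set.finite_Iic N).subset
      rintro p ⟨p', q, q', g, -⟩
      simp only [Set.mem_Iic]
      omega
  have hmod : N % 3 = 0 ∨ N % 3 = 1 ∨ N % 3 = 2 := by omega
  rcases hmod with h | h | h
  · refine trans 2 (-2) R1 δ1 (Or.inl rfl) (Or.inr rfl) (le_max_left _ _) (min_le_left _ _)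
      (h1 N hN1 (-2) (by norm_num) (hloc 2 (-2) (Or.inl rfl) (Or.inr rfl) ⟨2, ?_⟩) c)
    omega
  · refine trans 2 2 R1 δ1 (Or.inl rfl) (Or.inl rfl) (le_max_left _ _) (min_le_left _ _)
      (h1 N hN1 2 (by norm_num) (hloc 2 2 (Or.inl rfl) (Or.inl rfl) ⟨2, ?_⟩) c)
    omega
  · refine trans (-2) (-2) R2 δ2 (Or.inr rfl) (Or.inr rfl) (le_max_right _ _) (min_le_right _ _)
      (h2 N hN2 (-2) (by norm_num) (hloc (-2) (-2) (Or.inr rfl) (Or.inr rfl) ⟨1, ?_⟩) c)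
    omega

end Pool.Agent.H661R4.RM
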